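import Mathlib

/-! # The Grassmannian of a Euclidean space: definitions used in the statement -/

open MeasureTheory

namespace Pool.Agent.Work.MP_2a522c_an

variable (X : Type) [NormedAddCommGroup X] [InnerProductSpace ℝ X] [FiniteDimensional ℝ X]

/-- The Grassmannian of `l`-dimensional linear subspaces of `X`. -/
def Grass (l : ℕ) := {V : Submodule ℝ X // Module.finrank ℝ V = l}

/-- The usual topology: `V` is identified with the orthogonal projection operator onto `V`. -/
noncomputable instance (l : ℕ) : TopologicalSpace (Grass X l) :=
  TopologicalSpace.induced (fun V => (V.1.starProjection : X →L[ℝ] X)) inferInstance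

/-- The Borel σ-algebra. -/
noncomputable instance (l : ℕ) : MeasurableSpace (Grass X l) := borel _

variable {X}

/-- The action of the orthogonal group. -/
noncomputable def Grass.act {l : ℕ} (g : X ≃ₗᵢ[ℝ] X) (V : Grass X l) : Grass X l :=
  ⟨V.1.map g.toLinearEquiv.toLinearMap, (LinearEquiv.finrank_map_eq _ _).trans V.2⟩

/-- Invariance of a measure on the Grassmannian under the orthogonal group. -/
def Grass.Inv {l : ℕ} (γ : Measure (Grass X l)) : Prop :=
  ∀ (g : X ≃ₗᵢ[ℝ] X) (S : Set (Grass X l)), MeasurableSet S → γ (Grass.act g ⁻¹' S) = γ S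

/-- The orthogonal projection of `E` onto `V` has nonempty interior in `V`. -/
def Grass.HasInt {l : ℕ} (E : Set X) (V : Grass X l) : Prop :=
  (interior (V.1.orthogonalProjectionOnto '' E : Set V.1)).Nonempty

end Pool.Agent.Work.MP_2a522c_an
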