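import Pool.Agent.Work.MP_2a522c_an.GaussPt

-- merged part: Pool.Agent.Work.MP_2a522c_an.Hair1
section
/-! # The hairbrush estimate: one bristle family -/

open MeasureTheory Metric Set Filter Topology
open scoped ENNReal NNReal Real

namespace Pool.Agent.Work.MP_2a522c_an

variable {l : ℕ}

/-- A tube around the line `t ↦ a + t b`. -/
def tube (a b : Vc l) (δ : ℝ) : Set (ℝ × Vc l) := {p | ‖p.2 - a - p.1 • b‖ ≤ δ}

theorem Hair_meas {Θ : Type*} [MeasurableSpace Θ] {a b : Θ → Vc l} {p : Θ → ℝ × Vc l}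
    (ha : Measurable a) (hb : Measurable b) (hp : Measurable p) (δ : ℝ) :
    MeasurableSet {x | p x ∈ tube (a x) (b x) δ} :=
  measurableSet_le (f := fun x => ‖(p x).2 - a x - (p x).1 • b x‖) (by fun_prop) measurable_const

theorem Hair_abs {Θ : Type*} [MeasurableSpace Θ] {f : Θ → ℝ} (hf : Measurable f) (c : ℝ) :
    MeasurableSet {x | c ≤ |f x|} :=
  measurableSet_le measurable_const (by fun_prop)

theorem Hair_meas' (a b : Vc l) (δ : ℝ) : MeasurableSet (tube a b δ) :=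
  Hair_meas measurable_const measurable_const measurable_id δ

theorem Hair_tube (T : Set ℝ) (hT : MeasurableSet T) (a b : Vc l) (δ : ℝ≥0) :
    volume (Prod.fst ⁻¹' T ∩ tube a b δ) = volume T * (2 * δ : ℝ≥0∞) ^ l := by
  rw [Measure.volume_eq_prod, Measure.prod_apply ((measurable_fst hT).inter (Hair_meas' a b δ))]
  have : ∀ t : ℝ, volume (Prod.mk t ⁻¹' (Prod.fst ⁻¹' T ∩ tube a b δ)) =
      T.indicator (fun _ => (2 * δ : ℝ≥0∞) ^ l) t := fun t => by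
    by_cases ht : t ∈ T
    · have e : Prod.mk t ⁻¹' (Prod.fst ⁻¹' T ∩ tube a b δ) = closedBall (a + t • b) δ := by
        ext x
        simp [tube, ht, dist_eq_norm, sub_sub]
      rw [e, vol_ball, indicator_of_mem ht, Fintype.card_fin]
    · have e : Prod.mk t ⁻¹' (Prod.fst ⁻¹' T ∩ tube a b δ) = ∅ := by
        ext x
        simp [ht]
      rw [e, indicator_of_notMem ht, measure_empty]
  simp only [this]
  rw [lintegral_indicator_const hT, mul_comm]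

theorem Hair_short (a b : Vc l) (δ η : ℝ≥0) (c : ℝ) :
    volume ({p : ℝ × Vc l | |p.1 - c| ≤ η} ∩ tube a b δ) = 2 * η * (2 * δ : ℝ≥0∞) ^ l := by
  have e : {p : ℝ × Vc l | |p.1 - c| ≤ η} = Prod.fst ⁻¹' closedBall c η := by
    ext p
    simp [Real.dist_eq]
  rw [e, Hair_tube _ measurableSet_closedBall, Real.volume_closedBall,
    ENNReal.ofReal_mul zero_le_two, ENNReal.ofReal_coe_nnreal]
  simp

theorem Hair_two (a b a' b' : Vc l) (δ : ℝ≥0) :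
    volume (tube a b δ ∩ tube a' b' δ) * ENNReal.ofReal ‖b' - b‖ ≤
      4 * δ * (2 * δ : ℝ≥0∞) ^ l := by
  have h1 : tube a b δ ∩ tube a' b' δ ⊆
      Prod.fst ⁻¹' {t : ℝ | ‖(a' - a) + t • (b' - b)‖ ≤ (2 * δ : ℝ≥0)} ∩ tube a b δ := by
    rintro p ⟨h, h'⟩
    refine ⟨?_, h⟩
    have e : (a' - a) + p.1 • (b' - b) = (p.2 - a - p.1 • b) - (p.2 - a' - p.1 • b') := by
      rw [smul_sub]; abel
    change ‖(a' - a) + p.1 • (b' - b)‖ ≤ (2 * δ : ℝ≥0)
    rw [e]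
    refine (norm_sub_le _ _).trans ?_
    have h2 : ‖p.2 - a - p.1 • b‖ ≤ δ := h
    have h3 : ‖p.2 - a' - p.1 • b'‖ ≤ δ := h'
    push_cast
    linarith only [h2, h3]
  have h2 := time_le (a' - a) (b' - b) (2 * δ)
  calc _ ≤ volume {t : ℝ | ‖(a' - a) + t • (b' - b)‖ ≤ (2 * δ : ℝ≥0)} * (2 * δ : ℝ≥0∞) ^ l *
        ENNReal.ofReal ‖b' - b‖ := by
        rw [← Hair_tube _ (measurableSet_le (by fun_prop) measurable_const) a b δ]
        gcongr
    _ = volume {t : ℝ | ‖(a' - a) + t • (b' - b)‖ ≤ (2 * δ : ℝ≥0)} * ENNReal.ofReal ‖b' - b‖ *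
        (2 * δ : ℝ≥0∞) ^ l := by ring
    _ ≤ 2 * (2 * δ : ℝ≥0) * (2 * δ : ℝ≥0∞) ^ l := by gcongr
    _ = _ := by push_cast; ring

/-- The data of a family of rich tubes. -/
structure Fam (Y : Set (ℝ × Vc l)) (𝔅 : Set (Vc l)) (q : Vc l → Vc l) (δ lam R D : ℝ≥0)
    (J : ℕ) : Prop where
  mY : MeasurableSet Y
  mB : MeasurableSet 𝔅
  mq : Measurable q
  δ0 : 0 < δ
  δ1 : δ ≤ 1
  R1 : 1 ≤ R
  D1 : 1 ≤ D
  hJ : 2 * D ≤ 2 ^ J * δ
  hY : ∀ p ∈ Y, |p.1| ≤ R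
  hB : ∀ b ∈ 𝔅, ‖b‖ ≤ D
  rich : ∀ b ∈ 𝔅, (lam * δ ^ l : ℝ≥0∞) ≤ volume (Y ∩ tube (q b) b δ)

variable {Y : Set (ℝ × Vc l)} {𝔅 : Set (Vc l)} {q : Vc l → Vc l} {δ lam R D : ℝ≥0} {J : ℕ}

theorem Fam.dist (F : Fam Y 𝔅 q δ lam R D J) {b b' : Vc l} (hb : b ∈ 𝔅) (hb' : b' ∈ 𝔅) :
    ‖b' - b‖ ≤ 2 * D := by
  have := norm_sub_le b' b
  have := F.hB b hb
  have := F.hB b' hb'
  linarith

theorem Fam.dist' (F : Fam Y 𝔅 q δ lam R D J) {b b' : Vc l} (hb : b ∈ 𝔅) (hb' : b' ∈ 𝔅) :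
    ‖b' - b‖ ≤ 2 ^ J * δ := by
  have h1 := F.dist hb hb'
  have h2 : (2 * D : ℝ) ≤ 2 ^ J * δ := by exact_mod_cast F.hJ
  linarith

theorem Fam.le_G (F : Fam Y 𝔅 q δ lam R D J) (a b : Vc l) {S : Set (ℝ × Vc l)}
    (h : S ⊆ Y ∩ tube a b δ) : volume S ≤ 4 * R * (2 * δ : ℝ≥0∞) ^ l := by
  calc volume S ≤ volume ({p : ℝ × Vc l | |p.1 - 0| ≤ R} ∩ tube a b δ) :=
        measure_mono fun p hp => ⟨by simpa using F.hY p (h hp).1, (h hp).2⟩
    _ = 2 * R * (2 * δ : ℝ≥0∞) ^ l := Hair_short a b δ R 0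
    _ ≤ _ := by gcongr; norm_num

theorem Fam.le_G' (F : Fam Y 𝔅 q δ lam R D J) (a b a' b' : Vc l) {S : Set (ℝ × Vc l)}
    (h : S ⊆ tube a b δ ∩ tube a' b' δ) :
    volume S * ENNReal.ofReal ‖b' - b‖ ≤ 4 * R * (2 * δ : ℝ≥0∞) ^ l * δ := by
  have h1 : (1 : ℝ≥0∞) ≤ R := by exact_mod_cast F.R1
  calc _ ≤ volume (tube a b δ ∩ tube a' b' δ) * ENNReal.ofReal ‖b' - b‖ := by gcongr
    _ ≤ 4 * δ * (2 * δ : ℝ≥0∞) ^ l := Hair_two a b a' b' δ
    _ = 4 * 1 * (2 * δ : ℝ≥0∞) ^ l * δ := by ring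
    _ ≤ _ := by gcongr

theorem Fam.vol (F : Fam Y 𝔅 q δ lam R D J) : volume 𝔅 ≤ (2 * D : ℝ≥0∞) ^ l := by
  have := vol_ball (0 : Vc l) D
  rw [Fintype.card_fin] at this
  rw [← this]
  exact measure_mono fun b hb => by simpa using F.hB b hb

theorem Fam.brush (F : Fam Y 𝔅 q δ lam R D J) (hl : 1 ≤ l) {η : ℝ≥0} (η0 : 0 < η)
    (hη : 12 * 2 ^ l * η ≤ lam) {H : Set (Vc l)} (mH : MeasurableSet H) (hH : H ⊆ 𝔅)
    (a₀ b₀ : Vc l) (τ₀ θ a : ℝ)
    (h : ∀ b ∈ H, ‖b - b₀‖ ≤ θ ∧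
      ∃ τ : ℝ, |τ| ≤ 2 * R ∧ |τ - τ₀| ≤ η ∧ ‖q b - a₀ + τ • (b - b₀)‖ ≤ 3 * δ) :
    volume H * (lam ^ 2 * η ^ (l - 1)) ≤ 64 * R * 72 ^ l * (J + 1) *
      volume (Y ∩ tube a₀ b₀ (4 * δ + 3 * R * θ) ∩ {p | (η : ℝ) ≤ |p.1 - a|}) := by
  obtain ⟨I, hI⟩ : ∃ I : Set (Vc l × (ℝ × Vc l)), I = {z | z.1 ∈ H ∧ z.2 ∈ Y ∧
      z.2 ∈ tube (q z.1) z.1 δ ∧ (η : ℝ) ≤ |z.2.1 - a| ∧ 2 * (η : ℝ) ≤ |z.2.1 - τ₀|} := ⟨_, rfl⟩
  have mI : MeasurableSet I := by
    rw [hI]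
    refine (measurable_fst mH).inter ((measurable_snd F.mY).inter
      ((Hair_meas (F.mq.comp measurable_fst) measurable_fst measurable_snd δ).inter
        ((Hair_abs (f := fun z : Vc l × (ℝ × Vc l) => z.2.1 - a) (by fun_prop) _).inter
          (Hair_abs (f := fun z : Vc l × (ℝ × Vc l) => z.2.1 - τ₀) (by fun_prop) _))))
  obtain ⟨U, hU⟩ : ∃ U, U = Y ∩ tube a₀ b₀ (4 * δ + 3 * R * θ) ∩ {p | (η : ℝ) ≤ |p.1 - a|} :=
    ⟨_, rfl⟩
  have mU : MeasurableSet U := by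
    rw [hU]
    exact (F.mY.inter (Hair_meas' _ _ _)).inter (measurableSet_le measurable_const (by fun_prop))
  rw [← hU]
  have key : ∀ b p, (b, p) ∈ I → ∃ τ : ℝ, (η : ℝ) ≤ |p.1 - τ| ∧ |p.1 - τ| ≤ 3 * R ∧
      ‖p.2 - a₀ - p.1 • b₀ - (p.1 - τ) • (b - b₀)‖ ≤ 4 * δ := by
    intro b p hp
    rw [hI] at hp
    obtain ⟨h1, h2, h3, -, h5⟩ := hp
    obtain ⟨-, τ, t1, t2, t3⟩ := h b h1
    refine ⟨τ, ?_, ?_, ?_⟩
    · have := abs_sub_le p.1 τ τ₀
      simp only at h5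
      linarith only [h5, t2, this]
    · have := abs_sub p.1 τ
      have := F.hY p h2
      linarith
    · have e : p.2 - a₀ - p.1 • b₀ - (p.1 - τ) • (b - b₀) =
          (p.2 - q b - p.1 • b) + (q b - a₀ + τ • (b - b₀)) := by
        simp only [smul_sub, sub_smul]; abel
      have h6 : ‖p.2 - q b - p.1 • b‖ ≤ δ := h3
      rw [e]
      refine (norm_add_le _ _).trans ?_
      linarith only [t3, h6]
  have cs := cs_inc volume volume mI mU (fun z hz => by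
    obtain ⟨τ, -, t2, t3⟩ := key z.1 z.2 hz
    rw [hI] at hz
    rw [hU]
    refine ⟨⟨hz.2.1, ?_⟩, hz.2.2.2.1⟩
    have e : z.2.2 - a₀ - z.2.1 • b₀ =
        (z.2.2 - a₀ - z.2.1 • b₀ - (z.2.1 - τ) • (z.1 - b₀)) + (z.2.1 - τ) • (z.1 - b₀) := by abel
    change ‖z.2.2 - a₀ - z.2.1 • b₀‖ ≤ _
    rw [e]
    refine (norm_add_le _ _).trans (add_le_add t3 ?_)
    rw [norm_smul, Real.norm_eq_abs]
    exact mul_le_mul t2 (h _ hz.1).1 (norm_nonneg _) (by positivity))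
  have low : ∀ b ∈ H, ((lam / 2 : ℝ≥0) * δ ^ l : ℝ≥0∞) ≤ volume (Prod.mk b ⁻¹' I) := by
    intro b hb
    have h1 : Y ∩ tube (q b) b δ ⊆ (Prod.mk b ⁻¹' I ∪
        {p : ℝ × Vc l | |p.1 - a| ≤ η} ∩ tube (q b) b δ) ∪
        {p : ℝ × Vc l | |p.1 - τ₀| ≤ (2 * η : ℝ≥0)} ∩ tube (q b) b δ := by
      rintro p ⟨p1, p2⟩
      by_cases c1 : |p.1 - a| ≤ η
      · exact Or.inl (Or.inr ⟨c1, p2⟩)
      by_cases c2 : |p.1 - τ₀| ≤ (2 * η : ℝ≥0)
      · exact Or.inr ⟨c2, p2⟩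
      refine Or.inl (Or.inl ?_)
      rw [hI]
      push_cast at c2
      exact ⟨hb, p1, p2, (not_le.1 c1).le, (not_le.1 c2).le⟩
    have h2 := (F.rich b (hH hb)).trans ((measure_mono h1).trans ((measure_union_le _ _).trans
      (add_le_add (measure_union_le _ _) le_rfl)))
    rw [Hair_short, Hair_short, add_assoc] at h2
    have h3 : 2 * η * (2 * δ : ℝ≥0∞) ^ l + 2 * (2 * η : ℝ≥0) * (2 * δ : ℝ≥0∞) ^ l ≤
        (lam / 2 : ℝ≥0) * δ ^ l := by
      have : (6 * 2 ^ l * η : ℝ≥0) ≤ lam / 2 := by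
        rw [le_div_iff₀ two_pos]
        calc _ = 12 * 2 ^ l * η := by ring
          _ ≤ _ := hη
      calc _ = (6 * 2 ^ l * η : ℝ≥0) * (δ : ℝ≥0∞) ^ l := by push_cast; ring
        _ ≤ _ := by gcongr
    have h4 : (lam * δ ^ l : ℝ≥0∞) = (lam / 2 : ℝ≥0) * δ ^ l + (lam / 2 : ℝ≥0) * δ ^ l := by
      rw [← add_mul, ← ENNReal.coe_add, add_halves]
    rw [h4] at h2
    exact ENNReal.le_of_add_le_add_right (by finiteness) (h2.trans (add_le_add le_rfl h3))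
  have out : ∀ b ∉ H, Prod.mk b ⁻¹' I = ∅ := fun b hb => by
    rw [hI]
    exact eq_empty_of_forall_notMem fun p hp => hb hp.1
  obtain ⟨ε, hε⟩ : ∃ ε : ℝ≥0, ε = 9 * δ / η := ⟨_, rfl⟩
  have inner : ∀ b ∈ H, ∫⁻ b', volume (Prod.mk b ⁻¹' I ∩ Prod.mk b' ⁻¹' I) ≤
      2 * (4 * R * (2 * δ : ℝ≥0∞) ^ l) * (2 * δ * (4 * ε : ℝ≥0∞) ^ (l - 1)) * (J + 1) := by
    intro b hb
    have hsub : ∀ b', Prod.mk b' ⁻¹' I ⊆ Y ∩ tube (q b') b' δ := fun b' p hp => by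
      rw [hI] at hp
      exact ⟨hp.2.1, hp.2.2.1⟩
    refine lint_dyadic volume (S := 𝔅 ∩ ⋃ s : ℝ, ball (b₀ + s • (b - b₀)) ε)
      (F.mB.inter (isOpen_iUnion fun _ => isOpen_ball).measurableSet) (ρ := fun b' => ‖b' - b‖)
      (by fun_prop) F.δ0 (fun b' hb' => ?_) (fun b' hb' => F.dist' (hH hb) hb'.1)
      (fun b' _ => F.le_G _ _ (inter_subset_left.trans (hsub b)))
      (fun b' _ => F.le_G' (q b) b (q b') b'
        (inter_subset_inter ((hsub b).trans inter_subset_right)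
          ((hsub b').trans inter_subset_right))) fun i _ => ?_
    · rw [eq_empty_of_forall_notMem (s := _ ∩ _), measure_empty]
      rintro p ⟨p1, p2⟩
      obtain ⟨τ, -, -, t3⟩ := key b p p1
      obtain ⟨τ', s1, -, s3⟩ := key b' p p2
      have hb'H : b' ∈ H := by
        rw [hI] at p2
        exact p2.1
      refine hb' ⟨hH hb'H, mem_iUnion.2 ⟨(p.1 - τ) / (p.1 - τ'), ?_⟩⟩
      have η0' : (0 : ℝ) < η := η0
      have δ0' : (0 : ℝ) < δ := F.δ0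
      have ne : p.1 - τ' ≠ 0 := abs_pos.1 (η0'.trans_le s1)
      have e : (p.1 - τ') • (b' - (b₀ + ((p.1 - τ) / (p.1 - τ')) • (b - b₀))) =
          (p.2 - a₀ - p.1 • b₀ - (p.1 - τ) • (b - b₀)) -
            (p.2 - a₀ - p.1 • b₀ - (p.1 - τ') • (b' - b₀)) := by
        rw [← sub_sub, smul_sub, smul_smul, mul_div_cancel₀ _ ne]
        abel
      have h5 := norm_sub_le (p.2 - a₀ - p.1 • b₀ - (p.1 - τ) • (b - b₀))
        (p.2 - a₀ - p.1 • b₀ - (p.1 - τ') • (b' - b₀))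
      rw [← e, norm_smul, Real.norm_eq_abs] at h5
      rw [mem_ball, dist_eq_norm, hε]
      push_cast
      rw [lt_div_iff₀ η0']
      have := mul_le_mul_of_nonneg_right s1
        (norm_nonneg (b' - (b₀ + ((p.1 - τ) / (p.1 - τ')) • (b - b₀))))
      linarith only [t3, s3, δ0', h5, this]
    · have h5 := nbhd_line_le hl (b - b₀) ε (2 ^ i * δ)
      rw [← measure_preimage_add_right volume (-b₀)] at h5
      refine le_trans (measure_mono ?_) (h5.trans (le_of_eq (by push_cast; ring)))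
      rintro b' ⟨⟨-, h6⟩, h7⟩
      obtain ⟨s, hs⟩ := mem_iUnion.1 h6
      rw [mem_ball, dist_eq_norm] at hs
      refine ⟨⟨s, ?_⟩, ?_⟩
      · rw [show b' + -b₀ - s • (b - b₀) = b' - (b₀ + s • (b - b₀)) by abel]
        exact hs.le
      · rw [show b' + -b₀ - (b - b₀) = b' - b by abel]
        exact_mod_cast h7
  have l1 : (lam / 2 : ℝ≥0) * δ ^ l * volume H ≤ ∫⁻ b, volume (Prod.mk b ⁻¹' I) := by
    rw [← lintegral_indicator_const mH]
    exact lintegral_mono fun b => indicator_le' low (fun _ _ => zero_le) b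
  have l2 : ∫⁻ b, ∫⁻ b', volume (Prod.mk b ⁻¹' I ∩ Prod.mk b' ⁻¹' I) ≤
      2 * (4 * R * (2 * δ : ℝ≥0∞) ^ l) * (2 * δ * (4 * ε : ℝ≥0∞) ^ (l - 1)) * (J + 1) *
        volume H := by
    rw [← lintegral_indicator_const mH]
    refine lintegral_mono fun b => ?_
    by_cases hb : b ∈ H
    · rw [indicator_of_mem hb]
      exact inner b hb
    · simp [out b hb]
  have fin : volume H ≠ ∞ := ne_top_of_le_ne_top (by finiteness) ((measure_mono hH).trans F.vol)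
  rcases eq_or_ne (volume H) 0 with h0 | h0
  · simp [h0]
  have l3 := (pow_le_pow_left' l1 2).trans (cs.trans (mul_le_mul' le_rfl l2))
  obtain ⟨n, rfl⟩ : ∃ n, l = n + 1 := ⟨l - 1, by omega⟩
  simp only [Nat.add_sub_cancel] at l3 ⊢
  have e1 : (ε * η : ℝ≥0∞) = 9 * δ := by
    rw [hε, ← ENNReal.coe_mul, div_mul_cancel₀ _ η0.ne']
    simp
  have e2 : (lam : ℝ≥0∞) = 2 * (lam / 2 : ℝ≥0) := by
    rw [two_mul, ← ENNReal.coe_add, add_halves]
  have δne : (δ : ℝ≥0∞) ^ (2 * n + 2) * volume H ≠ 0 :=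
    mul_ne_zero (pow_ne_zero _ (by exact_mod_cast F.δ0.ne')) h0
  refine (ENNReal.mul_le_mul_iff_left δne (by finiteness)).1 ?_
  calc _ = 4 * η ^ n * ((lam / 2 : ℝ≥0) * δ ^ (n + 1) * volume H) ^ 2 := by
        conv_lhs => rw [e2]
        ring
    _ ≤ 4 * η ^ n * (volume U * (2 * (4 * R * (2 * δ : ℝ≥0∞) ^ (n + 1)) *
          (2 * δ * (4 * ε : ℝ≥0∞) ^ n) * (J + 1) * volume H)) := by gcongr
    _ = 64 * R * (2 ^ (n + 1) * (4 * (ε * η)) ^ n) * (J + 1) * volume U *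
          (δ ^ (n + 2) * volume H) := by ring
    _ = 64 * R * (2 * 72 ^ n) * (J + 1) * volume U * (δ ^ (2 * n + 2) * volume H) := by
        have e3 : (72 : ℝ≥0∞) ^ n = 2 ^ n * 36 ^ n := by rw [← mul_pow]; norm_num
        rw [e1, e3]
        ring
    _ ≤ _ := by
        gcongr
        rw [pow_succ, mul_comm]
        gcongr
        norm_num

end Pool.Agent.Work.MP_2a522c_an
end

-- merged part: Pool.Agent.Work.MP_2a522c_an.Hair
section
/-! # The hairbrush estimate -/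

open MeasureTheory Metric Set Filter Topology
open scoped ENNReal NNReal Real

namespace Pool.Agent.Work.MP_2a522c_an

variable {l : ℕ} {Y : Set (ℝ × Vc l)} {𝔅 : Set (Vc l)} {q : Vc l → Vc l} {δ lam R D : ℝ≥0} {J : ℕ}

/-- Pairs of tubes of the family which meet. -/
def Meet (𝔅 : Set (Vc l)) (q : Vc l → Vc l) (δ R : ℝ) : Set (Vc l × Vc l) :=
  {z | z.1 ∈ 𝔅 ∧ z.2 ∈ 𝔅 ∧ ∃ τ : ℝ, |τ| < 2 * R ∧ ‖q z.2 - q z.1 + τ • (z.2 - z.1)‖ < 3 * δ}

theorem Hair_open {Θ : Type*} [MeasurableSpace Θ] {f g : Θ → Vc l} (hf : Measurable f)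
    (hg : Measurable g) (T : Set ℝ) (r : ℝ) :
    MeasurableSet {x | ∃ τ ∈ T, ‖f x + τ • g x‖ < r} := by
  have h : IsOpen (⋃ τ ∈ T, {z : Vc l × Vc l | ‖z.1 + τ • z.2‖ < r}) :=
    isOpen_biUnion fun τ _ => isOpen_lt (by fun_prop) continuous_const
  convert (hf.prodMk hg) h.measurableSet using 1
  ext x
  simp

theorem Fam.mMeet (F : Fam Y 𝔅 q δ lam R D J) : MeasurableSet (Meet 𝔅 q δ R) :=
  (measurable_fst F.mB).inter ((measurable_snd F.mB).inter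
    (Hair_open (f := fun z : Vc l × Vc l => q z.2 - q z.1) (g := fun z => z.2 - z.1)
      (by have := F.mq; fun_prop) (by fun_prop) {τ | |τ| < 2 * R} _))

theorem Fam.mMeet' (F : Fam Y 𝔅 q δ lam R D J) (θ : ℝ) :
    MeasurableSet {z ∈ Meet 𝔅 q δ R | ‖z.2 - z.1‖ ≤ θ} :=
  F.mMeet.inter (measurableSet_le (f := fun z : Vc l × Vc l => ‖z.2 - z.1‖) (by fun_prop)
    measurable_const)

theorem Fam.full (F : Fam Y 𝔅 q δ lam R D J) (hl : 1 ≤ l) {η : ℝ≥0} (η0 : 0 < η) (η1 : η ≤ 1)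
    (hη : 12 * 2 ^ l * η ≤ lam) (b₀ : Vc l) {θ : ℝ≥0} (hθ : δ ≤ θ) (a : ℝ) :
    volume (Prod.mk b₀ ⁻¹' {z ∈ Meet 𝔅 q δ R | ‖z.2 - z.1‖ ≤ θ}) * (lam ^ 2 * η ^ l) ≤
      384 * R ^ 2 * 72 ^ l * (J + 1) *
        volume (Y ∩ tube (q b₀) b₀ (7 * R * θ : ℝ≥0) ∩ {p | (η : ℝ) ≤ |p.1 - a|}) := by
  have η0' : (0 : ℝ) < η := η0
  have η1' : (η : ℝ) ≤ 1 := η1
  have R1 : (1 : ℝ) ≤ R := F.R1
  obtain ⟨N, hN⟩ : ∃ N : ℕ, N = ⌈4 * (R : ℝ) / η⌉₊ + 1 := ⟨_, rfl⟩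
  have hN1 : (N : ℝ≥0∞) * η ≤ 6 * R := by
    have h1 := Nat.ceil_lt_add_one (a := 4 * (R : ℝ) / η) (by positivity)
    have h2 : (N : ℝ) * η ≤ 6 * R := by
      rw [hN]
      push_cast
      have h3 : 4 * (R : ℝ) / η * η = 4 * R := by field_simp
      linarith only [η1, R1, h3, h1, mul_nonneg_of_nonpos_of_nonpos (Mathlib.Tactic.Linarith.sub_nonpos_of_le (NNReal.coe_nonneg η)) (le_of_lt (Mathlib.Tactic.Linarith.sub_neg_of_lt h1))]
    exact_mod_cast h2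
  obtain ⟨H, hH⟩ : ∃ H : ℕ → Set (Vc l), H = fun (i : ℕ) => 𝔅 ∩ ({b | ‖b - b₀‖ ≤ θ} ∩
      {b | ∃ τ ∈ {τ : ℝ | |τ| ≤ 2 * R ∧ |τ - (-2 * R + i * η)| ≤ η},
        ‖q b - q b₀ + τ • (b - b₀)‖ < 3 * δ}) := ⟨_, rfl⟩
  have cov : Prod.mk b₀ ⁻¹' {z ∈ Meet 𝔅 q δ R | ‖z.2 - z.1‖ ≤ θ} ⊆ ⋃ i ∈ Finset.range N, H i := by
    rintro b ⟨⟨-, h2, τ, t1, t2⟩, h3⟩
    have t3 := abs_lt.1 t1
    have p0 : 0 ≤ (τ + 2 * R) / η := div_nonneg (by linarith only [t3]) η0'.le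
    have f1 := Nat.floor_le p0
    have f2 := Nat.lt_floor_add_one ((τ + 2 * R) / η)
    rw [le_div_iff₀ η0'] at f1
    rw [div_lt_iff₀ η0'] at f2
    refine mem_biUnion (x := ⌊(τ + 2 * R) / η⌋₊) ?_ ?_
    · rw [Finset.mem_coe, Finset.mem_range, hN, Nat.lt_add_one_iff]
      exact (Nat.floor_le_ceil _).trans (Nat.ceil_mono (by gcongr; linarith only [t3]))
    · rw [hH]
      exact ⟨h2, h3, τ, ⟨t1.le, abs_le.2 ⟨by linarith only [η0, f1], by linarith only [f2]⟩⟩, t2⟩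
  obtain ⟨u, hu⟩ : ∃ u, u = volume (Y ∩ tube (q b₀) b₀ (7 * R * θ : ℝ≥0) ∩
      {p | (η : ℝ) ≤ |p.1 - a|}) := ⟨_, rfl⟩
  have each : ∀ i, volume (H i) * (lam ^ 2 * η ^ (l - 1)) ≤ 64 * R * 72 ^ l * (J + 1) * u := by
    intro i
    refine (F.brush hl η0 hη (H := H i) ?_ ?_ (q b₀) b₀ (-2 * R + i * η) θ a ?_).trans ?_
    · rw [hH]
      exact F.mB.inter ((measurableSet_le (f := fun b : Vc l => ‖b - b₀‖) (by fun_prop)
        measurable_const).inter (Hair_open (f := fun b => q b - q b₀) (g := fun b => b - b₀)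
          (by have := F.mq; fun_prop) (by fun_prop) _ _))
    · rw [hH]
      exact inter_subset_left
    · rw [hH]
      rintro b ⟨-, h2, τ, ⟨t1, t2⟩, t3⟩
      exact ⟨h2, τ, t1, t2, t3.le⟩
    · rw [hu]
      gcongr
      intro p hp
      have h1 : ‖p.2 - q b₀ - p.1 • b₀‖ ≤ 4 * δ + 3 * R * θ := hp
      have h2 : (δ : ℝ) ≤ θ := hθ
      change ‖p.2 - q b₀ - p.1 • b₀‖ ≤ _
      push_cast
      linarith only [hθ, h1, R1, θ.2, mul_nonneg_of_nonpos_of_nonpos (Mathlib.Tactic.Linarith.sub_nonpos_of_le (NNReal.coe_nonneg θ)) (Mathlib.Tactic.Linarith.sub_nonpos_of_le R1)]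
  rw [← hu]
  obtain ⟨n, rfl⟩ : ∃ n, l = n + 1 := ⟨l - 1, by omega⟩
  calc _ ≤ (∑ i ∈ Finset.range N, volume (H i)) * (lam ^ 2 * η ^ (n + 1)) := by
        gcongr
        exact (measure_mono cov).trans (measure_biUnion_finset_le _ _)
    _ = (∑ i ∈ Finset.range N, volume (H i) * (lam ^ 2 * η ^ (n + 1 - 1))) * η := by
        rw [← Finset.sum_mul, Nat.add_sub_cancel]
        ring
    _ ≤ (∑ i ∈ Finset.range N, 64 * R * 72 ^ (n + 1) * (J + 1) * u) * η := by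
        exact mul_le_mul' (Finset.sum_le_sum fun i _ => each i) le_rfl
    _ = N * η * (64 * R * 72 ^ (n + 1) * (J + 1) * u) := by
        rw [Finset.sum_const, Finset.card_range, nsmul_eq_mul]
        ring
    _ ≤ 6 * R * (64 * R * 72 ^ (n + 1) * (J + 1) * u) := by gcongr
    _ = _ := by ring

theorem Hair_pair {S : Set (ℝ × Vc l)} (mS : MeasurableSet S) {η : ℝ≥0} {m c : ℝ≥0∞}
    (h : ∀ a : ℝ, m ≤ c * volume (S ∩ {p | (η : ℝ) ≤ |p.1 - a|})) :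
    m ^ 2 ≤ c ^ 2 * volume {z : (ℝ × Vc l) × (ℝ × Vc l) |
      z.1 ∈ S ∧ z.2 ∈ S ∧ (η : ℝ) ≤ |z.2.1 - z.1.1|} := by
  have mZ : MeasurableSet {z : (ℝ × Vc l) × (ℝ × Vc l) |
      z.1 ∈ S ∧ z.2 ∈ S ∧ (η : ℝ) ≤ |z.2.1 - z.1.1|} :=
    (measurable_fst mS).inter ((measurable_snd mS).inter
      (Hair_abs (f := fun z : (ℝ × Vc l) × (ℝ × Vc l) => z.2.1 - z.1.1) (by fun_prop) _))
  have h1 : m ≤ c * volume S := (h 0).trans (by gcongr; exact inter_subset_left)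
  rw [Measure.volume_eq_prod, Measure.prod_apply mZ]
  calc m ^ 2 = m * m := sq m
    _ ≤ m * (c * volume S) := by gcongr
    _ = c * ∫⁻ p, S.indicator (fun _ => m) p := by rw [lintegral_indicator_const mS]; ring
    _ ≤ c * ∫⁻ p, c * volume (Prod.mk p ⁻¹' {z : (ℝ × Vc l) × (ℝ × Vc l) |
          z.1 ∈ S ∧ z.2 ∈ S ∧ (η : ℝ) ≤ |z.2.1 - z.1.1|}) := by
        gcongr with p
        refine indicator_apply_le' (fun hp => (h p.1).trans ?_) (fun _ => zero_le)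
        gcongr
        exact fun p' hp' => ⟨hp, hp'.1, hp'.2⟩
    _ = _ := by
        rw [lintegral_const_mul _ (measurable_measure_prodMk_left mZ)]
        ring

theorem Fam.pairs (F : Fam Y 𝔅 q δ lam R D J) {η : ℝ≥0} (η0 : 0 < η) (σ : ℝ≥0) :
    ∫⁻ b, volume {z : (ℝ × Vc l) × (ℝ × Vc l) | z.1 ∈ Y ∩ tube (q b) b σ ∧
      z.2 ∈ Y ∩ tube (q b) b σ ∧ (η : ℝ) ≤ |z.2.1 - z.1.1|} ≤
        (2 * (2 * σ / η : ℝ≥0) : ℝ≥0∞) ^ l * volume Y ^ 2 := by
  have mq := F.mq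
  have mZ : MeasurableSet {w : Vc l × ((ℝ × Vc l) × (ℝ × Vc l)) |
      w.2.1 ∈ Y ∩ tube (q w.1) w.1 σ ∧ w.2.2 ∈ Y ∩ tube (q w.1) w.1 σ ∧
        (η : ℝ) ≤ |w.2.2.1 - w.2.1.1|} :=
    ((measurable_snd.fst F.mY).inter
      (Hair_meas (mq.comp measurable_fst) measurable_fst measurable_snd.fst σ)).inter
    (((measurable_snd.snd F.mY).inter
      (Hair_meas (mq.comp measurable_fst) measurable_fst measurable_snd.snd σ)).inter
      (Hair_abs (f := fun w : Vc l × ((ℝ × Vc l) × (ℝ × Vc l)) => w.2.2.1 - w.2.1.1)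
        (by fun_prop) _))
  refine le_of_eq_of_le ((Measure.prod_apply mZ).symm.trans (Measure.prod_apply_symm mZ)) ?_
  rw [sq, ← Measure.prod_prod, ← lintegral_indicator_const (F.mY.prod F.mY)]
  refine lintegral_mono fun z => ?_
  by_cases hz : z ∈ Y ×ˢ Y
  · have hv := vol_ball ((z.2.1 - z.1.1)⁻¹ • (z.2.2 - z.1.2)) (2 * σ / η)
    rw [Fintype.card_fin] at hv
    rw [indicator_of_mem hz, ← hv]
    refine measure_mono ?_
    rintro b ⟨⟨-, h1⟩, ⟨-, h2⟩, h3⟩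
    have η0' : (0 : ℝ) < η := η0
    have h1' : ‖z.1.2 - q b - z.1.1 • b‖ ≤ σ := h1
    have h2' : ‖z.2.2 - q b - z.2.1 • b‖ ≤ σ := h2
    have h3' : (η : ℝ) ≤ |z.2.1 - z.1.1| := h3
    have ne : z.2.1 - z.1.1 ≠ 0 := abs_pos.1 (η0'.trans_le h3')
    have e : (z.2.1 - z.1.1) • (b - (z.2.1 - z.1.1)⁻¹ • (z.2.2 - z.1.2)) =
        (z.1.2 - q b - z.1.1 • b) - (z.2.2 - q b - z.2.1 • b) := by
      rw [smul_sub, smul_smul, mul_inv_cancel₀ ne, one_smul, sub_smul]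
      abel
    have h5 := norm_sub_le (z.1.2 - q b - z.1.1 • b) (z.2.2 - q b - z.2.1 • b)
    rw [← e, norm_smul, Real.norm_eq_abs] at h5
    rw [mem_closedBall, dist_eq_norm]
    push_cast
    rw [le_div_iff₀ η0']
    have := mul_le_mul_of_nonneg_right h3' (norm_nonneg (b - (z.2.1 - z.1.1)⁻¹ • (z.2.2 - z.1.2)))
    linarith only [h1', h2', h5, this]
  · rw [eq_empty_of_forall_notMem (s := _ ⁻¹' _), measure_empty]
    · exact zero_le
    · exact fun b hb => hz ⟨hb.1.1, hb.2.1.1⟩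

theorem Fam.W (F : Fam Y 𝔅 q δ lam R D J) (hl : 2 ≤ l) {η : ℝ≥0} (η0 : 0 < η) (η1 : η ≤ 1)
    (hη : 12 * 2 ^ l * η ≤ lam) {θ : ℝ≥0} (hθ : δ ≤ θ) (hθ' : θ ≤ 2 * D) :
    volume.prod volume {z ∈ Meet 𝔅 q δ R | ‖z.2 - z.1‖ ≤ θ} * (lam ^ 2 * η ^ (2 * l)) ≤
      384 * R ^ 2 * 72 ^ l * (J + 1) * (56 * R * D) ^ l * volume Y * θ := by
  obtain ⟨c, hc⟩ : ∃ c : ℝ≥0∞, c = 384 * R ^ 2 * 72 ^ l * (J + 1) := ⟨_, rfl⟩
  have mf := (measurable_measure_prodMk_left (ν := (volume : Measure (Vc l)))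
    (F.mMeet' θ)).mul_const ((lam : ℝ≥0∞) ^ 2 * η ^ l)
  have h1 : volume.prod volume {z ∈ Meet 𝔅 q δ R | ‖z.2 - z.1‖ ≤ θ} * (lam ^ 2 * η ^ l) =
      ∫⁻ b in 𝔅, volume (Prod.mk b ⁻¹' {z ∈ Meet 𝔅 q δ R | ‖z.2 - z.1‖ ≤ θ}) *
        (lam ^ 2 * η ^ l) := by
    rw [Measure.prod_apply (F.mMeet' θ),
      ← lintegral_mul_const _ (measurable_measure_prodMk_left (F.mMeet' θ)),
      ← lintegral_indicator F.mB]
    refine lintegral_congr fun b => ?_
    by_cases hb : b ∈ 𝔅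
    · rw [indicator_of_mem hb]
    · rw [indicator_of_notMem hb, eq_empty_of_forall_notMem (s := _ ⁻¹' _), measure_empty,
        zero_mul]
      exact fun b' hb' => hb hb'.1.1
  have h2 := cs_one volume mf F.mB
  rw [← h1] at h2
  have h3 : ∫⁻ b in 𝔅, (volume (Prod.mk b ⁻¹' {z ∈ Meet 𝔅 q δ R | ‖z.2 - z.1‖ ≤ θ}) *
      (lam ^ 2 * η ^ l)) ^ 2 ≤
        c ^ 2 * ((2 * (2 * (7 * R * θ) / η : ℝ≥0) : ℝ≥0∞) ^ l * volume Y ^ 2) := by
    refine (setLIntegral_le_lintegral _ _).trans ((lintegral_mono fun b => Hair_pair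
      (F.mY.inter (Hair_meas' (q b) b (7 * R * θ : ℝ≥0))) fun a =>
        hc ▸ F.full (by omega) η0 η1 hη b hθ a).trans ?_)
    rw [lintegral_const_mul' _ _ (by rw [hc]; finiteness)]
    gcongr
    exact F.pairs η0 _
  have h4 : ((2 * D) ^ l * (2 * (2 * (7 * R * θ) / η)) ^ l * (η ^ l) ^ 2 : ℝ≥0) ≤
      ((56 * R * D) ^ l * θ) ^ 2 := by
    have e : 2 * (2 * (7 * R * θ) / η) * η = 28 * R * θ := by field_simp; ring
    have R1 := F.R1
    have D1 := F.D1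
    obtain ⟨n, rfl⟩ : ∃ n, l = n + 2 := ⟨l - 2, by omega⟩
    calc _ = (2 * D) ^ (n + 2) * (2 * (2 * (7 * R * θ) / η) * η) ^ (n + 2) * η ^ (n + 2) := by
          ring
      _ = (56 * R * D) ^ (n + 2) * (θ ^ n * 1 * η ^ (n + 2)) * θ ^ 2 := by
          rw [e, show (56 * R * D : ℝ≥0) = 2 * D * (28 * R) by ring, mul_pow (2 * D),
            mul_pow (28 * R)]
          ring
      _ ≤ (56 * R * D) ^ (n + 2) * ((56 * R * D) ^ n * (56 * R * D) ^ 2 * 1) * θ ^ 2 := by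
          have h5 : 2 * D ≤ 56 * R * D := by
            gcongr
            calc (2 : ℝ≥0) ≤ 56 * 1 := by norm_num
              _ ≤ _ := by gcongr
          gcongr
          · exact hθ'.trans h5
          · exact one_le_pow₀ (le_trans (by calc (1 : ℝ≥0) ≤ 2 * 1 := by norm_num
              _ ≤ _ := by gcongr) h5)
          · exact pow_le_one₀ zero_le η1
      _ = _ := by ring
  have h5 : ((2 * D) ^ l * (2 * (2 * (7 * R * θ) / η : ℝ≥0)) ^ l * (η ^ l) ^ 2 : ℝ≥0∞) ≤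
      ((56 * R * D) ^ l * θ) ^ 2 := by exact_mod_cast h4
  rw [← hc]
  refine (ENNReal.pow_le_pow_left_iff two_ne_zero).1 ?_
  calc _ = (volume.prod volume {z ∈ Meet 𝔅 q δ R | ‖z.2 - z.1‖ ≤ θ} * (lam ^ 2 * η ^ l)) ^ 2 *
        (η ^ l) ^ 2 := by ring
    _ ≤ (2 * D) ^ l * (c ^ 2 * ((2 * (2 * (7 * R * θ) / η : ℝ≥0) : ℝ≥0∞) ^ l * volume Y ^ 2)) *
        (η ^ l) ^ 2 := by
        gcongr
        exact h2.trans (mul_le_mul' F.vol h3)
    _ = c ^ 2 * volume Y ^ 2 *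
        ((2 * D) ^ l * (2 * (2 * (7 * R * θ) / η : ℝ≥0)) ^ l * (η ^ l) ^ 2) := by ring
    _ ≤ c ^ 2 * volume Y ^ 2 * ((56 * R * D) ^ l * θ) ^ 2 := by gcongr
    _ = _ := by ring

theorem Fam.main (F : Fam Y 𝔅 q δ lam R D J) (hl : 2 ≤ l) {η : ℝ≥0} (η0 : 0 < η) (η1 : η ≤ 1)
    (hη : 12 * 2 ^ l * η ≤ lam) :
    volume 𝔅 ^ 2 * (lam ^ 4 * η ^ (2 * l) * δ ^ (l - 1)) ≤
      3072 * R ^ 3 * 144 ^ l * (56 * R * D) ^ l * ((J + 1) * volume Y) ^ 2 := by
  have lam0 : 0 < lam := lt_of_lt_of_le (by positivity) hη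
  obtain ⟨I, hI⟩ : ∃ I : Set (Vc l × (ℝ × Vc l)),
      I = {z | z.1 ∈ 𝔅 ∧ z.2 ∈ Y ∧ z.2 ∈ tube (q z.1) z.1 δ} := ⟨_, rfl⟩
  have mI : MeasurableSet I := by
    rw [hI]
    exact (measurable_fst F.mB).inter ((measurable_snd F.mY).inter
      (Hair_meas (F.mq.comp measurable_fst) measurable_fst measurable_snd δ))
  have cs := cs_inc volume volume mI F.mY (fun z hz => by rw [hI] at hz; exact hz.2.1)
  have l1 : lam * δ ^ l * volume 𝔅 ≤ ∫⁻ b, volume (Prod.mk b ⁻¹' I) := by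
    rw [← lintegral_indicator_const F.mB]
    refine lintegral_mono fun b => indicator_apply_le' (fun hb => (F.rich b hb).trans
      (measure_mono fun p hp => ?_)) (fun _ => zero_le)
    rw [hI]
    exact ⟨hb, hp⟩
  have hsub : ∀ b', Prod.mk b' ⁻¹' I ⊆ Y ∩ tube (q b') b' δ := fun b' p hp => by
    rw [hI] at hp
    exact hp.2
  obtain ⟨κ, hκ⟩ : ∃ κ : ℝ≥0∞, κ = lam ^ 2 * η ^ (2 * l) := ⟨_, rfl⟩
  have κ0 : κ ≠ 0 := by
    rw [hκ]
    exact mul_ne_zero (pow_ne_zero _ (by exact_mod_cast lam0.ne'))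
      (pow_ne_zero _ (by exact_mod_cast η0.ne'))
  have κ1 : κ ≠ ∞ := by rw [hκ]; finiteness
  obtain ⟨c, hc⟩ : ∃ c : ℝ≥0∞,
      c = 384 * R ^ 2 * 72 ^ l * (J + 1) * (56 * R * D) ^ l * volume Y := ⟨_, rfl⟩
  have mg : Measurable fun z : Vc l × Vc l => volume (Prod.mk z.1 ⁻¹' I ∩ Prod.mk z.2 ⁻¹' I) :=
    measurable_measure_prodMk_left (s := {w : (Vc l × Vc l) × (ℝ × Vc l) |
      (w.1.1, w.2) ∈ I ∧ (w.1.2, w.2) ∈ I})
      (((measurable_fst.fst.prodMk measurable_snd) mI).inter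
        ((measurable_fst.snd.prodMk measurable_snd) mI))
  have l2 : ∫⁻ b, ∫⁻ b', volume (Prod.mk b ⁻¹' I ∩ Prod.mk b' ⁻¹' I) ≤
      2 * (4 * R * (2 * δ : ℝ≥0∞) ^ l) * (c * δ * κ⁻¹) * (J + 1) := by
    rw [← lintegral_prod _ mg.aemeasurable]
    refine lint_dyadic _ F.mMeet (ρ := fun z => ‖z.2 - z.1‖) (by fun_prop) F.δ0 (fun z hz => ?_)
      (fun z hz => F.dist' hz.1 hz.2.1) (fun z _ => F.le_G _ _ (inter_subset_left.trans (hsub _)))
      (fun z _ => F.le_G' (q z.1) z.1 (q z.2) z.2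
        (inter_subset_inter ((hsub _).trans inter_subset_right)
          ((hsub _).trans inter_subset_right))) fun i _ => ?_
    · rw [eq_empty_of_forall_notMem (s := _ ∩ _), measure_empty]
      rintro p ⟨p1, p2⟩
      rw [hI] at p1 p2
      have R1 : (1 : ℝ) ≤ R := F.R1
      have δ0 : (0 : ℝ) < δ := F.δ0
      refine hz ⟨p1.1, p2.1, p.1, by linarith only [R1, F, p1, F.hY p p1.2.1], ?_⟩
      have e : q z.2 - q z.1 + p.1 • (z.2 - z.1) =
          (p.2 - q z.1 - p.1 • z.1) - (p.2 - q z.2 - p.1 • z.2) := by rw [smul_sub]; abel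
      have h1 : ‖p.2 - q z.1 - p.1 • z.1‖ ≤ δ := p1.2.2
      have h2 : ‖p.2 - q z.2 - p.1 • z.2‖ ≤ δ := p2.2.2
      rw [e]
      linarith only [δ0, h1, h2, norm_sub_le (p.2 - q z.1 - p.1 • z.1) (p.2 - q z.2 - p.1 • z.2)]
    · have h1 := F.W hl η0 η1 hη (θ := min (2 ^ i * δ) (2 * D))
        (le_min (le_mul_of_one_le_left zero_le (one_le_pow₀ one_le_two))
          (F.δ1.trans (F.D1.trans (le_mul_of_one_le_left zero_le one_le_two)))) (min_le_right _ _)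
      rw [← hκ, ← hc] at h1
      calc _ ≤ volume.prod volume {z ∈ Meet 𝔅 q δ R | ‖z.2 - z.1‖ ≤ (min (2 ^ i * δ) (2 * D) : ℝ≥0)}
            * κ * κ⁻¹ := by
            rw [mul_assoc, ENNReal.mul_inv_cancel κ0 κ1, mul_one]
            refine measure_mono fun z hz => ⟨hz.1, ?_⟩
            push_cast
            exact le_min hz.2 (F.dist hz.1.1 hz.1.2.1)
        _ ≤ c * (2 ^ i * δ : ℝ≥0) * κ⁻¹ := by
            exact mul_le_mul' (h1.trans (mul_le_mul' le_rfl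
              (ENNReal.coe_le_coe.2 (min_le_left _ _)))) le_rfl
        _ = _ := by push_cast; ring
  have l3 := (pow_le_pow_left' l1 2).trans (cs.trans (mul_le_mul' le_rfl l2))
  obtain ⟨n, rfl⟩ : ∃ n, l = n + 1 := ⟨l - 1, by omega⟩
  have δne : (δ : ℝ≥0∞) ^ (n + 2) ≠ 0 := pow_ne_zero _ (by exact_mod_cast F.δ0.ne')
  refine (ENNReal.mul_le_mul_iff_left δne (by finiteness)).1 ?_
  have e3 : (144 : ℝ≥0∞) ^ (n + 1) = 2 ^ (n + 1) * 72 ^ (n + 1) := by rw [← mul_pow]; norm_num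
  calc _ = (lam * δ ^ (n + 1) * volume 𝔅) ^ 2 * κ := by rw [hκ, Nat.add_sub_cancel]; ring
    _ ≤ volume Y * (2 * (4 * R * (2 * δ : ℝ≥0∞) ^ (n + 1)) * (c * δ * κ⁻¹) * (J + 1)) * κ := by
        gcongr
    _ = volume Y * (8 * R * (2 * δ : ℝ≥0∞) ^ (n + 1)) * c * δ * (J + 1) * (κ * κ⁻¹) := by ring
    _ = _ := by
        rw [ENNReal.mul_inv_cancel κ0 κ1, hc, e3, mul_pow 2 (δ : ℝ≥0∞)]
        ring

theorem kak_one {l : ℕ} (hl : 2 ≤ l) : ∃ K, Kak 1 l K := by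
  refine ⟨l + 2, fun R D R1 D1 => ?_⟩
  obtain ⟨C, hC⟩ : ∃ C : ℝ≥0,
    C = (12 * 2 ^ l) ^ (2 * l) * (3072 * R ^ 3 * 144 ^ l * (56 * R * D) ^ l) := ⟨_, rfl⟩
  refine ⟨C + 1, fun δ lam d J Y δ0 δ1 lam0 lam1 hd hJ mY hY => ?_⟩
  obtain ⟨f, hf⟩ := exists_surjective_nat (Fin l → ℚ)
  have e1 := (volume_preserving_funUnique (Fin 1) (Vc l)).symm _
  have e2 := ((volume_preserving_funUnique (Fin 1) ℝ).symm _).prod
    (MeasurePreserving.id (volume : Measure (Vc l)))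
  obtain ⟨Y', hY'⟩ : ∃ Y' : Set (ℝ × Vc l),
    Y' = Prod.map (MeasurableEquiv.funUnique (Fin 1) ℝ).symm id ⁻¹' Y := ⟨_, rfl⟩
  obtain ⟨𝔅, h𝔅⟩ : ∃ 𝔅 : Set (Vc l),
    𝔅 = (MeasurableEquiv.funUnique (Fin 1) (Vc l)).symm ⁻¹' Bad Y δ lam D := ⟨_, rfl⟩
  have mB := measurableSet_Bad mY δ lam D
  have mB' : MeasurableSet 𝔅 := h𝔅 ▸ e1.measurable mB
  have mY' : MeasurableSet Y' := hY' ▸ e2.measurable mY
  have v1 : volume 𝔅 = volume (Bad Y δ lam D) := h𝔅 ▸ e1.measure_preimage mB.nullMeasurableSet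
  have v2 : volume Y' = volume Y := hY' ▸ e2.measure_preimage mY.nullMeasurableSet
  have ex : ∀ b, ∃ n : ℕ, b ∈ 𝔅 →
      (lam * δ ^ l : ℝ≥0∞) ≤ volume (Y' ∩ tube (fun i => f n i) b δ) := by
    intro b
    by_cases hb : b ∈ 𝔅
    · rw [h𝔅] at hb
      obtain ⟨-, r, hr⟩ := hb
      obtain ⟨n, rfl⟩ := hf r
      refine ⟨n, fun _ => hr.trans (le_of_eq ?_)⟩
      have mP : MeasurableSet (plate ((MeasurableEquiv.funUnique (Fin 1) (Vc l)).symm b)
          (fun i => f n i) δ) :=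
        measurableSet_le (f := fun p : Vc 1 × Vc l => ‖p.2 - _ - ∑ i, p.1 i • _‖) (by fun_prop)
          measurable_const
      refine (e2.measure_preimage (mY.inter mP).nullMeasurableSet).symm.trans ?_
      rw [hY', preimage_inter]
      congr 2
      ext p
      simp [plate, tube]
    · exact ⟨0, fun h => absurd h hb⟩
  classical
  have mq : Measurable fun b => (fun (n : ℕ) (_ : Vc l) (i : Fin l) => (f n i : ℝ))
      (Nat.find (ex b)) b :=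
    Measurable.find (f := fun (n : ℕ) (_ : Vc l) (i : Fin l) => (f n i : ℝ))
      (fun _ => measurable_const) (fun n => by
      have h1 : Measurable fun b : Vc l => volume (Y' ∩ tube (fun i => f n i) b δ) :=
        measurable_measure_prodMk_left (s := {w : Vc l × (ℝ × Vc l) |
          w.2 ∈ Y' ∧ w.2 ∈ tube (fun i => f n i) w.1 δ}) ((measurable_snd mY').inter
            (Hair_meas measurable_const measurable_fst measurable_snd δ))
      exact mB'.imp (measurableSet_le measurable_const h1)) ex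
  have F : Fam Y' 𝔅 _ δ lam R D J :=
    ⟨mY', mB', mq, δ0, δ1, R1, D1, hJ, fun p hp => by
      rw [hY'] at hp
      simpa using (norm_le_pi_norm _ 0).trans (hY _ hp), fun b hb => by
      rw [h𝔅] at hb
      simpa using (norm_le_pi_norm _ 0).trans hb.1, fun b hb => Nat.find_spec (ex b) hb⟩
  obtain ⟨η, hη⟩ : ∃ η : ℝ≥0, η = lam / (12 * 2 ^ l) := ⟨_, rfl⟩
  have e3 : 12 * 2 ^ l * η = lam := by rw [hη]; field_simp
  have h1 := F.main hl (η := η) (by rw [hη]; positivity) (by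
    rw [hη, div_le_one (by positivity)]
    exact lam1.trans (one_le_mul_of_one_le_of_one_le (by norm_num) (one_le_pow₀ one_le_two))) e3.le
  rw [v1, v2] at h1
  have e4 : (lam : ℝ≥0∞) = 12 * 2 ^ l * η := by rw [← e3]; push_cast; rfl
  have hd' : (d : ℝ≥0∞) ^ 2 ≤ δ ^ (l - 1) := by exact_mod_cast hd
  refine (ENNReal.pow_le_pow_left_iff two_ne_zero).1 ?_
  calc _ = volume (Bad Y δ lam D) ^ 2 * (lam ^ 4 * lam ^ (2 * l) * d ^ 2) := by ring
    _ ≤ volume (Bad Y δ lam D) ^ 2 * (lam ^ 4 * (12 * 2 ^ l * η) ^ (2 * l) * δ ^ (l - 1)) := by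
        rw [← e4]
        gcongr
    _ = (12 * 2 ^ l) ^ (2 * l) *
        (volume (Bad Y δ lam D) ^ 2 * (lam ^ 4 * η ^ (2 * l) * δ ^ (l - 1))) := by
        rw [mul_pow (12 * 2 ^ l : ℝ≥0∞)]
        ring
    _ ≤ (12 * 2 ^ l) ^ (2 * l) *
        (3072 * R ^ 3 * 144 ^ l * (56 * R * D) ^ l * ((J + 1) * volume Y) ^ 2) := by gcongr
    _ = C * ((J + 1) * volume Y) ^ 2 := by rw [hC]; push_cast; ring
    _ ≤ (C + 1 : ℝ≥0) ^ 2 * ((J + 1) ^ (l + 2) * volume Y) ^ 2 := by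
        gcongr
        · exact_mod_cast (show C ≤ (C + 1) ^ 2 by linarith only [C.2, sq_nonneg (↑C + (1 : ℝ)), mul_nonneg_of_nonpos_of_nonpos (Mathlib.Tactic.Linarith.sub_nonpos_of_le (NNReal.coe_nonneg C)) (Mathlib.Tactic.Linarith.sub_nonpos_of_le (NNReal.coe_nonneg C))])
        · exact le_self_pow (by simp) (by omega)
    _ = _ := by ring

end Pool.Agent.Work.MP_2a522c_an
end

-- merged part: Pool.Agent.Work.MP_2a522c_an.Abs1
section
/-! # The truncation argument: the deterministic part -/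

open MeasureTheory Metric Set Filter Topology
open scoped ENNReal NNReal Real

namespace Pool.Agent.Work.MP_2a522c_an

variable {k l : ℕ}

/-- The point of the plate with direction `B` through `x` over `y`. -/
def Abs.sh (B : Fin k → Vc l) (x : Vc l) (y : Vc k) : Vc k × Vc l := (y, x + ∑ i, y i • B i)

theorem Abs.sh_meas2 (B : Fin k → Vc l) : Measurable fun z : Vc k × Vc l => Abs.sh B z.2 z.1 := by
  refine Continuous.measurable ?_
  unfold Abs.sh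
  fun_prop

theorem Abs.sh_meas (B : Fin k → Vc l) (x : Vc l) : Measurable (Abs.sh B x) := by
  refine Continuous.measurable ?_
  unfold Abs.sh
  fun_prop

theorem Abs.shear (B : Fin k → Vc l) {g : Vc k × Vc l → ℝ≥0∞} (hg : Measurable g) :
    ∫⁻ p, g p = ∫⁻ x, ∫⁻ y, g (Abs.sh B x y) := by
  rw [Measure.volume_eq_prod, lintegral_prod _ hg.aemeasurable,
    ← lintegral_lintegral_swap (f := fun y x => g (Abs.sh B x y))
      (hg.comp (Abs.sh_meas2 B)).aemeasurable]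
  refine lintegral_congr fun y => ?_
  exact (lintegral_add_right_eq_self (fun z => g (y, z)) _).symm

theorem Abs.good_slice {Y : Set (Vc k × Vc l)} (hY : MeasurableSet Y) {δ lam D : ℝ≥0}
    (hδ : 0 < δ) {B : Fin k → Vc l} (hB : ‖B‖ ≤ D) (hbad : B ∉ Bad Y δ lam D) (x : Vc l) :
    ∃ x', ‖x' - x‖ ≤ 2 * δ ∧ volume (Abs.sh B x' ⁻¹' Y) ≤ lam := by
  have hδ' : (0 : ℝ) < δ := hδ
  choose q hq using fun i => exists_rat_near (x i) hδ'
  have hqx : ‖(fun i => (q i : ℝ) : Vc l) - x‖ ≤ δ := by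
    refine (pi_norm_le_iff_of_nonneg hδ'.le).2 fun i => ?_
    rw [Pi.sub_apply, Real.norm_eq_abs, abs_sub_comm]
    exact (hq i).le
  by_contra hcon
  push Not at hcon
  refine hbad ⟨hB, q, ?_⟩
  set Q : Vc l := fun i => (q i : ℝ) with hQ
  have hP : MeasurableSet (plate B Q δ) := by
    refine IsClosed.measurableSet ?_
    unfold plate
    exact isClosed_le (by fun_prop) continuous_const
  have hS := hY.inter hP
  rw [← lintegral_indicator_one hS, Abs.shear B (measurable_one.indicator hS)]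
  calc (lam * δ ^ l : ℝ≥0∞) ≤ lam * volume (closedBall Q δ) := by
        rw [vol_ball, Fintype.card_fin]
        gcongr
        exact le_mul_of_one_le_left' one_le_two
    _ = ∫⁻ x', (closedBall Q δ).indicator (fun _ => (lam : ℝ≥0∞)) x' := by
        rw [lintegral_indicator_const measurableSet_closedBall]
    _ ≤ _ := by
        refine lintegral_mono fun x' => ?_
        by_cases hx' : x' ∈ closedBall Q δ
        · rw [indicator_of_mem hx']
          rw [mem_closedBall, dist_eq_norm] at hx'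
          have h2 : ‖x' - x‖ ≤ 2 * δ := by
            calc ‖x' - x‖ = ‖(x' - Q) + (Q - x)‖ := by congr 1; abel
              _ ≤ ‖x' - Q‖ + ‖Q - x‖ := norm_add_le _ _
              _ ≤ 2 * δ := by linarith only [hqx, hx']
          refine (hcon x' h2).le.trans ?_
          rw [← lintegral_indicator_one (Abs.sh_meas B x' hY)]
          refine lintegral_mono fun y => ?_
          by_cases hy : y ∈ Abs.sh B x' ⁻¹' Y
          · have : Abs.sh B x' y ∈ Y ∩ plate B Q δ := by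
              refine ⟨hy, ?_⟩
              simp only [plate, Abs.sh, mem_setOf_eq]
              have e : x' + ∑ i, y i • B i - Q - ∑ i, y i • B i = x' - Q := by abel
              rw [e]
              exact hx'
            rw [indicator_of_mem hy, indicator_of_mem this]
            rfl
          · rw [indicator_of_notMem hy]
            exact zero_le
        · rw [indicator_of_notMem hx']
          exact zero_le

/-- The average of `F j` along the plate through `x`. -/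
noncomputable def Abs.av (F : ℕ → Vc k × Vc l → ℝ) (R : ℝ) (B : Fin k → Vc l) (j : ℕ)
    (x : Vc l) : ℝ≥0∞ :=
  ∫⁻ y in closedBall 0 R, ENNReal.ofReal (F j (Abs.sh B x y))

theorem Abs.sh_add (B : Fin k → Vc l) (x x' : Vc l) (y : Vc k) :
    Abs.sh B x y = Abs.sh B x' y + (0, x - x') := by
  simp only [Abs.sh, Prod.mk_add_mk, add_zero, Prod.mk.injEq, true_and]
  abel

theorem Abs.exists_low {F : ℕ → Vc k × Vc l → ℝ} (hF : ∀ j, Measurable (F j)) {R c0 : ℝ}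
    (hR : 0 ≤ R) (hc0 : 0 < c0)
    (hlow : ∀ j, ENNReal.ofReal c0 ≤ ∫⁻ u in closedBall 0 R, ENNReal.ofReal (F j u))
    (B : Fin k → Vc l) : ∃ c1 : ℝ, 0 < c1 ∧ ∀ j, ∃ x, ENNReal.ofReal c1 ≤ Abs.av F R B j x := by
  set R' : ℝ := R + k * (R * ‖B‖)
  obtain ⟨c1, hc1, hlt⟩ := ENNReal.exists_nnreal_pos_mul_lt
    (a := volume (closedBall (0 : Vc l) R')) (b := ENNReal.ofReal c0)
    measure_closedBall_lt_top.ne (by simpa using hc0)
  refine ⟨c1, hc1, fun j => ?_⟩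
  by_contra hcon
  push Not at hcon
  refine absurd ((hlow j).trans ?_) (not_le.2 hlt)
  rw [← lintegral_indicator measurableSet_closedBall,
    Abs.shear B ((hF j).ennreal_ofReal.indicator measurableSet_closedBall),
    ← lintegral_indicator_const measurableSet_closedBall]
  refine lintegral_mono fun x => ?_
  by_cases hx : x ∈ closedBall (0 : Vc l) R'
  · rw [indicator_of_mem hx]
    have := (hcon x).le
    rw [ENNReal.ofReal_coe_nnreal] at this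
    refine le_trans ?_ this
    rw [Abs.av, ← lintegral_indicator measurableSet_closedBall]
    refine lintegral_mono fun y => ?_
    by_cases hy : Abs.sh B x y ∈ closedBall (0 : Vc k × Vc l) R
    · have : y ∈ closedBall (0 : Vc k) R := by
        rw [mem_closedBall_zero_iff] at hy ⊢
        exact (norm_fst_le (Abs.sh B x y)).trans hy
      rw [indicator_of_mem hy, indicator_of_mem this]
    · rw [indicator_of_notMem hy]
      exact zero_le
  · rw [indicator_of_notMem hx]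
    refine le_of_eq ?_
    rw [← lintegral_zero (μ := (volume : Measure (Vc k)))]
    refine lintegral_congr fun y => indicator_of_notMem (fun hy => hx ?_) _
    rw [mem_closedBall_zero_iff] at hy ⊢
    have h1 : ‖y‖ ≤ R := (norm_fst_le (Abs.sh B x y)).trans hy
    have h2 : ‖x + ∑ i, y i • B i‖ ≤ R := (norm_snd_le (Abs.sh B x y)).trans hy
    have h3 : ‖∑ i, y i • B i‖ ≤ k * (R * ‖B‖) := by
      refine (norm_sum_le _ _).trans ?_
      calc ∑ i, ‖y i • B i‖ ≤ ∑ _i : Fin k, R * ‖B‖ := by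
            refine Finset.sum_le_sum fun i _ => ?_
            rw [norm_smul]
            exact mul_le_mul ((norm_le_pi_norm y i).trans h1) (norm_le_pi_norm B i)
              (norm_nonneg _) hR
        _ = k * (R * ‖B‖) := by simp
    calc ‖x‖ = ‖(x + ∑ i, y i • B i) - ∑ i, y i • B i‖ := by congr 1; abel
      _ ≤ ‖x + ∑ i, y i • B i‖ + ‖∑ i, y i • B i‖ := norm_sub_le _ _
      _ ≤ R' := add_le_add h2 h3

theorem Abs.av_le {F : ℕ → Vc k × Vc l → ℝ} {R : ℝ} {B : Fin k → Vc l} {j j' : ℕ} {x x' : Vc l}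
    {a M : ℝ} (ha : 0 ≤ a) (hM : 0 ≤ M) {S : Set (Vc k)} (hS : MeasurableSet S)
    (h1 : ∀ y, ‖y‖ ≤ R → y ∉ S → F j (Abs.sh B x y) ≤ F j' (Abs.sh B x' y) + a)
    (h2 : ∀ y ∈ S, F j (Abs.sh B x y) ≤ M) :
    Abs.av F R B j x ≤ Abs.av F R B j' x' +
      ENNReal.ofReal a * volume (closedBall (0 : Vc k) R) + ENNReal.ofReal M * volume S := by
  calc Abs.av F R B j x
      ≤ ∫⁻ y in closedBall 0 R, (ENNReal.ofReal (F j' (Abs.sh B x' y)) + ENNReal.ofReal a +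
          S.indicator (fun _ => ENNReal.ofReal M) y) := by
        refine setLIntegral_mono' measurableSet_closedBall fun y hy => ?_
        by_cases hyS : y ∈ S
        · rw [indicator_of_mem hyS]
          exact (ENNReal.ofReal_le_ofReal (h2 y hyS)).trans le_add_self
        · rw [indicator_of_notMem hyS, add_zero]
          exact (ENNReal.ofReal_le_ofReal (h1 y (mem_closedBall_zero_iff.1 hy) hyS)).trans
            ENNReal.ofReal_add_le
    _ ≤ _ := by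
        rw [lintegral_add_right _ (measurable_const.indicator hS),
          lintegral_add_right _ measurable_const, setLIntegral_const, ← Abs.av]
        gcongr
        refine (setLIntegral_le_lintegral _ _).trans ?_
        rw [lintegral_indicator_const hS]

theorem Abs.det {F : ℕ → Vc k × Vc l → ℝ} {K : Set (Vc k × Vc l)} (hF : ∀ j, Measurable (F j))
    {M ρ C c R c0 : ℝ} (hM : ∀ j u, F j u ≤ M) (hM0 : 0 ≤ M) (hρ : 0 < ρ) (hρ1 : ρ < 1)
    (hC : 0 ≤ C) (hc : 0 < c)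
    (hloc : ∀ j u h, ‖h‖ ≤ c * (ρ ^ 2 / 2) ^ j → F j (u + h) ≤ F j u + C * ρ ^ j)
    (hR : 0 ≤ R) (hc0 : 0 < c0)
    (hlow : ∀ j, ENNReal.ofReal c0 ≤ ∫⁻ u in closedBall 0 R, ENNReal.ofReal (F j u))
    (hout : ∀ u ∉ K, Tendsto (fun j => F j u) atTop (𝓝 0)) (B : Fin k → Vc l)
    (hB : ∀ᶠ j in atTop, ∀ x, ∃ x', ‖x' - x‖ ≤ c * (ρ ^ 2 / 2) ^ (j + 1) ∧
      volume (Abs.sh B x' ⁻¹' {p | ‖p.1‖ ≤ R ∧ ρ ^ j ≤ |F j p - F (j + 1) p|}) ≤
        ENNReal.ofReal (ρ ^ j)) :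
    (interior {x : Vc l | ∃ p ∈ K, x = p.2 - ∑ i, p.1 i • B i}).Nonempty := by
  obtain ⟨c1, hc1, hx0⟩ := Abs.exists_low hF hR hc0 hlow B
  obtain ⟨V, hV0, hV⟩ : ∃ V : ℝ, 0 ≤ V ∧ volume (closedBall (0 : Vc k) R) = ENNReal.ofReal V :=
    ⟨_, ENNReal.toReal_nonneg, (ENNReal.ofReal_toReal measure_closedBall_lt_top.ne).symm⟩
  have hr0 : 0 < ρ ^ 2 / 2 := by positivity
  have hr1 : ρ ^ 2 / 2 ≤ 1 := by linarith only [hρ, hρ1, mul_pos_of_neg_of_neg (Mathlib.Tactic.Linarith.sub_neg_of_lt hρ) (Mathlib.Tactic.Linarith.sub_neg_of_lt hρ1)]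
  have hloc' : ∀ j x x' y, ‖x - x'‖ ≤ c * (ρ ^ 2 / 2) ^ j →
      F j (Abs.sh B x y) ≤ F j (Abs.sh B x' y) + C * ρ ^ j := by
    intro j x x' y hx
    rw [Abs.sh_add B x x']
    refine hloc j _ _ ?_
    rw [Prod.norm_def, norm_zero]
    exact max_le (by positivity) hx
  set C3 : ℝ := ((2 * C + 1) * V + M) / (1 - ρ) with hC3
  have h1ρ : 0 < 1 - ρ := by linarith only [hρ1]
  have hC30 : 0 ≤ C3 := by positivity
  have hsmall : ∀ᶠ j in atTop, (C * V + C3) * ρ ^ j < c1 / 2 := by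
    have := (tendsto_pow_atTop_nhds_zero_of_lt_one hρ.le hρ1).const_mul (C * V + C3)
    rw [mul_zero] at this
    exact this.eventually (gt_mem_nhds (by positivity))
  obtain ⟨j0, hj0⟩ := eventually_atTop.1 (hB.and hsmall)
  have step : ∀ j, j0 ≤ j → ∀ x, Abs.av F R B j x ≤ Abs.av F R B (j + 1) x +
      ENNReal.ofReal (C3 * (ρ ^ j - ρ ^ (j + 1))) := by
    intro j hj x
    obtain ⟨x', hx', hvol⟩ := (hj0 j hj).1 x
    have hY : MeasurableSet {p : Vc k × Vc l | ‖p.1‖ ≤ R ∧ ρ ^ j ≤ |F j p - F (j + 1) p|} :=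
      MeasurableSet.inter (s₁ := {p : Vc k × Vc l | ‖p.1‖ ≤ R})
        (measurableSet_le measurable_fst.norm measurable_const)
        (measurableSet_le measurable_const ((hF j).sub (hF (j + 1))).abs)
    have hρj : 0 < ρ ^ j := by positivity
    have hle := Abs.av_le (F := F) (R := R) (B := B) (j := j) (j' := j + 1) (x := x) (x' := x)
      (a := (2 * C + 1) * ρ ^ j) (by positivity) hM0 (Abs.sh_meas B x' hY) ?_
      fun y _ => hM _ _
    · refine hle.trans ?_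
      rw [add_assoc]
      gcongr
      rw [hV]
      calc ENNReal.ofReal ((2 * C + 1) * ρ ^ j) * ENNReal.ofReal V + ENNReal.ofReal M * _
          ≤ ENNReal.ofReal ((2 * C + 1) * ρ ^ j) * ENNReal.ofReal V +
            ENNReal.ofReal M * ENNReal.ofReal (ρ ^ j) := by gcongr
        _ = _ := by
          rw [← ENNReal.ofReal_mul (by positivity), ← ENNReal.ofReal_mul hM0,
            ← ENNReal.ofReal_add (by positivity) (by positivity)]
          congr 1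
          rw [hC3]
          field_simp
          ring
    · intro y hy hyS
      have e1 := hloc' j x x' y (by
        rw [norm_sub_rev]
        exact hx'.trans (mul_le_mul_of_nonneg_left
          (pow_le_pow_of_le_one hr0.le hr1 (Nat.le_succ j)) hc.le))
      have e2 := hloc' (j + 1) x' x y hx'
      have e3 : |F j (Abs.sh B x' y) - F (j + 1) (Abs.sh B x' y)| < ρ ^ j := by
        by_contra hcon
        exact hyS ⟨hy, not_lt.1 hcon⟩
      have e4 := (abs_lt.1 e3).2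
      have e5 : C * ρ ^ (j + 1) ≤ C * ρ ^ j :=
        mul_le_mul_of_nonneg_left (pow_le_pow_of_le_one hρ.le hρ1.le (Nat.le_succ j)) hC
      linarith only [e1, e2, e4, e5]
  have chain : ∀ x n, Abs.av F R B j0 x ≤ Abs.av F R B (j0 + n) x +
      ENNReal.ofReal (C3 * (ρ ^ j0 - ρ ^ (j0 + n))) := by
    intro x n
    induction n with
    | zero => simp
    | succ n ih =>
      refine ih.trans ?_
      refine (add_le_add_left (step (j0 + n) (Nat.le_add_right _ _) x) _).trans (le_of_eq ?_)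
      have a1 : ρ ^ (j0 + n + 1) ≤ ρ ^ (j0 + n) :=
        pow_le_pow_of_le_one hρ.le hρ1.le (Nat.le_succ _)
      have a2 : ρ ^ (j0 + n) ≤ ρ ^ j0 :=
        pow_le_pow_of_le_one hρ.le hρ1.le (Nat.le_add_right _ _)
      rw [add_assoc, ← ENNReal.ofReal_add (mul_nonneg hC30 (by linarith only [a1]))
        (mul_nonneg hC30 (by linarith only [a2]))]
      congr 2
      rw [← add_assoc]
      ring
  obtain ⟨x0, hx0⟩ := hx0 j0
  refine ⟨x0, mem_interior.2 ⟨ball x0 (c * (ρ ^ 2 / 2) ^ j0), fun x hx => ?_, isOpen_ball,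
    mem_ball_self (by positivity)⟩⟩
  by_contra hcon
  have hK : ∀ y, Abs.sh B x y ∉ K := fun y hy => hcon ⟨_, hy, by simp [Abs.sh]⟩
  have hlim : Tendsto (fun j => Abs.av F R B j x) atTop (𝓝 0) := by
    have := tendsto_lintegral_of_dominated_convergence
      (μ := (volume : Measure (Vc k)).restrict (closedBall 0 R))
      (F := fun j y => ENNReal.ofReal (F j (Abs.sh B x y))) (f := fun _ => 0)
      (fun _ => ENNReal.ofReal M)
      (fun j => ((hF j).comp (Abs.sh_meas B x)).ennreal_ofReal)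
      (fun j => Eventually.of_forall fun y => ENNReal.ofReal_le_ofReal (hM _ _))
      (by
        rw [setLIntegral_const]
        exact ENNReal.mul_ne_top ENNReal.ofReal_ne_top measure_closedBall_lt_top.ne)
      (Eventually.of_forall fun y => by
        simpa using ENNReal.tendsto_ofReal (hout _ (hK y)))
    simpa [Abs.av] using this
  have hev : ∀ᶠ j in atTop, Abs.av F R B j x < ENNReal.ofReal (c1 / 2) :=
    hlim.eventually (gt_mem_nhds (by simpa using hc1))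
  obtain ⟨j, hj1, hj2⟩ := (hev.and (eventually_ge_atTop j0)).exists
  obtain ⟨n, rfl⟩ := Nat.exists_eq_add_of_le hj2
  have hρj : 0 < ρ ^ j0 := by positivity
  have b1 := Abs.av_le (F := F) (R := R) (B := B) (j := j0) (j' := j0) (x := x0) (x' := x)
    (a := C * ρ ^ j0) (M := 0) (by positivity) le_rfl MeasurableSet.empty
    (fun y _ _ => hloc' j0 x0 x y (by
      rw [norm_sub_rev, ← dist_eq_norm]
      exact (mem_ball.1 hx).le)) (fun y hy => hy.elim)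
  rw [measure_empty, mul_zero, add_zero, hV, ← ENNReal.ofReal_mul (by positivity)] at b1
  have b2 : ENNReal.ofReal c1 ≤ ENNReal.ofReal (c1 / 2) + ENNReal.ofReal (C3 * ρ ^ j0) +
      ENNReal.ofReal (C * ρ ^ j0 * V) := by
    refine hx0.trans (b1.trans ?_)
    gcongr
    refine (chain x n).trans ?_
    gcongr
    exact sub_le_self _ (by positivity)
  rw [← ENNReal.ofReal_add (by positivity) (by positivity),
    ← ENNReal.ofReal_add (by positivity) (by positivity),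
    ENNReal.ofReal_le_ofReal_iff (by positivity)] at b2
  have b3 := (hj0 j0 le_rfl).2
  linarith only [b2, b3]

end Pool.Agent.Work.MP_2a522c_an
end

-- merged part: Pool.Agent.Work.MP_2a522c_an.Abs
section
/-! # The truncation argument -/

open MeasureTheory Metric Set Filter Topology
open scoped ENNReal NNReal Real

namespace Pool.Agent.Work.MP_2a522c_an

theorem Abs.exists_rho {q : ℝ≥0} {N a b : ℕ} (hN : N ≠ 0) (h : q ^ N * 2 ^ a < 1) :
    ∃ ρ ω : ℝ≥0, 0 < ρ ∧ ρ < 1 ∧ 1 / 2 ≤ ρ ^ 2 ∧ 0 < ω ∧ ω ^ N = (ρ ^ 2 / 2) ^ a ∧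
      q < ω * ρ ^ b := by
  have h1 : Tendsto (fun ρ : ℝ≥0 => (ρ ^ 2 / 2) ^ a * (ρ ^ b) ^ N) (𝓝[<] 1)
      (𝓝 ((1 ^ 2 / 2) ^ a * (1 ^ b) ^ N)) :=
    (Continuous.tendsto (by fun_prop) 1).mono_left nhdsWithin_le_nhds
  have h2 : Tendsto (fun ρ : ℝ≥0 => ρ ^ 2) (𝓝[<] 1) (𝓝 (1 ^ 2)) :=
    (Continuous.tendsto (by fun_prop) 1).mono_left nhdsWithin_le_nhds
  have h3 : q ^ N < (1 ^ 2 / 2) ^ a * (1 ^ b) ^ N := by
    rw [one_pow, one_pow, one_pow, mul_one, div_pow, one_pow, lt_div_iff₀ (by positivity)]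
    exact h
  have h4 : (1 / 2 : ℝ≥0) < 1 ^ 2 := by
    rw [one_pow]
    exact one_half_lt_one
  haveI : (𝓝[<] (1 : ℝ≥0)).NeBot := nhdsLT_neBot_of_exists_lt ⟨0, one_pos⟩
  obtain ⟨ρ, ⟨e1, e2⟩, e3⟩ := (((h1.eventually (lt_mem_nhds h3)).and
    (h2.eventually (lt_mem_nhds h4))).and self_mem_nhdsWithin).exists
  have hρ : 0 < ρ := by
    rcases eq_or_lt_of_le (zero_le : 0 ≤ ρ) with h0 | h0
    · rw [← h0] at e2
      simp at e2
    · exact h0
  have hω := NNReal.rpow_inv_natCast_pow ((ρ ^ 2 / 2) ^ a) hN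
  refine ⟨ρ, _, hρ, e3, e2.le, NNReal.rpow_pos (by positivity), hω, ?_⟩
  refine lt_of_pow_lt_pow_left₀ N zero_le ?_
  rw [mul_pow, hω]
  exact e1

theorem Abs.summable {A θ : ℝ≥0} (hθ : 0 < θ) (hθ1 : θ < 1) (J K : ℕ) :
    Summable fun j : ℕ => A * (((J + 2 * j : ℕ) : ℝ≥0) + 1) ^ K * θ ^ j := by
  rw [← NNReal.summable_coe]
  have hθ' : (0 : ℝ) < θ := hθ
  have h1 := summable_pow_mul_geometric_of_norm_lt_one (R := ℝ) K (r := θ)
    (by rw [Real.norm_of_nonneg hθ'.le]; exact hθ1)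
  have h2 := ((summable_nat_add_iff 1).2 h1).mul_left (A * (J + 2) ^ K / θ : ℝ)
  refine Summable.of_nonneg_of_le (fun _ => NNReal.coe_nonneg _) (fun j => ?_) h2
  push_cast
  calc (A : ℝ) * (J + 2 * j + 1) ^ K * θ ^ j ≤ A * ((J + 2) * (j + 1)) ^ K * θ ^ j := by
        gcongr
        have : (0 : ℝ) ≤ J * j := by positivity
        linarith only [hθ, hθ1, this]
    _ = _ := by
        rw [mul_pow]
        field_simp
        ring

theorem Abs.ae_good {k l K₀ : ℕ} (hK : Kak k l K₀) {Y : ℕ → Set (Vc k × Vc l)}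
    (hY : ∀ j, MeasurableSet (Y j)) {R D q ρ ω c C : ℝ≥0} (hR : 1 ≤ R) (hD : 1 ≤ D)
    (hYR : ∀ j, ∀ p ∈ Y j, ‖p.1‖ ≤ R) (hq : 0 < q) (hρ : 0 < ρ) (hρ1 : ρ < 1)
    (hρ2 : 1 / 2 ≤ ρ ^ 2) (hω : 0 < ω) (hωN : ω ^ 2 ^ k = (ρ ^ 2 / 2) ^ (l - 1))
    (hqω : q < ω * ρ ^ (K₀ + 2)) (hc : 0 < c) (hc1 : c ≤ 1)
    (hvol : ∀ j, volume (Y j) * ((ρ ^ j) ^ 2 : ℝ≥0) ≤ (C * q ^ j : ℝ≥0)) :
    ∀ᵐ B : Fin k → Vc l, ∀ᶠ j in atTop,
      B ∉ Bad (Y j) (c / 2 * (ρ ^ 2 / 2) ^ (j + 1)) (ρ ^ j) D := by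
  obtain ⟨C1, hC1⟩ := hK R D hR hD
  obtain ⟨J0, hJ0⟩ := pow_unbounded_of_one_lt (16 * D / c) (one_lt_two (α := ℝ≥0))
  rw [div_lt_iff₀ hc] at hJ0
  have hr : 1 / 4 ≤ ρ ^ 2 / 2 := by
    rw [← NNReal.coe_le_coe] at hρ2 ⊢
    push_cast at hρ2 ⊢
    linarith only [hρ2]
  have hr1 : ρ ^ 2 / 2 ≤ 1 :=
    (NNReal.half_le_self _).trans (pow_le_one₀ zero_le hρ1.le)
  have hc8 : c / 8 ≤ 1 := (div_le_self zero_le (by norm_num)).trans hc1
  have hδ : ∀ j, c / 8 * (ρ ^ 2 / 2) ^ j ≤ c / 2 * (ρ ^ 2 / 2) ^ (j + 1) := by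
    intro j
    calc c / 8 * (ρ ^ 2 / 2) ^ j = c / 2 * ((ρ ^ 2 / 2) ^ j * (1 / 4)) := by
          field_simp
          norm_num
      _ ≤ _ := by
          rw [pow_succ (ρ ^ 2 / 2)]
          gcongr
  set θ : ℝ≥0 := q / (ω * ρ ^ (K₀ + 2)) with hθ
  have hθ0 : 0 < θ := by positivity
  have hθ1 : θ < 1 := (div_lt_one (by positivity)).2 hqω
  refine ae_eventually_notMem (ne_top_of_le_ne_top (ENNReal.tsum_coe_ne_top_iff_summable.2
    (Abs.summable (A := C1 * C / (c / 8) ^ (l - 1)) hθ0 hθ1 J0 K₀))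
    (ENNReal.tsum_le_tsum fun j => ?_))
  have h1 := hC1 (c / 2 * (ρ ^ 2 / 2) ^ (j + 1)) (ρ ^ j) ((c / 8) ^ (l - 1) * ω ^ j) (J0 + 2 * j)
    (Y j) (by positivity)
    (mul_le_one₀ ((NNReal.half_le_self _).trans hc1) zero_le (pow_le_one₀ zero_le hr1))
    (by positivity) (pow_le_one₀ zero_le hρ1.le) ?_ ?_ (hY j) (hYR j)
  · have hpos : 0 < (c / 8) ^ (l - 1) * ω ^ j * (ρ ^ j) ^ K₀ * (ρ ^ j) ^ 2 := by positivity
    rw [← ENNReal.mul_le_mul_iff_left (ENNReal.coe_ne_zero.2 hpos.ne') ENNReal.coe_ne_top]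
    calc volume (Bad (Y j) (c / 2 * (ρ ^ 2 / 2) ^ (j + 1)) (ρ ^ j) D) *
          (((c / 8) ^ (l - 1) * ω ^ j * (ρ ^ j) ^ K₀ * (ρ ^ j) ^ 2 : ℝ≥0) : ℝ≥0∞)
        = volume (Bad (Y j) (c / 2 * (ρ ^ 2 / 2) ^ (j + 1)) (ρ ^ j) D) *
          ((((c / 8) ^ (l - 1) * ω ^ j : ℝ≥0) : ℝ≥0∞) * ((ρ ^ j : ℝ≥0) : ℝ≥0∞) ^ K₀) *
            ((ρ ^ j) ^ 2 : ℝ≥0) := by
          rw [ENNReal.coe_mul, ENNReal.coe_mul _ ((ρ ^ j) ^ K₀), ENNReal.coe_pow (ρ ^ j) K₀,
            ← mul_assoc]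
      _ ≤ C1 * (((J0 + 2 * j : ℕ) : ℝ≥0∞) + 1) ^ K₀ * volume (Y j) * ((ρ ^ j) ^ 2 : ℝ≥0) := by
          gcongr
      _ ≤ C1 * (((J0 + 2 * j : ℕ) : ℝ≥0∞) + 1) ^ K₀ * (C * q ^ j : ℝ≥0) := by
          rw [mul_assoc]
          gcongr
          exact hvol j
      _ = _ := by
          rw [← ENNReal.coe_natCast, ← ENNReal.coe_one, ← ENNReal.coe_add, ← ENNReal.coe_pow,
            ← ENNReal.coe_mul, ← ENNReal.coe_mul, ← ENNReal.coe_mul, hθ]
          congr 1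
          rw [div_pow q, mul_pow ω]
          field_simp
          ring
  · calc ((c / 8) ^ (l - 1) * ω ^ j) ^ 2 ^ k
        = ((c / 8) ^ 2 ^ k * (ρ ^ 2 / 2) ^ j) ^ (l - 1) := by
          rw [mul_pow, mul_pow, pow_right_comm ω, hωN, pow_right_comm (c / 8),
            pow_right_comm (ρ ^ 2 / 2)]
      _ ≤ (c / 8 * (ρ ^ 2 / 2) ^ j) ^ (l - 1) := by
          gcongr
          exact pow_le_of_le_one zero_le hc8 (by positivity)
      _ ≤ _ := pow_le_pow_left₀ zero_le (hδ j) _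
  · calc 2 * D = 16 * D / 8 := by
          field_simp
          norm_num
      _ ≤ 2 ^ J0 * c / 8 := by gcongr
      _ = 2 ^ (J0 + 2 * j) * (c / 8 * (1 / 4) ^ j) := by
          rw [pow_add, pow_mul, one_div, inv_pow]
          field_simp
          norm_num
      _ ≤ 2 ^ (J0 + 2 * j) * (c / 8 * (ρ ^ 2 / 2) ^ j) := by gcongr
      _ ≤ _ := mul_le_mul_of_nonneg_left (hδ j) zero_le

theorem abs_main {k l K₀ : ℕ} (hK : Kak k l K₀) {F : ℕ → Vc k × Vc l → ℝ}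
    {K : Set (Vc k × Vc l)} {q : ℝ} (h : Reg F K q) (hq : 0 < q)
    (hq' : q ^ 2 ^ k * 2 ^ (l - 1) < 1) :
    ∀ᵐ B : Fin k → Vc l,
      (interior {x : Vc l | ∃ p ∈ K, x = p.2 - ∑ i, p.1 i • B i}).Nonempty := by
  lift q to ℝ≥0 using hq.le
  obtain ⟨ρ, ω, hρ, hρ1, hρ2, hω, hωN, hqω⟩ := Abs.exists_rho (q := q) (N := 2 ^ k) (a := l - 1)
    (b := K₀ + 2) (by positivity) (by exact_mod_cast hq')
  obtain ⟨M, hM⟩ := h.bdd
  obtain ⟨C, c', hc', hloc⟩ := h.loc ρ hρ hρ1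
  obtain ⟨C2, hsq⟩ := h.sq
  obtain ⟨R', c0, hc0, hlow⟩ := h.low
  have hρ' : (0 : ℝ) < ρ := hρ
  let c : ℝ≥0 := ⟨min c' 1, (lt_min hc' one_pos).le⟩
  have hc : 0 < c := lt_min hc' one_pos
  have hc1 : c ≤ 1 := min_le_right c' 1
  have hcc : (c : ℝ) ≤ c' := min_le_left c' 1
  let R : ℝ≥0 := ⟨max R' 1, zero_le_one.trans (le_max_right _ _)⟩
  have hR : 1 ≤ R := le_max_right R' 1
  have hRR : R' ≤ R := le_max_left R' 1
  let Y : ℕ → Set (Vc k × Vc l) := fun j =>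
    {p | ‖p.1‖ ≤ R ∧ (ρ : ℝ) ^ j ≤ |F j p - F (j + 1) p|}
  have hY : ∀ j, MeasurableSet (Y j) := fun j =>
    MeasurableSet.inter (s₁ := {p : Vc k × Vc l | ‖p.1‖ ≤ R})
      (measurableSet_le measurable_fst.norm measurable_const)
      (measurableSet_le measurable_const ((h.meas j).sub (h.meas (j + 1))).abs)
  have hvol : ∀ j, volume (Y j) * ((ρ ^ j) ^ 2 : ℝ≥0) ≤ (C2 * q ^ j : ℝ≥0) := by
    intro j
    have := hsq j ((ρ : ℝ) ^ j) (by positivity)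
    rw [← NNReal.coe_pow, ← NNReal.coe_pow, ← NNReal.coe_pow, ENNReal.ofReal_coe_nnreal,
      ENNReal.ofReal_coe_nnreal, ← ENNReal.coe_mul] at this
    refine le_trans ?_ this
    gcongr
    exact fun p hp => hp.2
  have hall : ∀ᵐ B : Fin k → Vc l, ∀ D : ℕ, ∀ᶠ j in atTop,
      B ∉ Bad (Y j) (c / 2 * (ρ ^ 2 / 2) ^ (j + 1)) (ρ ^ j) (D + 1) :=
    ae_all_iff.2 fun D => Abs.ae_good hK hY hR le_add_self (fun _ _ hp => hp.1) hq hρ hρ1 hρ2 hω
      hωN hqω hc hc1 hvol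
  filter_upwards [hall] with B hB
  obtain ⟨D, hD⟩ := exists_nat_ge ‖B‖
  refine Abs.det h.meas (M := M) (ρ := ρ) (C := max C 0) (c := c) (R := R) (fun j u => (hM j u).2)
    ((hM 0 0).1.trans (hM 0 0).2) hρ hρ1 (le_max_right _ _) hc (fun j u v hv => ?_) R.2 hc0
    (fun j => (hlow j).trans (lintegral_mono_set (closedBall_subset_closedBall hRR))) h.out B ?_
  · refine (hloc j u v (hv.trans ?_)).trans ?_
    · gcongr
    · gcongr
      exact le_max_left _ _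
  · filter_upwards [hB D] with j hj x
    obtain ⟨x', h1, h2⟩ := Abs.good_slice (hY j) (by positivity)
      (hD.trans (by push_cast; linarith only [hρ, hρ1])) hj x
    refine ⟨x', h1.trans (le_of_eq ?_), h2.trans (le_of_eq ?_)⟩
    · push_cast
      ring
    · rw [← NNReal.coe_pow, ENNReal.ofReal_coe_nnreal]

end Pool.Agent.Work.MP_2a522c_an
end
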