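import Mathlib

-- merged part: Pool.Agent.Work.MP_2a522c_an.Defs
section
/-! # Interior of projections: working definitions -/

open MeasureTheory Metric Set Filter Topology
open scoped ENNReal NNReal Real

namespace Pool.Agent.Work.MP_2a522c_an

/-- Coordinate space with the sup norm. -/
abbrev Vc (l : ℕ) := Fin l → ℝ

/-- The `δ`-neighbourhood (in the second factor) of the graph of `y ↦ q + B y`. -/
def plate {k l : ℕ} (B : Fin k → Vc l) (q : Vc l) (δ : ℝ) : Set (Vc k × Vc l) :=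
  {p | ‖p.2 - q - ∑ i, p.1 i • B i‖ ≤ δ}

/-- The directions in which some thick plate is rich in `Y`. -/
def Bad {k l : ℕ} (Y : Set (Vc k × Vc l)) (δ lam D : ℝ≥0) : Set (Fin k → Vc l) :=
  {B | ‖B‖ ≤ D ∧ ∃ q : Fin l → ℚ,
    (lam * δ ^ l : ℝ≥0∞) ≤ volume (Y ∩ plate B (fun i => q i) δ)}

/-- The Kakeya-type estimate for `k`-plates in `ℝ^(k+l)`, with loss `δ ^ ((l-1)/2^k)`. -/
def Kak (k l K : ℕ) : Prop :=
  ∀ R D : ℝ≥0, 1 ≤ R → 1 ≤ D → ∃ C : ℝ≥0, ∀ (δ lam d : ℝ≥0) (J : ℕ) (Y : Set (Vc k × Vc l)),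
    0 < δ → δ ≤ 1 → 0 < lam → lam ≤ 1 → d ^ 2 ^ k ≤ δ ^ (l - 1) → 2 * D ≤ 2 ^ J * δ →
    MeasurableSet Y → (∀ p ∈ Y, ‖p.1‖ ≤ R) →
    volume (Bad Y δ lam D) * (d * lam ^ K) ≤ C * (J + 1) ^ K * volume Y

/-- Regularity data: bounded approximations `F j` at scale `2⁻ʲ` of a density living on `K`. -/
structure Reg {X : Type*} [NormedAddCommGroup X] [MeasureSpace X] (F : ℕ → X → ℝ) (K : Set X)
    (q : ℝ) : Prop where
  meas : ∀ j, Measurable (F j)
  bdd : ∃ M : ℝ, ∀ j u, 0 ≤ F j u ∧ F j u ≤ M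
  loc : ∀ ρ : ℝ, 0 < ρ → ρ < 1 → ∃ C c : ℝ, 0 < c ∧
    ∀ j u h, ‖h‖ ≤ c * (ρ ^ 2 / 2) ^ j → F j (u + h) ≤ F j u + C * ρ ^ j
  sq : ∃ C : ℝ≥0, ∀ (j : ℕ) (t : ℝ), 0 < t →
    volume {u | t ≤ |F j u - F (j + 1) u|} * ENNReal.ofReal (t ^ 2) ≤ C * ENNReal.ofReal (q ^ j)
  low : ∃ R c : ℝ, 0 < c ∧ ∀ j, ENNReal.ofReal c ≤ ∫⁻ u in closedBall 0 R, ENNReal.ofReal (F j u)
  out : ∀ u ∉ K, Tendsto (fun j => F j u) atTop (𝓝 0)

/-- The Frostman condition. -/
def Frost {n : ℕ} (μ : Measure (Vc n)) (s : ℝ) : Prop :=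
  ∃ C : ℝ≥0, ∀ (x : Vc n) (r : ℝ), 0 < r → μ (closedBall x r) ≤ C * ENNReal.ofReal (r ^ s)

/-- The linear map with rows `A i`. -/
def mv {ι : Type*} {n : ℕ} (A : ι → Vc n) (x : Vc n) : ι → ℝ := fun i => ∑ j, A i j * x j

/-- The Gaussian kernel on the line. -/
noncomputable def gk (v t : ℝ) : ℝ := Real.exp (-π * t ^ 2 / v) / √v

/-- The product Gaussian kernel. -/
noncomputable def Gk {ι : Type*} [Fintype ι] (v : ℝ) (w : ι → ℝ) : ℝ := ∏ i, gk v (w i)

/-- The projected measure smoothed at scale `2⁻ʲ`. -/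
noncomputable def sm {ι : Type*} [Fintype ι] {n : ℕ} (μ : Measure (Vc n)) (A : ι → Vc n) (j : ℕ)
    (u : ι → ℝ) : ℝ := ∫ x, Gk ((4 : ℝ) ^ j)⁻¹ (u - mv A x) ∂μ

/-- Open cells of a dyadic net. -/
def cell {n : ℕ} (c : ℕ × (Fin n → ℤ)) : Set (Vc n) :=
  ball (fun i => (c.2 i : ℝ) / 2 ^ c.1) (2 / 2 ^ c.1)

/-- A net content. -/
noncomputable def cont {n : ℕ} (s : ℝ) (A : Set (Vc n)) : ℝ≥0∞ :=
  ⨅ (U : Set (ℕ × (Fin n → ℤ))) (_ : A ⊆ ⋃ c ∈ U, cell c),
    ∑' c : U, ENNReal.ofReal (((2 : ℝ) ^ c.1.1)⁻¹ ^ s)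

end Pool.Agent.Work.MP_2a522c_an
end

-- merged part: Pool.Agent.Work.MP_2a522c_an.Basic
section
/-! # Elementary measure estimates -/

open MeasureTheory Metric Set Filter Topology
open scoped ENNReal NNReal Real

namespace Pool.Agent.Work.MP_2a522c_an

theorem vol_ball {ι : Type*} [Fintype ι] (a : ι → ℝ) (r : ℝ≥0) :
    volume (closedBall a r) = (2 * r : ℝ≥0∞) ^ Fintype.card ι := by
  rw [Real.volume_pi_closedBall a (NNReal.coe_nonneg r), ENNReal.ofReal_pow (by positivity),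
    ENNReal.ofReal_mul zero_le_two, ENNReal.ofReal_coe_nnreal, ENNReal.ofReal_ofNat]

theorem measurableSet_Bad {k l : ℕ} {Y : Set (Vc k × Vc l)} (hY : MeasurableSet Y)
    (δ lam D : ℝ≥0) : MeasurableSet (Bad Y δ lam D) := by
  have h1 : ∀ q : Vc l, Measurable fun B : Fin k → Vc l => volume (Y ∩ plate B q δ) := by
    intro q
    have h2 : MeasurableSet {x : (Fin k → Vc l) × (Vc k × Vc l) |
        ‖x.2.2 - q - ∑ i, x.2.1 i • x.1 i‖ ≤ δ} :=
      (isClosed_le (by fun_prop) continuous_const).measurableSet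
    exact measurable_measure_prodMk_left (ν := volume) ((measurable_snd hY).inter h2)
  refine (measurableSet_le measurable_norm measurable_const).inter ?_
  change MeasurableSet {B : Fin k → Vc l | ∃ q : Fin l → ℚ,
    (lam * δ ^ l : ℝ≥0∞) ≤ volume (Y ∩ plate B (fun i => q i) δ)}
  rw [ofPred_exists]
  exact MeasurableSet.iUnion fun q => measurableSet_le measurable_const (h1 _)

theorem Basic_cs {Θ : Type*} [MeasurableSpace Θ] (ν : Measure Θ) {f : Θ → ℝ≥0∞}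
    (hf : Measurable f) : (∫⁻ b, f b ∂ν) ^ 2 ≤ ν univ * ∫⁻ b, f b ^ 2 ∂ν := by
  have h := ENNReal.lintegral_mul_le_Lp_mul_Lq ν Real.HolderConjugate.two_two
    (f := fun _ => 1) (g := f) aemeasurable_const hf.aemeasurable
  simp only [Pi.mul_apply, one_mul, one_pow, lintegral_const, ENNReal.rpow_two] at h
  refine (pow_le_pow_left' h 2).trans (le_of_eq ?_)
  have e : ∀ x : ℝ≥0∞, (x ^ (1 / 2 : ℝ)) ^ 2 = x := fun x => by
    rw [← ENNReal.rpow_two, ← ENNReal.rpow_mul]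
    norm_num
  rw [mul_pow, e, e]

theorem cs_inc {Θ Ω : Type*} [MeasurableSpace Θ] [MeasurableSpace Ω] (ν : Measure Θ)
    (μ : Measure Ω) [SFinite ν] [SFinite μ] {I : Set (Θ × Ω)} (hI : MeasurableSet I) {U : Set Ω}
    (hU : MeasurableSet U) (h : ∀ p ∈ I, p.2 ∈ U) :
    (∫⁻ b, μ (Prod.mk b ⁻¹' I) ∂ν) ^ 2 ≤
      μ U * ∫⁻ b, ∫⁻ b', μ (Prod.mk b ⁻¹' I ∩ Prod.mk b' ⁻¹' I) ∂ν ∂ν := by
  have hn : Measurable fun w => ν ((fun b => (b, w)) ⁻¹' I) := measurable_measure_prodMk_right hI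
  have key : ∀ (m : Measure Ω) [SFinite m],
      ∫⁻ b, m (Prod.mk b ⁻¹' I) ∂ν = ∫⁻ w, ν ((fun b => (b, w)) ⁻¹' I) ∂m := fun m _ => by
    rw [← Measure.prod_apply hI, Measure.prod_apply_symm hI]
  have h1 : ∫⁻ w, ν ((fun b => (b, w)) ⁻¹' I) ∂μ = ∫⁻ w in U, ν ((fun b => (b, w)) ⁻¹' I) ∂μ := by
    refine (setLIntegral_eq_of_support_subset fun w hw => ?_).symm
    obtain ⟨b, hb⟩ := nonempty_of_measure_ne_zero hw
    exact h _ hb
  have h2 : ∫⁻ w, ν ((fun b => (b, w)) ⁻¹' I) ^ 2 ∂μ =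
      ∫⁻ b, ∫⁻ b', μ (Prod.mk b ⁻¹' I ∩ Prod.mk b' ⁻¹' I) ∂ν ∂ν := by
    have h3 := key (μ.withDensity fun w => ν ((fun b => (b, w)) ⁻¹' I))
    rw [lintegral_withDensity_eq_lintegral_mul μ hn hn] at h3
    simp only [pow_two]
    refine h3.symm.trans (lintegral_congr fun b => ?_)
    rw [withDensity_apply _ (measurable_prodMk_left hI), ← key]
    refine lintegral_congr fun b' => ?_
    rw [Measure.restrict_apply (measurable_prodMk_left hI), inter_comm]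
  rw [key, h1, ← h2]
  exact (Basic_cs (μ.restrict U) hn).trans (by
    rw [Measure.restrict_apply_univ]
    exact mul_le_mul_right (setLIntegral_le_lintegral _ _) _)

theorem cs_one {Θ : Type*} [MeasurableSpace Θ] (ν : Measure Θ) {f : Θ → ℝ≥0∞}
    (hf : Measurable f) {S : Set Θ} (hS : MeasurableSet S) :
    (∫⁻ b in S, f b ∂ν) ^ 2 ≤ ν S * ∫⁻ b in S, f b ^ 2 ∂ν := by
  have h := Basic_cs (ν.restrict S) hf
  rwa [Measure.restrict_apply_univ] at h

theorem lint_dyadic {Θ : Type*} [MeasurableSpace Θ] (ν : Measure Θ) {S : Set Θ}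
    (hS : MeasurableSet S) {ρ : Θ → ℝ} (hρ : Measurable ρ) {g : Θ → ℝ≥0∞} {δ : ℝ≥0}
    (hδ : 0 < δ) {A G : ℝ≥0∞} {J : ℕ} (h0 : ∀ x ∉ S, g x = 0)
    (h1 : ∀ x ∈ S, ρ x ≤ 2 ^ J * δ) (h2 : ∀ x ∈ S, g x ≤ G)
    (h3 : ∀ x ∈ S, g x * ENNReal.ofReal (ρ x) ≤ G * δ)
    (h4 : ∀ i ≤ J, ν {x ∈ S | ρ x ≤ 2 ^ i * δ} ≤ A * 2 ^ i) :
    ∫⁻ x, g x ∂ν ≤ 2 * G * A * (J + 1) := by
  have hm : ∀ i : ℕ, MeasurableSet {x ∈ S | ρ x ≤ 2 ^ i * δ} := fun i =>
    hS.inter (measurableSet_le hρ measurable_const)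
  have hpt : ∀ x, g x ≤ ∑ i ∈ Finset.range (J + 1),
      {x ∈ S | ρ x ≤ 2 ^ i * δ}.indicator (fun _ => 2 * G * (2 ^ i)⁻¹) x := by
    intro x
    by_cases hx : x ∈ S
    · have hex : ∃ i : ℕ, ρ x ≤ 2 ^ i * δ := ⟨J, h1 x hx⟩
      have hle : Nat.find hex ≤ J := Nat.find_min' hex (h1 x hx)
      refine le_trans ?_ (Finset.single_le_sum (f := fun i : ℕ =>
        {x ∈ S | ρ x ≤ 2 ^ i * δ}.indicator (fun _ => 2 * G * (2 ^ i)⁻¹) x)
        (fun _ _ => zero_le) (Finset.mem_range.2 (Nat.lt_succ_of_le hle)))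
      rw [indicator_of_mem (show x ∈ {x ∈ S | ρ x ≤ 2 ^ Nat.find hex * δ} from
        ⟨hx, Nat.find_spec hex⟩)]
      rcases hi : Nat.find hex with _ | i
      · rw [pow_zero, inv_one, mul_one, two_mul]
        exact (h2 x hx).trans le_self_add
      · have h5 : (2 : ℝ) ^ i * δ < ρ x := not_le.1 (Nat.find_min hex (by omega))
        have h6 : (2 ^ i * δ : ℝ≥0∞) ≤ ENNReal.ofReal (ρ x) := by
          refine le_of_eq_of_le ?_ (ENNReal.ofReal_le_ofReal h5.le)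
          rw [ENNReal.ofReal_mul (by positivity), ENNReal.ofReal_pow zero_le_two,
            ENNReal.ofReal_coe_nnreal, ENNReal.ofReal_ofNat]
        have h7 : g x * 2 ^ i * δ ≤ G * δ := by
          rw [mul_assoc]
          exact (mul_le_mul_right h6 _).trans (h3 x hx)
        have h8 : g x * 2 ^ i ≤ G :=
          (ENNReal.mul_le_mul_iff_left (by simpa using hδ.ne') ENNReal.coe_ne_top).1 h7
        have h9 : (2 : ℝ≥0∞) ^ (i + 1) * (2 ^ (i + 1))⁻¹ = 1 :=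
          ENNReal.mul_inv_cancel (by simp) (by simp)
        calc g x = g x * (2 ^ (i + 1) * (2 ^ (i + 1))⁻¹) := by rw [h9, mul_one]
          _ = 2 * (g x * 2 ^ i) * (2 ^ (i + 1))⁻¹ := by ring
          _ ≤ _ := by gcongr
    · rw [h0 x hx]
      exact zero_le
  refine (lintegral_mono hpt).trans ?_
  rw [lintegral_finsetSum _ fun i _ => measurable_const.indicator (hm i)]
  calc _ ≤ ∑ i ∈ Finset.range (J + 1), 2 * G * A := by
        refine Finset.sum_le_sum fun i hi => ?_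
        rw [lintegral_indicator_const (hm i)]
        have h9 : ((2 : ℝ≥0∞) ^ i)⁻¹ * 2 ^ i = 1 := ENNReal.inv_mul_cancel (by simp) (by simp)
        calc _ ≤ 2 * G * (2 ^ i)⁻¹ * (A * 2 ^ i) :=
              mul_le_mul_right (h4 i (Nat.le_of_lt_succ (Finset.mem_range.1 hi))) _
          _ = 2 * G * A * ((2 ^ i)⁻¹ * 2 ^ i) := by ring
          _ = _ := by rw [h9, mul_one]
    _ = _ := by
        rw [Finset.sum_const, Finset.card_range, nsmul_eq_mul, mul_comm]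
        push_cast
        rfl

theorem time_le {U : Type*} [NormedAddCommGroup U] [NormedSpace ℝ U] (c d : U) (ε : ℝ≥0) :
    volume {t : ℝ | ‖c + t • d‖ ≤ ε} * ENNReal.ofReal ‖d‖ ≤ 2 * ε := by
  rcases eq_or_ne d 0 with rfl | hd
  · simp
  have h0 : 0 < ‖d‖ := norm_pos_iff.2 hd
  have h1 : volume {t : ℝ | ‖c + t • d‖ ≤ ε} ≤ ENNReal.ofReal (2 * ε / ‖d‖) := by
    refine (Real.volume_le_diam _).trans (ediam_le fun t ht t' ht' => ?_)
    rw [edist_dist, Real.dist_eq]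
    refine ENNReal.ofReal_le_ofReal ((le_div_iff₀ h0).2 ?_)
    have h2 : ‖(c + t • d) - (c + t' • d)‖ ≤ ε + ε := (norm_sub_le _ _).trans (add_le_add ht ht')
    rw [add_sub_add_left_eq_sub, ← sub_smul, norm_smul, Real.norm_eq_abs] at h2
    linarith
  refine (mul_le_mul_left h1 _).trans (le_of_eq ?_)
  rw [← ENNReal.ofReal_mul (by positivity), div_mul_cancel₀ _ h0.ne',
    ENNReal.ofReal_mul zero_le_two, ENNReal.ofReal_coe_nnreal, ENNReal.ofReal_ofNat]

theorem nbhd_line_le {l : ℕ} (hl : 1 ≤ l) (c : Vc l) (ε σ : ℝ≥0) :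
    volume {c' : Vc l | (∃ s : ℝ, ‖c' - s • c‖ ≤ ε) ∧ ‖c' - c‖ ≤ σ} ≤
      2 * σ * (4 * ε : ℝ≥0∞) ^ (l - 1) := by
  obtain ⟨n, rfl⟩ : ∃ n, l = n + 1 := ⟨l - 1, by omega⟩
  obtain ⟨i, hi⟩ := Finite.exists_max fun j => |c j|
  let T : Set (ℝ × Vc n) := {p | p.1 ∈ closedBall (c i) σ ∧
    p.2 ∈ closedBall (fun j => p.1 * (c (i.succAbove j) / c i)) (2 * ε : ℝ≥0)}
  have hT : MeasurableSet T := by
    refine (IsClosed.inter (isClosed_closedBall.preimage continuous_fst) ?_).measurableSet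
    exact isClosed_le (f := fun p : ℝ × Vc n =>
      dist p.2 fun j => p.1 * (c (i.succAbove j) / c i)) (by fun_prop) continuous_const
  have hsub : {c' : Vc (n + 1) | (∃ s : ℝ, ‖c' - s • c‖ ≤ ε) ∧ ‖c' - c‖ ≤ σ} ⊆
      MeasurableEquiv.piFinSuccAbove (fun _ => ℝ) i ⁻¹' T := by
    rintro c' ⟨⟨s, hs⟩, hσ⟩
    have h1 : ∀ j, |c' j - s * c j| ≤ ε := fun j => (norm_le_pi_norm (c' - s • c) j).trans hs
    refine ⟨(norm_le_pi_norm (c' - c) i).trans hσ, ?_⟩
    refine (dist_pi_le_iff (NNReal.coe_nonneg _)).2 fun j => ?_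
    change |c' (i.succAbove j) - c' i * (c (i.succAbove j) / c i)| ≤ 2 * ε
    have h2 : |c (i.succAbove j) / c i| ≤ 1 := by
      rw [abs_div]
      exact div_le_one_of_le₀ (hi _) (abs_nonneg _)
    have h3 : c i * (c (i.succAbove j) / c i) = c (i.succAbove j) := by
      rcases eq_or_ne (c i) 0 with e | e
      · have h4 := hi (i.succAbove j)
        rw [e, abs_zero, abs_nonpos_iff] at h4
        rw [h4, e, zero_mul]
      · field_simp
    have h4 : c' (i.succAbove j) - c' i * (c (i.succAbove j) / c i) =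
        (c' (i.succAbove j) - s * c (i.succAbove j)) -
          (c' i - s * c i) * (c (i.succAbove j) / c i) := by
      linear_combination (-s) * h3
    rw [h4]
    refine (abs_sub _ _).trans ?_
    rw [abs_mul]
    have h5 := mul_le_mul (h1 i) h2 (abs_nonneg _) ε.2
    have h6 := h1 (i.succAbove j)
    linarith only [h5, h6]
  refine (measure_mono hsub).trans ?_
  rw [(volume_preserving_piFinSuccAbove (fun _ => ℝ) i).measure_preimage hT.nullMeasurableSet,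
    Measure.volume_eq_prod, Measure.prod_apply hT]
  calc _ ≤ ∫⁻ a, (closedBall (c i) (σ : ℝ)).indicator (fun _ => (4 * ε : ℝ≥0∞) ^ n) a := by
        refine lintegral_mono fun a => ?_
        by_cases ha : a ∈ closedBall (c i) (σ : ℝ)
        · rw [indicator_of_mem ha]
          refine (measure_mono (t := closedBall (fun j => a * (c (i.succAbove j) / c i))
            (2 * ε : ℝ≥0)) fun w hw => hw.2).trans (le_of_eq ?_)
          rw [vol_ball, Fintype.card_fin]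
          push_cast
          ring
        · rw [show Prod.mk a ⁻¹' T = ∅ from eq_empty_of_forall_notMem fun w hw => ha hw.1,
            measure_empty]
          exact zero_le
    _ = _ := by
        rw [lintegral_indicator_const measurableSet_closedBall, Real.volume_closedBall,
          ENNReal.ofReal_mul zero_le_two, ENNReal.ofReal_coe_nnreal, ENNReal.ofReal_ofNat,
          mul_comm, Nat.add_sub_cancel]

theorem Basic_pairs {S : Set ℝ} (hS : MeasurableSet S) {lam : ℝ≥0} (h : (lam : ℝ≥0∞) ≤ volume S) :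
    (lam / 2 * lam : ℝ≥0∞) ≤ (volume : Measure ℝ).prod volume
      {s : ℝ × ℝ | s.1 ∈ S ∧ s.2 ∈ S ∧ (lam : ℝ) / 4 ≤ |s.1 - s.2|} := by
  have hT : MeasurableSet {s : ℝ × ℝ | s.1 ∈ S ∧ s.2 ∈ S ∧ (lam : ℝ) / 4 ≤ |s.1 - s.2|} :=
    (measurable_fst hS).inter ((measurable_snd hS).inter
      (measurableSet_le (g := fun s : ℝ × ℝ => |s.1 - s.2|) measurable_const (by fun_prop)))
  rw [Measure.prod_apply hT]
  refine le_trans (mul_le_mul_right (h.trans (measure_mono fun t ht => ?_)) _)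
    (mul_meas_ge_le_lintegral₀ (measurable_measure_prodMk_left hT).aemeasurable _)
  have h1 : S ⊆ Prod.mk t ⁻¹' {s : ℝ × ℝ | s.1 ∈ S ∧ s.2 ∈ S ∧ (lam : ℝ) / 4 ≤ |s.1 - s.2|} ∪
      ball t (lam / 4) := by
    intro u hu
    by_cases e : (lam : ℝ) / 4 ≤ |t - u|
    · exact .inl ⟨ht, hu, e⟩
    · exact .inr (by rw [mem_ball', Real.dist_eq]; exact not_le.1 e)
  have h2 := h.trans ((measure_mono h1).trans (measure_union_le _ _))
  have h3 : volume (ball t ((lam : ℝ) / 4)) = (lam / 2 : ℝ≥0∞) := by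
    rw [Real.volume_ball, show 2 * ((lam : ℝ) / 4) = lam / 2 by ring,
      ENNReal.ofReal_div_of_pos two_pos, ENNReal.ofReal_coe_nnreal, ENNReal.ofReal_ofNat]
  rw [h3] at h2
  nth_rewrite 1 [← ENNReal.add_halves (lam : ℝ≥0∞)] at h2
  exact (ENNReal.add_le_add_iff_right (ENNReal.div_ne_top ENNReal.coe_ne_top two_ne_zero)).1 h2

theorem Basic_two {U : Type*} [NormedAddCommGroup U] [NormedSpace ℝ U] [FiniteDimensional ℝ U]
    [MeasurableSpace U] [BorelSpace U] (μ : Measure U) [μ.IsAddHaarMeasure] {A B : Set U}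
    (hA : MeasurableSet A) (hB : MeasurableSet B) (t t' : ℝ) (h : t' - t ≠ 0) :
    μ.prod μ {p : U × U | p.2 + t • p.1 ∈ A ∧ p.2 + t' • p.1 ∈ B} =
      ENNReal.ofReal |((t' - t) ^ Module.finrank ℝ U)⁻¹| * μ B * μ A := by
  have h1 : MeasurableSet {p : U × U | p.2 + t • p.1 ∈ A ∧ p.2 + t' • p.1 ∈ B} :=
    ((by fun_prop : Measurable fun p : U × U => p.2 + t • p.1) hA).inter
      ((by fun_prop : Measurable fun p : U × U => p.2 + t' • p.1) hB)
  have h2 : MeasurableSet {p : U × U | p.2 ∈ A ∧ p.2 + (t' - t) • p.1 ∈ B} :=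
    (measurable_snd hA).inter
      ((by fun_prop : Measurable fun p : U × U => p.2 + (t' - t) • p.1) hB)
  have h3 : μ.prod μ {p : U × U | p.2 + t • p.1 ∈ A ∧ p.2 + t' • p.1 ∈ B} =
      μ.prod μ {p : U × U | p.2 ∈ A ∧ p.2 + (t' - t) • p.1 ∈ B} := by
    rw [Measure.prod_apply h1, Measure.prod_apply h2]
    refine lintegral_congr fun e => ?_
    rw [← measure_preimage_add_right μ (t • e)
      (Prod.mk e ⁻¹' {p : U × U | p.2 ∈ A ∧ p.2 + (t' - t) • p.1 ∈ B})]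
    congr 1
    ext z
    simp only [mem_preimage, mem_ofPred_eq]
    rw [add_assoc, ← add_smul, add_sub_cancel]
  rw [h3, Measure.prod_apply_symm h2, ← lintegral_indicator_const hA]
  refine lintegral_congr fun z => ?_
  by_cases hz : z ∈ A
  · rw [indicator_of_mem hz, ← measure_preimage_add μ z B, ← μ.addHaar_preimage_smul h]
    congr 1
    ext e
    simp [hz]
  · rw [indicator_of_notMem hz, show (fun e => (e, z)) ⁻¹'
      {p : U × U | p.2 ∈ A ∧ p.2 + (t' - t) • p.1 ∈ B} = ∅ from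
      eq_empty_of_forall_notMem fun e he => hz he.1, measure_empty]

theorem lines_le {U : Type*} [NormedAddCommGroup U] [NormedSpace ℝ U] [FiniteDimensional ℝ U]
    [MeasurableSpace U] [BorelSpace U] (μ : Measure U) [μ.IsAddHaarMeasure] {Y : Set (ℝ × U)}
    (hY : MeasurableSet Y) {lam : ℝ≥0} (hlam : 0 < lam) :
    μ.prod μ {p : U × U | (lam : ℝ≥0∞) ≤ volume {t : ℝ | (t, p.2 + t • p.1) ∈ Y}} *
        (lam : ℝ≥0∞) ^ (Module.finrank ℝ U + 2) ≤
      2 * 4 ^ Module.finrank ℝ U * (volume.prod μ) Y ^ 2 := by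
  let W : Set ((U × U) × (ℝ × ℝ)) := {x | (x.2.1, x.1.2 + x.2.1 • x.1.1) ∈ Y ∧
    (x.2.2, x.1.2 + x.2.2 • x.1.1) ∈ Y ∧ (lam : ℝ) / 4 ≤ |x.2.1 - x.2.2|}
  have hW : MeasurableSet W := by
    refine (Measurable.prodMk (by fun_prop) (by fun_prop) hY).inter
      ((Measurable.prodMk (by fun_prop) (by fun_prop) hY).inter ?_)
    exact measurableSet_le (g := fun x : (U × U) × (ℝ × ℝ) => |x.2.1 - x.2.2|) measurable_const
      (by fun_prop)
  have hY' : Measurable fun t : ℝ => μ (Prod.mk t ⁻¹' Y) := measurable_measure_prodMk_left hY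
  have h1 : (lam / 2 * lam : ℝ≥0∞) *
      μ.prod μ {p : U × U | (lam : ℝ≥0∞) ≤ volume {t : ℝ | (t, p.2 + t • p.1) ∈ Y}} ≤
      ∫⁻ s, μ.prod μ ((fun p => (p, s)) ⁻¹' W) ∂(volume.prod volume) := by
    rw [← Measure.prod_apply_symm hW, Measure.prod_apply hW]
    refine le_trans (mul_le_mul_right (measure_mono fun p hp => ?_) _)
      (mul_meas_ge_le_lintegral₀ (measurable_measure_prodMk_left hW).aemeasurable _)
    exact Basic_pairs (S := {t : ℝ | (t, p.2 + t • p.1) ∈ Y})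
      (Measurable.prodMk measurable_id (by fun_prop) hY) hp
  have h2 : ∀ s : ℝ × ℝ,
      μ.prod μ ((fun p => (p, s)) ⁻¹' W) * (lam : ℝ≥0∞) ^ Module.finrank ℝ U ≤
        4 ^ Module.finrank ℝ U * (μ (Prod.mk s.1 ⁻¹' Y) * μ (Prod.mk s.2 ⁻¹' Y)) := by
    intro s
    by_cases hs : (lam : ℝ) / 4 ≤ |s.1 - s.2|
    · have hl : (0 : ℝ) < lam := hlam
      have hr : 0 < |s.2 - s.1| := by rw [abs_sub_comm]; linarith only [hlam, hs]
      have h3 := Basic_two μ (measurable_prodMk_left (x := s.1) hY)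
        (measurable_prodMk_left (x := s.2) hY) s.1 s.2 (abs_pos.1 hr)
      have h4 : ENNReal.ofReal |((s.2 - s.1) ^ Module.finrank ℝ U)⁻¹| *
          (lam : ℝ≥0∞) ^ Module.finrank ℝ U ≤ 4 ^ Module.finrank ℝ U := by
        rw [← ENNReal.ofReal_coe_nnreal, ← ENNReal.ofReal_pow hl.le,
          ← ENNReal.ofReal_mul (abs_nonneg _), ← ENNReal.ofReal_ofNat,
          ← ENNReal.ofReal_pow (by norm_num), abs_inv, abs_pow, ← inv_pow, ← mul_pow]
        refine ENNReal.ofReal_le_ofReal (pow_le_pow_left₀ (by positivity) ?_ _)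
        rw [inv_mul_le_iff₀ hr, abs_sub_comm]
        linarith only [hs]
      calc _ ≤ μ.prod μ {p : U × U | p.2 + s.1 • p.1 ∈ Prod.mk s.1 ⁻¹' Y ∧
            p.2 + s.2 • p.1 ∈ Prod.mk s.2 ⁻¹' Y} * (lam : ℝ≥0∞) ^ Module.finrank ℝ U :=
            mul_le_mul_left (measure_mono fun p hp => And.intro hp.1 hp.2.1) _
        _ = ENNReal.ofReal |((s.2 - s.1) ^ Module.finrank ℝ U)⁻¹| *
            (lam : ℝ≥0∞) ^ Module.finrank ℝ U *
              (μ (Prod.mk s.1 ⁻¹' Y) * μ (Prod.mk s.2 ⁻¹' Y)) := by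
            rw [h3]
            ring
        _ ≤ _ := mul_le_mul_left h4 _
    · rw [show (fun p => (p, s)) ⁻¹' W = ∅ from
        eq_empty_of_forall_notMem fun p hp => hs hp.2.2, measure_empty, zero_mul]
      exact zero_le
  have h3 := lintegral_mono (μ := (volume : Measure ℝ).prod volume) h2
  rw [lintegral_mul_const' _ _ (by simp), lintegral_const_mul' _ _ (by simp),
    lintegral_prod_mul hY'.aemeasurable hY'.aemeasurable, ← Measure.prod_apply hY] at h3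
  have h4 : (2 : ℝ≥0∞) * (lam / 2) = lam := ENNReal.mul_div_cancel (by simp) (by simp)
  calc _ = 2 * ((lam / 2 * lam : ℝ≥0∞) *
        μ.prod μ {p : U × U | (lam : ℝ≥0∞) ≤ volume {t : ℝ | (t, p.2 + t • p.1) ∈ Y}} *
          (lam : ℝ≥0∞) ^ Module.finrank ℝ U) := by
        rw [← mul_assoc, ← mul_assoc, ← mul_assoc, h4]
        ring
    _ ≤ 2 * (4 ^ Module.finrank ℝ U * ((volume.prod μ) Y * (volume.prod μ) Y)) :=
        mul_le_mul_right ((mul_le_mul_left h1 _).trans h3) _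
    _ = _ := by ring

end Pool.Agent.Work.MP_2a522c_an
end

-- merged part: Pool.Agent.Work.MP_2a522c_an.Rec
section
/-! # From `k`-plates to `(k+1)`-plates -/

open MeasureTheory Metric Set Filter Topology
open scoped ENNReal NNReal Real

namespace Pool.Agent.Work.MP_2a522c_an

theorem rec_cons_mp (α : Type) [MeasureSpace α] [SigmaFinite (volume : Measure α)] (k : ℕ) :
    MeasurePreserving (fun p : α × (Fin k → α) => (Fin.cons p.1 p.2 : Fin (k + 1) → α))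
      volume volume := by
  have := (volume_preserving_piFinSuccAbove (fun _ : Fin (k + 1) => α) 0).symm
  have e : (fun p : α × (Fin k → α) => (Fin.cons p.1 p.2 : Fin (k + 1) → α)) =
      (MeasurableEquiv.piFinSuccAbove (fun _ : Fin (k + 1) => α) 0).symm := by
    funext p
    simp [MeasurableEquiv.piFinSuccAbove_symm_apply, Fin.insertNthEquiv, Fin.insertNth_zero']
  rw [e]
  exact this

variable {k l : ℕ}

theorem rec_haar : (volume : Measure (Vc k × Vc l)).IsAddHaarMeasure :=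
  Measure.prod.instIsAddHaarMeasure volume volume

/-- splitting off the first coordinate -/
def recPhi (p : ℝ × (Vc k × Vc l)) : Vc (k + 1) × Vc l := (Fin.cons p.1 p.2.1, p.2.2)

theorem rec_phi_mp : MeasurePreserving (recPhi (k := k) (l := l)) volume volume :=
  ((rec_cons_mp ℝ k).prod (MeasurePreserving.id (volume : Measure (Vc l)))).comp
    (volume_preserving_prodAssoc (α₁ := ℝ) (β₁ := Vc k) (γ₁ := Vc l)).symm

theorem rec_shear_mp (e : Vc k × Vc l) :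
    MeasurePreserving (fun p : ℝ × (Vc k × Vc l) => (p.1, p.2 + p.1 • e)) volume volume :=
  haveI := rec_haar (k := k) (l := l)
  (MeasurePreserving.id (volume : Measure ℝ)).skew_product
    (g := fun (t : ℝ) (z : Vc k × Vc l) => z + t • e) (by fun_prop)
    (Eventually.of_forall fun t => map_add_right_eq_self volume (t • e))

/-- the time spent in `Y` by the line through `z` with direction `e` -/
noncomputable def recT (Y : Set (Vc (k + 1) × Vc l)) (p : (Vc k × Vc l) × (Vc k × Vc l)) : ℝ≥0∞ :=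
  volume {t : ℝ | (t, p.2 + t • p.1) ∈ recPhi ⁻¹' Y}

theorem rec_T_meas {Y : Set (Vc (k + 1) × Vc l)} (hY : MeasurableSet Y) : Measurable (recT Y) := by
  have h1 : Measurable fun x : ((Vc k × Vc l) × (Vc k × Vc l)) × ℝ =>
      (x.2, x.1.2 + x.2 • x.1.1) := by fun_prop
  exact measurable_measure_prodMk_left (ν := volume) (h1 (rec_phi_mp.measurable hY))

theorem rec_plate_meas (B : Fin k → Vc l) (q : Vc l) (δ : ℝ) : MeasurableSet (plate B q δ) :=
  measurableSet_le (by fun_prop) measurable_const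

theorem rec_vol_plate (B : Fin k → Vc l) (q : Vc l) (δ r : ℝ≥0) :
    volume (plate B q δ ∩ {z | ‖z.1‖ ≤ r}) = (2 * r : ℝ≥0∞) ^ k * (2 * δ : ℝ≥0∞) ^ l := by
  have hm : MeasurableSet (plate B q δ ∩ {z | ‖z.1‖ ≤ r}) :=
    (rec_plate_meas B q δ).inter (measurableSet_le (by fun_prop) measurable_const)
  rw [Measure.volume_eq_prod, Measure.prod_apply hm]
  have : ∀ y : Vc k, volume (Prod.mk y ⁻¹' (plate B q δ ∩ {z | ‖z.1‖ ≤ r})) =
      (closedBall (0 : Vc k) r).indicator (fun _ => (2 * δ : ℝ≥0∞) ^ l) y := fun y => by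
    by_cases hy : ‖y‖ ≤ r
    · rw [indicator_of_mem (mem_closedBall_zero_iff.2 hy)]
      have := vol_ball (q + ∑ i, y i • B i) δ
      rw [Fintype.card_fin] at this
      rw [← this]
      congr 1
      ext x
      simp [plate, hy, dist_eq_norm, sub_sub]
    · rw [indicator_of_notMem (by rwa [mem_closedBall_zero_iff])]
      have : Prod.mk y ⁻¹' (plate B q δ ∩ {z | ‖z.1‖ ≤ r}) = ∅ := by
        ext x; simp [hy]
      rw [this, measure_empty]
  simp only [this]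
  rw [lintegral_indicator measurableSet_closedBall, setLIntegral_const, vol_ball, Fintype.card_fin,
    mul_comm]

theorem rec_plate_iff (b₀ : Vc l) (B : Fin k → Vc l) (q : Vc l) (δ : ℝ) (c : Vc k) (t : ℝ)
    (z : Vc k × Vc l) :
    recPhi (t, z + t • (c, b₀ + ∑ i, c i • B i)) ∈ plate (Fin.cons b₀ B : Fin (k + 1) → Vc l) q δ ↔
      z ∈ plate B q δ := by
  have : z.2 + t • (b₀ + ∑ i, c i • B i) - q - (t • b₀ + ∑ i, (z.1 i + t * c i) • B i) =
      z.2 - q - ∑ i, z.1 i • B i := by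
    simp only [add_smul, Finset.sum_add_distrib, smul_add, Finset.smul_sum, mul_smul]
    abel
  simp only [plate, recPhi, mem_ofPred_eq, Fin.sum_univ_succ, Fin.cons_zero, Fin.cons_succ,
    Prod.fst_add, Prod.snd_add, Prod.smul_mk, Pi.add_apply, Pi.smul_apply, smul_eq_mul, this]

theorem rec_bound {Y : Set (Vc (k + 1) × Vc l)} {R : ℝ≥0} (hR : ∀ p ∈ Y, ‖p.1‖ ≤ R) {t : ℝ}
    {z : Vc k × Vc l} (h : recPhi (t, z) ∈ Y) : |t| ≤ R ∧ ‖z.1‖ ≤ R := by
  have h1 := hR _ h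
  refine ⟨(norm_le_pi_norm (recPhi (t, z)).1 0).trans h1, (pi_norm_le_iff_of_nonneg R.2).2 fun i =>
    (norm_le_pi_norm (recPhi (t, z)).1 i.succ).trans h1⟩

/-- the set of starting points of rich lines -/
def recY (Y : Set (Vc (k + 1) × Vc l)) (R lam : ℝ≥0) (e : Vc k × Vc l) : Set (Vc k × Vc l) :=
  {z | ‖z.1‖ ≤ (2 * R : ℝ≥0) ∧ (lam : ℝ≥0∞) ≤ recT Y (e, z)}

theorem rec_Y_meas {Y : Set (Vc (k + 1) × Vc l)} (hY : MeasurableSet Y) (R lam : ℝ≥0)
    (e : Vc k × Vc l) : MeasurableSet (recY Y R lam e) :=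
  (measurableSet_le (f := fun z : Vc k × Vc l => ‖z.1‖) (by fun_prop) measurable_const).inter
    (measurableSet_le (g := fun z => recT Y (e, z)) measurable_const
      ((rec_T_meas hY).comp measurable_prodMk_left))

theorem rec_slice {Y : Set (Vc (k + 1) × Vc l)} (hY : MeasurableSet Y) {R : ℝ≥0}
    (hR : ∀ p ∈ Y, ‖p.1‖ ≤ R) (b₀ : Vc l) (B : Fin k → Vc l) (q : Vc l) (δ lam : ℝ≥0) {c : Vc k}
    (hc : ‖c‖ ≤ 1) :
    volume (Y ∩ plate (Fin.cons b₀ B : Fin (k + 1) → Vc l) q δ) ≤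
      2 * R * volume (recY Y R lam (c, b₀ + ∑ i, c i • B i) ∩ plate B q δ) +
        lam * ((2 * (2 * R : ℝ≥0) : ℝ≥0∞) ^ k * (2 * δ : ℝ≥0∞) ^ l) := by
  set e : Vc k × Vc l := (c, b₀ + ∑ i, c i • B i) with he
  have hm := hY.inter (rec_plate_meas (Fin.cons b₀ B : Fin (k + 1) → Vc l) q δ)
  have mp := rec_phi_mp.comp (rec_shear_mp e)
  have m₁ := (rec_Y_meas hY R lam e).inter (rec_plate_meas B q δ)
  have m₂ : MeasurableSet (plate B q δ ∩ {z | ‖z.1‖ ≤ (2 * R : ℝ≥0)}) :=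
    (rec_plate_meas B q δ).inter (measurableSet_le (by fun_prop) measurable_const)
  rw [← mp.measure_preimage hm.nullMeasurableSet, Measure.volume_eq_prod,
    Measure.prod_apply_symm (mp.measurable hm), ← rec_vol_plate B q δ (2 * R),
    ← setLIntegral_const, ← setLIntegral_const, ← lintegral_indicator m₁, ← lintegral_indicator m₂,
    ← lintegral_add_left (measurable_const.indicator m₁)]
  refine lintegral_mono fun z => ?_
  set S := (fun t : ℝ => (t, z)) ⁻¹' ((recPhi ∘ fun p : ℝ × (Vc k × Vc l) => (p.1, p.2 + p.1 • e)) ⁻¹'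
    (Y ∩ plate (Fin.cons b₀ B : Fin (k + 1) → Vc l) q δ)) with hS
  rcases S.eq_empty_or_nonempty with h | ⟨t, ht, ht'⟩
  · simp only [h, measure_empty, zero_le]
  have hz : z ∈ plate B q δ := (rec_plate_iff b₀ B q δ c t z).1 ht'
  obtain ⟨b₁, b₂⟩ := rec_bound hR ht
  have hz' : ‖z.1‖ ≤ (2 * R : ℝ≥0) := by
    have h1 : z.1 = (z + t • e).1 - t • c := by simp [he]
    have h2 : ‖t • c‖ ≤ R := by
      rw [norm_smul, Real.norm_eq_abs]
      linarith only [b₁, hc, abs_nonneg t, norm_nonneg c, mul_nonneg_of_nonpos_of_nonpos (Mathlib.Tactic.Linarith.sub_nonpos_of_le hc) (Mathlib.Tactic.Linarith.sub_nonpos_of_le (abs_nonneg t))]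
    rw [h1]
    push_cast
    linarith [norm_sub_le (z + t • e).1 (t • c)]
  by_cases hl : (lam : ℝ≥0∞) ≤ recT Y (e, z)
  · rw [indicator_of_mem (show z ∈ recY Y R lam e ∩ plate B q δ from ⟨⟨hz', hl⟩, hz⟩)]
    refine le_add_right ((measure_mono (t := Icc (-(R : ℝ)) R) fun t ht =>
      abs_le.1 (rec_bound hR ht.1).1).trans ?_)
    rw [Real.volume_Icc, sub_neg_eq_add, ← two_mul, ENNReal.ofReal_mul (by norm_num)]
    simp
  · rw [indicator_of_mem (show z ∈ plate B q δ ∩ {z | ‖z.1‖ ≤ (2 * R : ℝ≥0)} from ⟨hz, hz'⟩)]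
    exact le_add_left ((measure_mono fun t ht => ht.1).trans (not_le.1 hl).le)

theorem rec_bad {Y : Set (Vc (k + 1) × Vc l)} (hY : MeasurableSet Y) {R : ℝ≥0} (h1 : 1 ≤ R)
    (hR : ∀ p ∈ Y, ‖p.1‖ ≤ R) {δ lam D : ℝ≥0} {c : Vc k} (hc : ‖c‖ ≤ 1) {b : Vc l}
    {B : Fin k → Vc l} (h : (Fin.cons (b - ∑ i, c i • B i) B : Fin (k + 1) → Vc l) ∈ Bad Y δ lam D) :
    B ∈ Bad (recY Y R (lam / (2 * (4 * R) ^ k * 2 ^ l)) (c, b)) δ (lam / (4 * R)) D := by
  obtain ⟨hD, q, hq⟩ := h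
  refine ⟨(pi_norm_le_iff_of_nonneg D.2).2 fun i => (norm_le_pi_norm
    (Fin.cons (b - ∑ i, c i • B i) B : Fin (k + 1) → Vc l) i.succ).trans hD, q, ?_⟩
  have h2 := hq.trans (rec_slice hY hR _ B _ δ (lam / (2 * (4 * R) ^ k * 2 ^ l)) hc)
  rw [sub_add_cancel] at h2
  generalize volume (recY Y R (lam / (2 * (4 * R) ^ k * 2 ^ l)) (c, b) ∩
    plate B (fun i => (q i : ℝ)) δ) = v at h2 ⊢
  induction v with
  | top => exact le_top
  | coe v =>
    have hR0 : (0 : ℝ) < R := by exact_mod_cast zero_lt_one.trans_le h1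
    have h3 : lam * δ ^ l ≤ 2 * R * v +
        lam / (2 * (4 * R) ^ k * 2 ^ l) * ((2 * (2 * R)) ^ k * (2 * δ) ^ l) := by
      exact_mod_cast h2
    have h4 : (lam : ℝ) * δ ^ l ≤ 2 * R * v +
        lam / (2 * (4 * R) ^ k * 2 ^ l) * ((2 * (2 * R)) ^ k * (2 * δ) ^ l) := by
      exact_mod_cast h3
    have h5 : (lam : ℝ) / (2 * (4 * R) ^ k * 2 ^ l) * ((2 * (2 * R)) ^ k * (2 * δ) ^ l) =
        lam * δ ^ l / 2 := by
      rw [show (2 : ℝ) * (2 * R) = 4 * R by ring, mul_pow (2 : ℝ) δ]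
      field_simp
    have h6 : (lam : ℝ) / (4 * R) * δ ^ l ≤ v := by
      rw [div_mul_eq_mul_div, div_le_iff₀ (by positivity)]
      linarith only [h3, h5]
    have h7 : lam / (4 * R) * δ ^ l ≤ v := by exact_mod_cast h6
    exact_mod_cast h7

theorem rec_fubini {S : Set (Fin (k + 1) → Vc l)} (hS : MeasurableSet S) (c : Vc k) :
    volume S = ∫⁻ b : Vc l, volume {B : Fin k → Vc l |
      (Fin.cons (b - ∑ i, c i • B i) B : Fin (k + 1) → Vc l) ∈ S} := by
  have m₁ : MeasurePreserving (fun p : (Fin k → Vc l) × Vc l => (p.1, p.2 - ∑ i, c i • p.1 i))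
      (volume.prod volume) (volume.prod volume) :=
    (MeasurePreserving.id (volume : Measure (Fin k → Vc l))).skew_product
      (g := fun (B : Fin k → Vc l) (b : Vc l) => b - ∑ i, c i • B i) (by fun_prop)
      (Eventually.of_forall fun B => map_sub_right_eq_self volume _)
  have mp := (rec_cons_mp (Vc l) k).comp (Measure.measurePreserving_swap.comp m₁)
  rw [← mp.measure_preimage hS.nullMeasurableSet, Measure.prod_apply_symm (mp.measurable hS)]
  rfl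

theorem kak_succ {k l K : ℕ} (h : Kak k l K) : ∃ K', Kak (k + 1) l K' := by
  refine ⟨K + (k + l + 2), fun R D hR hD => ?_⟩
  obtain ⟨C, hC⟩ := h (2 * R) D (hR.trans (le_mul_of_one_le_left zero_le one_le_two)) hD
  have hR0 : (0 : ℝ≥0) < R := zero_lt_one.trans_le hR
  set C₀ : ℝ≥0 := (volume (closedBall (0 : Fin (k + 1) → Vc l) D)).toNNReal with hC₀
  set a : ℝ≥0 := 2 * (4 * R) ^ k * 2 ^ l with ha
  have a0 : 0 < a := by positivity
  set C₁ : ℝ≥0 := C * (2 * 4 ^ (k + l)) * ((4 * R) ^ K * a ^ (k + l + 2)) with hC₁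
  refine ⟨C₀ * C₁ + 1, fun δ lam d J Y δ0 δ1 l0 l1 hd hJ hY hb => ?_⟩
  set β := volume (Bad Y δ lam D) with hβ
  have β0 : β ≤ C₀ := by
    rw [hC₀, ENNReal.coe_toNNReal measure_closedBall_lt_top.ne]
    exact measure_mono fun B hB => mem_closedBall_zero_iff.2 hB.1
  set L := (volume : Measure (Vc k × Vc l)).prod (volume : Measure (Vc k × Vc l))
    {p | ((lam / a : ℝ≥0) : ℝ≥0∞) ≤ recT Y p} with hL
  have hL' : L * ((lam / a : ℝ≥0) : ℝ≥0∞) ^ (k + l + 2) ≤ 2 * 4 ^ (k + l) * volume Y ^ 2 := by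
    have := rec_haar (k := k) (l := l)
    have := lines_le (volume : Measure (Vc k × Vc l)) (rec_phi_mp.measurable hY) (div_pos l0 a0)
    have e : ((volume : Measure ℝ).prod (volume : Measure (Vc k × Vc l))) (recPhi ⁻¹' Y) =
      volume Y := rec_phi_mp.measure_preimage hY.nullMeasurableSet
    rw [e] at this
    simp only [Module.finrank_prod, Module.finrank_fin_fun] at this
    exact this
  have hm : MeasurableSet {p | ((lam / a : ℝ≥0) : ℝ≥0∞) ≤ recT Y p} :=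
    measurableSet_le measurable_const (rec_T_meas hY)
  set κ : ℝ≥0∞ := (d ^ 2 : ℝ≥0) * ((lam / (4 * R) : ℝ≥0) : ℝ≥0∞) ^ K with hκ
  have κt : κ ≠ ⊤ := ENNReal.mul_ne_top ENNReal.coe_ne_top (ENNReal.pow_ne_top ENNReal.coe_ne_top)
  have Ct : (C * (J + 1) ^ K : ℝ≥0∞) ≠ ⊤ :=
    ENNReal.mul_ne_top ENNReal.coe_ne_top (ENNReal.pow_ne_top (by simp))
  have key : β * κ ≤ C * (J + 1) ^ K * L := by
    have s₁ : β * κ ≤ ∫⁻ _ in closedBall (0 : Vc k) (1 : ℝ≥0), β * κ := by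
      rw [setLIntegral_const, vol_ball]
      exact le_mul_of_one_le_right zero_le (one_le_pow₀ (by simp))
    refine s₁.trans ?_
    rw [hL, Measure.prod_apply hm, Measure.volume_eq_prod,
      lintegral_prod _ (measurable_measure_prodMk_left hm).aemeasurable,
      ← lintegral_const_mul' _ _ Ct]
    refine (setLIntegral_mono' measurableSet_closedBall fun c hc => ?_).trans
      (setLIntegral_le_lintegral _ _)
    have hc' : ‖c‖ ≤ 1 := by simpa using hc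
    rw [hβ, rec_fubini (measurableSet_Bad hY δ lam D) c, ← lintegral_mul_const' _ _ κt,
      ← lintegral_const_mul' _ _ Ct]
    refine lintegral_mono fun b => ?_
    have := hC δ (lam / (4 * R)) (d ^ 2) J (recY Y R (lam / a) (c, b)) δ0 δ1 (by positivity)
      (div_le_one_of_le₀ (l1.trans (hR.trans (le_mul_of_one_le_left zero_le (by norm_num))))
        zero_le)
      (by rwa [← pow_mul, ← pow_succ']) hJ (rec_Y_meas hY _ _ _) fun p hp => hp.1
    refine le_trans (mul_le_mul_left (measure_mono fun B hB => rec_bad hY hR hb hc' hB) κ)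
      (this.trans (mul_le_mul_right (measure_mono fun z hz => hz.2) _))
  have e₁ : (d : ℝ≥0∞) ^ 2 * (lam : ℝ≥0∞) ^ (K + (k + l + 2)) =
      κ * ((lam / a : ℝ≥0) : ℝ≥0∞) ^ (k + l + 2) *
        (((4 * R) ^ K * a ^ (k + l + 2) : ℝ≥0) : ℝ≥0∞) := by
    rw [hκ]
    norm_cast
    rw [pow_add lam, div_pow, div_pow]
    field_simp
  have s₂ : β * ((d : ℝ≥0∞) ^ 2 * (lam : ℝ≥0∞) ^ (K + (k + l + 2))) ≤
      C₁ * (J + 1) ^ K * volume Y ^ 2 := by
    calc _ = β * κ * ((lam / a : ℝ≥0) : ℝ≥0∞) ^ (k + l + 2) *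
          (((4 * R) ^ K * a ^ (k + l + 2) : ℝ≥0) : ℝ≥0∞) := by rw [e₁]; ring
      _ ≤ C * (J + 1) ^ K * L * ((lam / a : ℝ≥0) : ℝ≥0∞) ^ (k + l + 2) *
          (((4 * R) ^ K * a ^ (k + l + 2) : ℝ≥0) : ℝ≥0∞) := by gcongr
      _ = C * (J + 1) ^ K * (L * ((lam / a : ℝ≥0) : ℝ≥0∞) ^ (k + l + 2)) *
          (((4 * R) ^ K * a ^ (k + l + 2) : ℝ≥0) : ℝ≥0∞) := by ring
      _ ≤ C * (J + 1) ^ K * (2 * 4 ^ (k + l) * volume Y ^ 2) *
          (((4 * R) ^ K * a ^ (k + l + 2) : ℝ≥0) : ℝ≥0∞) := by gcongr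
      _ = _ := by rw [hC₁]; push_cast; ring
  refine (ENNReal.pow_le_pow_left_iff two_ne_zero).1 ?_
  have l1' : (lam : ℝ≥0∞) ^ (K + (k + l + 2)) ≤ 1 := pow_le_one₀ zero_le (by exact_mod_cast l1)
  have j1 : (1 : ℝ≥0∞) ≤ J + 1 := le_add_self
  have c1 : (C₀ * C₁ : ℝ≥0∞) ≤ ((C₀ * C₁ + 1 : ℝ≥0) : ℝ≥0∞) ^ 2 := by
    have : C₀ * C₁ ≤ (C₀ * C₁ + 1) ^ 2 :=
      le_self_add.trans (le_self_pow₀ le_add_self two_ne_zero)
    exact_mod_cast this
  calc _ = β * (β * ((d : ℝ≥0∞) ^ 2 * (lam : ℝ≥0∞) ^ (K + (k + l + 2)))) *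
        (lam : ℝ≥0∞) ^ (K + (k + l + 2)) := by ring
    _ ≤ C₀ * (C₁ * (J + 1) ^ K * volume Y ^ 2) * 1 := by gcongr
    _ = C₀ * C₁ * (J + 1) ^ K * volume Y ^ 2 := by ring
    _ ≤ ((C₀ * C₁ + 1 : ℝ≥0) : ℝ≥0∞) ^ 2 * (J + 1) ^ ((K + (k + l + 2)) * 2) * volume Y ^ 2 := by
        gcongr
        omega
    _ = _ := by rw [pow_mul]; ring

end Pool.Agent.Work.MP_2a522c_an
end

-- merged part: Pool.Agent.Work.MP_2a522c_an.Frost
section
/-! # Frostman's lemma for compact sets -/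

open MeasureTheory Metric Set Filter Topology
open scoped ENNReal NNReal Real

namespace Pool.Agent.Work.MP_2a522c_an

/-- The weight of a cell of level `j`. -/
noncomputable def Frost_w (s : ℝ) (j : ℕ) : ℝ≥0∞ := ENNReal.ofReal (((2 : ℝ) ^ j)⁻¹ ^ s)

/-- The radius of the test balls of level `j`. -/
noncomputable def Frost_r (j : ℕ) : ℝ := ((2 : ℝ) ^ j)⁻¹ / 8

theorem Frost_w_pos (s : ℝ) (j : ℕ) : Frost_w s j ≠ 0 :=
  (ENNReal.ofReal_pos.2 (by positivity)).ne'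

theorem Frost_w_anti {s : ℝ} (hs : 0 < s) {j J : ℕ} (h : j ≤ J) : Frost_w s J ≤ Frost_w s j := by
  refine ENNReal.ofReal_le_ofReal (Real.rpow_le_rpow (by positivity) ?_ hs.le)
  exact inv_anti₀ (by positivity) (pow_le_pow_right₀ one_le_two h)

theorem Frost_cell {n : ℕ} (j : ℕ) (x : Vc n) :
    ball x (8 * Frost_r j) ⊆ cell (j, fun i => ⌊2 ^ j * x i⌋) := by
  refine ball_subset_ball' ?_
  have h : (0 : ℝ) < 2 ^ j := by positivity
  have : dist x (fun i => (⌊2 ^ j * x i⌋ : ℝ) / 2 ^ j) ≤ 1 / 2 ^ j := by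
    refine (dist_pi_le_iff (by positivity)).2 fun i => ?_
    have a := Int.floor_le (2 ^ j * x i)
    have b := Int.lt_floor_add_one (2 ^ j * x i)
    rw [Real.dist_eq, show x i - (⌊2 ^ j * x i⌋ : ℝ) / 2 ^ j =
      (2 ^ j * x i - ⌊2 ^ j * x i⌋) / 2 ^ j by field_simp, abs_div, abs_of_pos h,
      abs_of_nonneg (by linarith)]
    gcongr
    linarith
  have e : 8 * Frost_r j + 1 / 2 ^ j = 2 / 2 ^ j := by
    rw [Frost_r]
    field_simp
    norm_num
  dsimp only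
  linarith only [this, e]

/-- Measures on `K` which satisfy the bounds up to level `J`. -/
def Frost_S {n : ℕ} (K : Set (Vc n)) (s : ℝ) (J : ℕ) : Set (Measure (Vc n)) :=
  {μ | μ Kᶜ = 0 ∧ ∀ j ≤ J, ∀ x, μ (ball x (Frost_r j)) ≤ Frost_w s j}

theorem Frost_mass {n : ℕ} {K : Set (Vc n)} (hK : IsCompact K) (s : ℝ) :
    ∃ N : ℝ≥0∞, N ≠ ⊤ ∧ ∀ J, ∀ μ ∈ Frost_S K s J, μ univ ≤ N := by
  obtain ⟨t, -, ht, hc⟩ := hK.finite_cover_balls (e := Frost_r 0) (by simp [Frost_r])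
  lift t to Finset (Vc n) using ht
  refine ⟨∑ _x ∈ t, Frost_w s 0, ENNReal.sum_ne_top.2 fun _ _ => ENNReal.ofReal_ne_top,
    fun J μ hμ => ?_⟩
  calc μ univ ≤ μ K + μ Kᶜ := measure_univ_le_add_compl K
    _ = μ K := by rw [hμ.1, add_zero]
    _ ≤ μ (⋃ x ∈ t, ball x (Frost_r 0)) := measure_mono hc
    _ ≤ ∑ x ∈ t, μ (ball x (Frost_r 0)) := measure_biUnion_finset_le _ _
    _ ≤ _ := Finset.sum_le_sum fun x _ => hμ.2 0 (Nat.zero_le _) x

/-- If every point of `K` lies in a heavy test ball, the mass dominates the content. -/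
theorem Frost_vitali {n : ℕ} {K : Set (Vc n)} {s : ℝ} (μ : Measure (Vc n))
    (h : ∀ y ∈ K, ∃ j x, y ∈ ball x (Frost_r j) ∧ Frost_w s j ≤ 2 * μ (ball x (Frost_r j))) :
    cont s K ≤ 2 * μ univ := by
  obtain ⟨u, hu, hd, hc⟩ := Vitali.exists_disjoint_subfamily_covering_enlargement_ball
    {a : ℕ × Vc n | Frost_w s a.1 ≤ 2 * μ (ball a.2 (Frost_r a.1))} (fun a => a.2)
    (fun a => Frost_r a.1) 1 (fun a _ => by
      have : ((2 : ℝ) ^ a.1)⁻¹ ≤ 1 := inv_le_one_of_one_le₀ (one_le_pow₀ one_le_two)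
      rw [Frost_r]
      linarith only [this]) 8 (by norm_num)
  let g : ℕ × Vc n → ℕ × (Fin n → ℤ) := fun a => (a.1, fun i => ⌊2 ^ a.1 * a.2 i⌋)
  have hK : K ⊆ ⋃ c ∈ g '' u, cell c := by
    intro y hy
    obtain ⟨j, x, a, b⟩ := h y hy
    obtain ⟨c, hcu, e⟩ := hc (j, x) b
    exact mem_biUnion (mem_image_of_mem g hcu) (Frost_cell c.1 c.2 (e a))
  calc cont s K ≤ ∑' c : g '' u, ENNReal.ofReal (((2 : ℝ) ^ c.1.1)⁻¹ ^ s) :=
      iInf₂_le (g '' u) hK
    _ ≤ ∑' a : u, Frost_w s a.1.1 :=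
      ENNReal.tsum_le_tsum_comp_of_surjective (imageFactorization_surjective (f := g) (s := u)) _
    _ ≤ ∑' a : u, 2 * μ (ball a.1.2 (Frost_r a.1.1)) := ENNReal.tsum_le_tsum fun a => hu a.2
    _ = 2 * ∑' a : u, μ (ball a.1.2 (Frost_r a.1.1)) := ENNReal.tsum_mul_left
    _ ≤ 2 * μ univ := by
      gcongr
      exact (tsum_meas_le_meas_iUnion_of_disjoint μ (fun _ => measurableSet_ball)
        (hd.subtype _ _)).trans (measure_mono (subset_univ _))

theorem Frost_level {n : ℕ} {K : Set (Vc n)} (hK : IsCompact K) {s : ℝ} (hs : 0 < s) (J : ℕ) :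
    ∃ μ ∈ Frost_S K s J, cont s K ≤ 2 * μ univ := by
  obtain ⟨N, hN, hm⟩ := Frost_mass hK s
  have h0 : (0 : Measure (Vc n)) ∈ Frost_S K s J := ⟨rfl, fun _ _ _ => zero_le⟩
  have hε : Frost_w s J / 2 ≠ 0 := (ENNReal.half_pos (Frost_w_pos s J)).ne'
  obtain ⟨μ, hμ, hlt⟩ : ∃ μ ∈ Frost_S K s J,
      ⨆ ν ∈ Frost_S K s J, ν univ < μ univ + Frost_w s J / 2 := by
    by_contra! c
    have := iSup₂_le c
    rw [← ENNReal.biSup_add ⟨0, h0⟩] at this
    exact (ENNReal.lt_add_right (ne_top_of_le_ne_top hN (iSup₂_le (hm J))) hε).not_ge this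
  refine ⟨μ, hμ, Frost_vitali μ fun y hy => ?_⟩
  by_contra! c
  refine hlt.not_ge (le_iSup₂_of_le (μ + (Frost_w s J / 2) • Measure.dirac y) ⟨?_, ?_⟩ (by simp))
  · simp [hμ.1, hy]
  · intro j hj x
    by_cases a : y ∈ ball x (Frost_r j)
    · have b : μ (ball x (Frost_r j)) ≤ Frost_w s j / 2 := by
        rw [ENNReal.le_div_iff_mul_le (by simp) (by simp), mul_comm]
        exact (c j x a).le
      simp only [Measure.add_apply, Measure.smul_apply, Measure.dirac_apply_of_mem a, smul_eq_mul,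
        mul_one]
      calc _ ≤ Frost_w s j / 2 + Frost_w s j / 2 :=
          add_le_add b (ENNReal.div_le_div_right (Frost_w_anti hs hj) _)
        _ = _ := ENNReal.add_halves _
    · simpa [a] using hμ.2 j hj x

theorem Frost_limit {n : ℕ} {K : Set (Vc n)} (hK : IsCompact K) {s : ℝ} (hs : 0 < s)
    (h : 0 < cont s K) : ∃ (ν : ProbabilityMeasure (Vc n)) (C : ℝ≥0), (ν : Measure (Vc n)) Kᶜ = 0 ∧
      ∀ j x, (ν : Measure (Vc n)) (ball x (Frost_r j)) ≤ C * Frost_w s j := by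
  obtain ⟨N, hN, hm⟩ := Frost_mass hK s
  obtain ⟨c, hc0, hc⟩ := ENNReal.lt_iff_exists_nnreal_btwn.1 (ENNReal.half_pos h.ne')
  choose μ hμ hl using Frost_level hK hs
  have hcl : ∀ J, (c : ℝ≥0∞) ≤ μ J univ := fun J =>
    hc.le.trans (ENNReal.div_le_of_le_mul' (hl J))
  have hp : ∀ J, IsProbabilityMeasure ((μ J univ)⁻¹ • μ J) := fun J =>
    ⟨ENNReal.inv_mul_cancel (hc0.trans_le (hcl J)).ne' (ne_top_of_le_ne_top hN (hm J _ (hμ J)))⟩
  let ν : ℕ → ProbabilityMeasure (Vc n) := fun J => ⟨_, hp J⟩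
  obtain ⟨ρ, hρ, ht⟩ := (isCompact_setOfPred_probabilityMeasure_mass_eq_compl_isCompact_le
    (u := fun _ => 0) (K := fun _ => K) tendsto_const_nhds (fun _ => hK)
    (.inr monotone_const)).ultrafilter_le_nhds' ((hyperfilter ℕ).map ν)
    (by
      refine Ultrafilter.mem_map.2 (univ_mem' fun J _ => ?_)
      rw [nonpos_iff_eq_zero, ProbabilityMeasure.null_iff_toMeasure_null]
      change (μ J univ)⁻¹ * μ J Kᶜ = 0
      rw [(hμ J).1, mul_zero])
  refine ⟨ρ, c⁻¹, ?_, fun j x => ?_⟩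
  · rw [← ProbabilityMeasure.null_iff_toMeasure_null]
    exact nonpos_iff_eq_zero.1 (hρ 0)
  · have ht' : Tendsto ν (hyperfilter ℕ) (𝓝 ρ) := ht
    refine (ProbabilityMeasure.le_liminf_measure_open_of_tendsto ht' isOpen_ball).trans
      (liminf_le_of_frequently_le' (Eventually.frequently ?_))
    refine Eventually.filter_mono Nat.hyperfilter_le_atTop ?_
    filter_upwards [eventually_ge_atTop j] with J hJ
    change (μ J univ)⁻¹ * μ J _ ≤ _
    rw [ENNReal.coe_inv (by exact_mod_cast hc0.ne')]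
    exact mul_le_mul' (ENNReal.inv_le_inv.2 (hcl J)) ((hμ J).2 j hJ x)

theorem frostman {n : ℕ} {K : Set (Vc n)} (hK : IsCompact K) {s : ℝ} (hs : 0 < s)
    (h : 0 < cont s K) :
    ∃ μ : Measure (Vc n), IsFiniteMeasure μ ∧ μ ≠ 0 ∧ μ Kᶜ = 0 ∧ Frost μ s := by
  obtain ⟨ν, C, h0, hb⟩ := Frost_limit hK hs h
  refine ⟨ν, inferInstance, IsProbabilityMeasure.ne_zero _, h0,
    (C + 1) * ((32 : ℝ) ^ s).toNNReal, fun x r hr => ?_⟩
  have e : (((C + 1) * ((32 : ℝ) ^ s).toNNReal : ℝ≥0) : ℝ≥0∞) * ENNReal.ofReal (r ^ s) =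
      (C + 1) * ENNReal.ofReal ((32 * r) ^ s) := by
    rw [Real.mul_rpow (by norm_num) hr.le, ENNReal.ofReal_mul (by positivity), ← mul_assoc]
    rfl
  rw [e]
  by_cases a : 16 * r ≤ 1
  · obtain ⟨j, b, d⟩ := exists_nat_pow_near_of_lt_one (by positivity) a (y := (2 : ℝ)⁻¹)
      (by norm_num) (by norm_num)
    rw [pow_succ, inv_pow] at b
    rw [inv_pow] at d
    refine (measure_mono (closedBall_subset_ball (show r < Frost_r j by
      rw [Frost_r]; linarith only [hr, d]))).trans ((hb j x).trans (mul_le_mul' le_self_add ?_))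
    exact ENNReal.ofReal_le_ofReal (Real.rpow_le_rpow (by positivity) (by linarith only [b]) hs.le)
  · refine prob_le_one.trans (one_le_mul le_add_self ?_)
    exact ENNReal.one_le_ofReal.2 (Real.one_le_rpow (by linarith) hs.le)

end Pool.Agent.Work.MP_2a522c_an
end

-- merged part: Pool.Agent.Work.MP_2a522c_an.GaussL2
section
/-! # Square-integrable increments of smoothed projections -/

open MeasureTheory Metric Set Filter Topology
open scoped ENNReal NNReal Real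

namespace Pool.Agent.Work.MP_2a522c_an

lemma GaussL2_gk_nonneg (v t : ℝ) : 0 ≤ gk v t := by unfold gk; positivity

lemma GaussL2_gk_pos {v : ℝ} (hv : 0 < v) (t : ℝ) : 0 < gk v t := by unfold gk; positivity

lemma GaussL2_gk_cont (v : ℝ) : Continuous (gk v) := by unfold gk; fun_prop

lemma GaussL2_gk_le {v : ℝ} (hv : 0 < v) (t : ℝ) : gk v t ≤ (√v)⁻¹ := by
  unfold gk
  rw [div_eq_mul_inv]
  refine mul_le_of_le_one_left (by positivity) (Real.exp_le_one_iff.2 ?_)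
  have : 0 ≤ π * t ^ 2 / v := by positivity
  rw [neg_mul, neg_div]; linarith only [this]

lemma GaussL2_conv {v w : ℝ} (hv : 0 < v) (hw : 0 < w) (p c z : ℝ) :
    ∫⁻ a, ENNReal.ofReal (gk w (a - p) * gk v (c - a * z)) =
      ENNReal.ofReal (gk (v + z ^ 2 * w) (c - p * z)) := by
  have hs : 0 < v + z ^ 2 * w := by positivity
  set b : ℝ := π * ((v + z ^ 2 * w) / (v * w)) with hb
  have hb0 : 0 < b := by positivity
  set a₀ : ℝ := (p * v + z * c * w) / (v + z ^ 2 * w) with ha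
  set K : ℝ := Real.exp (-π * (c - p * z) ^ 2 / (v + z ^ 2 * w)) / (√w * √v) with hK
  have e : ∀ a, gk w (a - p) * gk v (c - a * z) = K * Real.exp (-b * (a - a₀) ^ 2) := by
    intro a
    rw [gk, gk, hK, div_mul_div_comm, div_mul_eq_mul_div, ← Real.exp_add, ← Real.exp_add]
    congr 2
    rw [hb, ha]; field_simp; ring
  have hi : Integrable (fun a => K * Real.exp (-b * (a - a₀) ^ 2)) :=
    ((integrable_exp_neg_mul_sq hb0).comp_sub_right a₀).const_mul K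
  simp only [e]
  rw [← ofReal_integral_eq_lintegral_ofReal hi (ae_of_all _ fun a => by positivity),
    integral_const_mul, integral_sub_right_eq_self (fun a => Real.exp (-b * a ^ 2)) a₀,
    integral_gaussian]
  congr 1
  have : π / b = v * w / (v + z ^ 2 * w) := by rw [hb]; field_simp
  rw [this, Real.sqrt_div (by positivity), Real.sqrt_mul hv.le, hK, gk]
  have h1 := Real.sqrt_pos.2 hv
  have h2 := Real.sqrt_pos.2 hw
  field_simp

lemma GaussL2_lprod {ι E : Type} [Fintype ι] [MeasureSpace E] [SigmaFinite (volume : Measure E)]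
    (f : ι → E → ℝ) (c : ι → ℝ) (hm : ∀ i, Measurable (f i)) (h0 : ∀ i x, 0 ≤ f i x)
    (hc : ∀ i, 0 ≤ c i) (h : ∀ i, ∫⁻ x, ENNReal.ofReal (f i x) = ENNReal.ofReal (c i)) :
    ∫⁻ x : ι → E, ENNReal.ofReal (∏ i, f i (x i)) = ENNReal.ofReal (∏ i, c i) := by
  have hi : ∀ i, Integrable (f i) := fun i =>
    (lintegral_ofReal_ne_top_iff_integrable (hm i).aestronglyMeasurable
      (ae_of_all _ (h0 i))).1 (by rw [h]; exact ENNReal.ofReal_ne_top)
  have he : ∀ i, ∫ x, f i x = c i := fun i => by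
    rw [integral_eq_lintegral_of_nonneg_ae (ae_of_all _ (h0 i)) (hm i).aestronglyMeasurable, h,
      ENNReal.toReal_ofReal (hc i)]
  have hI : Integrable (fun x : ι → E => ∏ i, f i (x i)) := Integrable.fintype_prod (f := f) hi
  rw [← ofReal_integral_eq_lintegral_ofReal hI
    (ae_of_all _ fun x => Finset.prod_nonneg fun i _ => h0 i _),
    integral_fintype_prod_volume_eq_prod]
  simp only [he]

lemma GaussL2_row (n : ℕ) : ∀ (z : Vc n) (v : ℝ), 0 < v → ∀ c : ℝ,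
    ∫⁻ a : Vc n, ENNReal.ofReal ((∏ j, gk 1 (a j)) * gk v (c - ∑ j, a j * z j)) =
      ENNReal.ofReal (gk (v + ∑ j, z j ^ 2) c) := by
  induction n with
  | zero => intro z v _ c; simp [volume_pi]
  | succ n ih =>
    intro z v hv c
    have hm := (volume_preserving_piFinSuccAbove (fun _ : Fin (n + 1) => ℝ) 0).symm
    have hc := GaussL2_gk_cont
    rw [← hm.lintegral_comp_emb (MeasurableEquiv.measurableEmbedding _), Measure.volume_eq_prod,
      lintegral_prod_symm]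
    swap
    · have : Continuous fun a : Vc (n + 1) => (∏ j, gk 1 (a j)) * gk v (c - ∑ j, a j * z j) := by
        fun_prop
      exact (this.measurable.ennreal_ofReal.comp (MeasurableEquiv.measurable _)).aemeasurable
    have e : ∀ y : Vc n, ∫⁻ x : ℝ, ENNReal.ofReal ((gk 1 x * ∏ j, gk 1 (y j)) *
        gk v (c - (x * z 0 + ∑ j, y j * z j.succ))) =
        ENNReal.ofReal ((∏ j, gk 1 (y j)) * gk (v + z 0 ^ 2) (c - ∑ j, y j * z j.succ)) := by
      intro y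
      have h0 : 0 ≤ ∏ j, gk 1 (y j) := Finset.prod_nonneg fun j _ => GaussL2_gk_nonneg _ _
      have := GaussL2_conv hv one_pos 0 (c - ∑ j, y j * z j.succ) (z 0)
      simp only [sub_zero, zero_mul, mul_one] at this
      rw [ENNReal.ofReal_mul h0, ← this, ← lintegral_const_mul' _ _ ENNReal.ofReal_ne_top]
      refine lintegral_congr fun x => ?_
      rw [← ENNReal.ofReal_mul h0]
      congr 1
      rw [show c - (x * z 0 + ∑ j, y j * z j.succ) = c - ∑ j, y j * z j.succ - x * z 0 by ring]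
      ring
    simp only [MeasurableEquiv.piFinSuccAbove_symm_apply, Fin.insertNthEquiv, Fin.prod_univ_succ,
      Fin.sum_univ_succ, Fin.insertNth_zero, Equiv.coe_fn_mk, Fin.cons_zero, Fin.cons_succ,
      Fin.zero_succAbove, cast_eq]
    simp only [e]
    rw [ih (fun j => z j.succ) _ (by positivity), add_assoc]

variable {ι : Type} [Fintype ι] {n : ℕ}

lemma GaussL2_Gk_nonneg (v : ℝ) (w : ι → ℝ) : 0 ≤ Gk v w :=
  Finset.prod_nonneg fun _ _ => GaussL2_gk_nonneg _ _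

lemma GaussL2_Gk_cont (v : ℝ) : Continuous (Gk v : (ι → ℝ) → ℝ) := by
  have := GaussL2_gk_cont v
  unfold Gk; fun_prop

lemma GaussL2_conv' {v w : ℝ} (hv : 0 < v) (hw : 0 < w) (p p' : ι → ℝ) :
    ∫⁻ u, ENNReal.ofReal (Gk w (u - p) * Gk v (u - p')) = ENNReal.ofReal (Gk (v + w) (p' - p)) := by
  have hc := GaussL2_gk_cont
  simp only [Gk, ← Finset.prod_mul_distrib, Pi.sub_apply]
  refine GaussL2_lprod (fun i a => gk w (a - p i) * gk v (a - p' i)) _
    (fun i => Continuous.measurable (by fun_prop))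
    (fun i a => mul_nonneg (GaussL2_gk_nonneg _ _) (GaussL2_gk_nonneg _ _))
    (fun i => GaussL2_gk_nonneg _ _) fun i => ?_
  have := GaussL2_conv hv hw (p i) (p' i) 1
  simp only [mul_one, one_pow, one_mul] at this
  rw [← this]
  refine lintegral_congr fun a => ?_
  simp only [gk, sub_sq_comm a (p' i)]

/-- The Gaussian weight on matrices. -/
noncomputable def GaussL2_W (A : ι → Vc n) : ℝ := ∏ i, ∏ j, gk 1 (A i j)

/-- The averaged kernel. -/
noncomputable def GaussL2_g (m : ℕ) (w : ℝ) : ℝ := (√w)⁻¹ ^ m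

lemma GaussL2_W_pos (A : ι → Vc n) : 0 < GaussL2_W A :=
  Finset.prod_pos fun _ _ => Finset.prod_pos fun _ _ => GaussL2_gk_pos one_pos _

lemma GaussL2_W_cont : Continuous (GaussL2_W : (ι → Vc n) → ℝ) := by
  have := GaussL2_gk_cont 1
  unfold GaussL2_W; fun_prop

lemma GaussL2_avg {v : ℝ} (hv : 0 < v) (x y : Vc n) :
    ∫⁻ A : ι → Vc n, ENNReal.ofReal (GaussL2_W A * Gk v (mv A y - mv A x)) =
      ENNReal.ofReal (GaussL2_g (Fintype.card ι) (v + ∑ j, (x j - y j) ^ 2)) := by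
  have hc := GaussL2_gk_cont
  have e : ∀ A : ι → Vc n, GaussL2_W A * Gk v (mv A y - mv A x) =
      ∏ i, ((∏ j, gk 1 (A i j)) * gk v (0 - ∑ j, A i j * (x j - y j))) := by
    intro A
    rw [Finset.prod_mul_distrib, GaussL2_W, Gk]
    congr 1
    refine Finset.prod_congr rfl fun i _ => ?_
    simp [mv, mul_sub, Finset.sum_sub_distrib]
  simp only [e]
  rw [GaussL2_lprod (fun _ (a : Vc n) => (∏ j, gk 1 (a j)) * gk v (0 - ∑ j, a j * (x j - y j)))
    (fun _ => gk (v + ∑ j, (x j - y j) ^ 2) 0) (fun i => Continuous.measurable (by fun_prop))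
    (fun i a => mul_nonneg (Finset.prod_nonneg fun _ _ => GaussL2_gk_nonneg _ _)
      (GaussL2_gk_nonneg _ _)) (fun i => GaussL2_gk_nonneg _ _)
    fun i => GaussL2_row n (fun j => x j - y j) v hv 0]
  simp [gk, GaussL2_g]

variable (μ : Measure (Vc n)) [IsFiniteMeasure μ]

/-- The smoothed projection with variance parameter `v`. -/
noncomputable def GaussL2_S (v : ℝ) (A : ι → Vc n) (u : ι → ℝ) : ℝ := ∫ x, Gk v (u - mv A x) ∂μ

lemma GaussL2_S_meas (v : ℝ) :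
    Measurable (fun p : (ι → Vc n) × (ι → ℝ) => GaussL2_S μ v p.1 p.2) := by
  have h1 := GaussL2_Gk_cont (ι := ι) v
  have : Continuous (fun p : ((ι → Vc n) × (ι → ℝ)) × Vc n => Gk v (p.1.2 - mv p.1.1 p.2)) :=
    h1.comp (by unfold mv; fun_prop)
  exact (this.stronglyMeasurable.integral_prod_right' (ν := μ)).measurable

omit [IsFiniteMeasure μ] in
lemma GaussL2_S_nonneg (v : ℝ) (A : ι → Vc n) (u : ι → ℝ) : 0 ≤ GaussL2_S μ v A u :=
  integral_nonneg fun _ => GaussL2_Gk_nonneg _ _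

lemma GaussL2_S_eq {v : ℝ} (hv : 0 < v) (A : ι → Vc n) (u : ι → ℝ) :
    ENNReal.ofReal (GaussL2_S μ v A u) = ∫⁻ x, ENNReal.ofReal (Gk v (u - mv A x)) ∂μ := by
  refine ofReal_integral_eq_lintegral_ofReal ?_ (ae_of_all _ fun x => GaussL2_Gk_nonneg _ _)
  have h1 := GaussL2_Gk_cont (ι := ι) v
  have : Continuous (fun x : Vc n => Gk v (u - mv A x)) := h1.comp (by unfold mv; fun_prop)
  refine Integrable.of_bound this.aestronglyMeasurable (∏ _i : ι, (√v)⁻¹) (ae_of_all _ fun x => ?_)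
  rw [Real.norm_of_nonneg (GaussL2_Gk_nonneg _ _)]
  exact Finset.prod_le_prod (fun _ _ => GaussL2_gk_nonneg _ _) fun _ _ => GaussL2_gk_le hv _

/-- The averaged energy. -/
noncomputable def GaussL2_T (m : ℕ) (w : ℝ) : ℝ≥0∞ :=
  ∫⁻ p : Vc n × Vc n, ENNReal.ofReal (GaussL2_g m (w + ∑ j, (p.1 j - p.2 j) ^ 2)) ∂μ.prod μ

lemma GaussL2_energy {v w : ℝ} (hv : 0 < v) (hw : 0 < w) :
    ∫⁻ A : ι → Vc n, ENNReal.ofReal (GaussL2_W A) *
      ∫⁻ u, ENNReal.ofReal (GaussL2_S μ w A u * GaussL2_S μ v A u) =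
      GaussL2_T μ (Fintype.card ι) (v + w) := by
  have hG := GaussL2_Gk_cont (ι := ι)
  have hW := GaussL2_W_cont (ι := ι) (n := n)
  have e : ∀ A : ι → Vc n, ENNReal.ofReal (GaussL2_W A) *
      ∫⁻ u, ENNReal.ofReal (GaussL2_S μ w A u * GaussL2_S μ v A u) =
      ∫⁻ p : Vc n × Vc n, ENNReal.ofReal (GaussL2_W A * Gk (v + w) (mv A p.2 - mv A p.1))
        ∂μ.prod μ := by
    intro A
    have hc : ∀ (v : ℝ) (u : ι → ℝ), Measurable fun x => ENNReal.ofReal (Gk v (u - mv A x)) :=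
      fun v u => ((hG v).comp (by unfold mv; fun_prop)).measurable.ennreal_ofReal
    have e1 : ∀ u, ENNReal.ofReal (GaussL2_S μ w A u * GaussL2_S μ v A u) =
        ∫⁻ p : Vc n × Vc n, ENNReal.ofReal (Gk w (u - mv A p.1) * Gk v (u - mv A p.2))
          ∂μ.prod μ := by
      intro u
      rw [ENNReal.ofReal_mul (GaussL2_S_nonneg μ _ _ _), GaussL2_S_eq μ hw, GaussL2_S_eq μ hv,
        ← lintegral_prod_mul (hc w u).aemeasurable (hc v u).aemeasurable]
      simp only [ENNReal.ofReal_mul (GaussL2_Gk_nonneg _ _)]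
    simp only [e1]
    rw [lintegral_lintegral_swap]
    · simp only [GaussL2_conv' hv hw, ENNReal.ofReal_mul (GaussL2_W_pos A).le]
      rw [lintegral_const_mul' _ _ ENNReal.ofReal_ne_top]
    · refine (Continuous.measurable ?_).ennreal_ofReal.aemeasurable
      exact ((hG w).comp (by unfold mv; fun_prop)).mul ((hG v).comp (by unfold mv; fun_prop))
  simp only [e]
  rw [lintegral_lintegral_swap]
  · simp only [GaussL2_avg (add_pos hv hw)]; rfl
  · refine (Continuous.measurable ?_).ennreal_ofReal.aemeasurable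
    exact (hW.comp continuous_fst).mul ((hG _).comp (by unfold mv; fun_prop))

lemma GaussL2_g_anti (m : ℕ) {w w' : ℝ} (hw : 0 < w) (h : w ≤ w') :
    GaussL2_g m w' ≤ GaussL2_g m w :=
  pow_le_pow_left₀ (by positivity) (inv_anti₀ (Real.sqrt_pos.2 hw) (Real.sqrt_le_sqrt h)) m

lemma GaussL2_g_diff (m : ℕ) {w h : ℝ} (hw : 0 < w) (hh : 0 ≤ h) :
    GaussL2_g m w ≤ GaussL2_g m (w + h) + m * h * (√w)⁻¹ ^ (m + 2) := by
  have hs := Real.sqrt_pos.2 hw
  set t : ℝ := w / (w + h) with ht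
  have ht0 : 0 < t := by positivity
  have ht1 : t ≤ 1 := (div_le_one (by positivity)).2 (by linarith)
  have e : (√(w + h))⁻¹ = (√w)⁻¹ * √t := by
    have := Real.sqrt_pos.2 (show 0 < w + h by positivity)
    rw [ht, Real.sqrt_div hw.le]; field_simp
  have h1 : t ≤ √t := Real.le_sqrt_of_sq_le (by linarith only [ht0, ht1, mul_nonneg_of_nonpos_of_nonpos (le_of_lt (Mathlib.Tactic.Linarith.sub_neg_of_lt ht0)) (Mathlib.Tactic.Linarith.sub_nonpos_of_le ht1)])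
  have h2 : 1 - h / w ≤ t := by
    rw [ht, le_div_iff₀ (by positivity)]
    have : (1 - h / w) * (w + h) = w - h ^ 2 / w := by field_simp; ring
    rw [this]
    have : 0 ≤ h ^ 2 / w := by positivity
    linarith only [this]
  have h3 : 1 + m * (√t - 1) ≤ √t ^ m := by
    have := one_add_mul_le_pow (a := √t - 1) (by linarith only [ht0, h1, Real.sqrt_nonneg t]) m
    simpa using this
  have h4 : 1 - m * (h / w) ≤ √t ^ m := by
    have : (m : ℝ) * (-(h / w)) ≤ m * (√t - 1) :=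
      mul_le_mul_of_nonneg_left (by linarith only [h1, h2]) (Nat.cast_nonneg m)
    linarith only [h3, this]
  have h5 : (√w)⁻¹ ^ (m + 2) = (√w)⁻¹ ^ m / w := by
    rw [pow_add, inv_pow _ 2, Real.sq_sqrt hw.le, div_eq_mul_inv]
  rw [GaussL2_g, GaussL2_g, e, mul_pow, h5]
  have h6 : 0 ≤ (√w)⁻¹ ^ m := by positivity
  have := mul_le_mul_of_nonneg_left h4 h6
  have e2 : (m : ℝ) * h * ((√w)⁻¹ ^ m / w) = (√w)⁻¹ ^ m * (m * (h / w)) := by ring
  rw [e2]; linarith only [this]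

lemma GaussL2_shell (m : ℕ) {r : ℝ} (hr : 0 < r) (x y : Vc n) :
    ∃ i : ℕ, dist y x ≤ 2 ^ i * r ∧
      (√(r ^ 2 / 4 + r ^ 2 / 4 + ∑ j, (x j - y j) ^ 2))⁻¹ ^ (m + 2) ≤ (2 / (2 ^ i * r)) ^ (m + 2) := by
  classical
  have hex : ∃ i : ℕ, dist y x ≤ 2 ^ i * r := by
    obtain ⟨i, hi⟩ := pow_unbounded_of_one_lt (dist y x / r) (one_lt_two (α := ℝ))
    exact ⟨i, ((div_lt_iff₀ hr).1 hi).le⟩
  refine ⟨Nat.find hex, Nat.find_spec hex, pow_le_pow_left₀ (by positivity) ?_ _⟩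
  rw [← inv_div _ (2 : ℝ)]
  refine inv_anti₀ (by positivity) (Real.le_sqrt_of_sq_le ?_)
  have h0 : 0 ≤ ∑ j, (x j - y j) ^ 2 := Finset.sum_nonneg fun _ _ => sq_nonneg _
  rcases h : Nat.find hex with _ | i
  · linarith only [h0, sq_nonneg ((1 : ℝ) * r)]
  · have h1 : 2 ^ i * r < dist y x := not_le.1 (Nat.find_min hex (by omega))
    have h2 : dist y x ≤ √(∑ j, (x j - y j) ^ 2) := by
      refine (dist_pi_le_iff (Real.sqrt_nonneg _)).2 fun j => ?_
      rw [Real.dist_eq, abs_sub_comm]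
      exact Real.abs_le_sqrt (Finset.single_le_sum (f := fun j => (x j - y j) ^ 2)
        (fun _ _ => sq_nonneg _) (Finset.mem_univ j))
    have h3 : (2 ^ i * r) ^ 2 ≤ ∑ j, (x j - y j) ^ 2 :=
      (Real.le_sqrt (by positivity) h0).1 (h1.le.trans h2)
    have : (2 ^ (i + 1) * r / 2) ^ 2 = (2 ^ i * r) ^ 2 := by ring
    linarith only [h3, this, sq_nonneg ((1 : ℝ) * r)]

lemma GaussL2_T_le (m : ℕ) {s : ℝ} {C : ℝ≥0}
    (hC : ∀ (x : Vc n) (r : ℝ), 0 < r → μ (closedBall x r) ≤ C * ENNReal.ofReal (r ^ s)) {r : ℝ}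
    (hr : 0 < r) : GaussL2_T μ m (r ^ 2 / 4 + r ^ 2 / 4) ≤ GaussL2_T μ m (r ^ 2 / 4 + r ^ 2) +
      ∑' i : ℕ, ENNReal.ofReal (m * r ^ 2 * (2 / (2 ^ i * r)) ^ (m + 2)) *
        (C * ENNReal.ofReal ((2 ^ i * r) ^ s) * μ univ) := by
  have hm : ∀ i : ℕ, MeasurableSet {p : Vc n × Vc n | dist p.2 p.1 ≤ 2 ^ i * r} := fun i =>
    (isClosed_le (by fun_prop) continuous_const).measurableSet
  calc _ ≤ ∫⁻ p : Vc n × Vc n, (ENNReal.ofReal (GaussL2_g m (r ^ 2 / 4 + r ^ 2 +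
          ∑ j, (p.1 j - p.2 j) ^ 2)) + ∑' i : ℕ, {p : Vc n × Vc n | dist p.2 p.1 ≤ 2 ^ i * r}.indicator
            (fun _ => ENNReal.ofReal (m * r ^ 2 * (2 / (2 ^ i * r)) ^ (m + 2))) p) ∂μ.prod μ := by
        refine lintegral_mono fun p => ?_
        obtain ⟨i, h1, h2⟩ := GaussL2_shell m hr p.1 p.2
        have h0 : 0 ≤ ∑ j, (p.1 j - p.2 j) ^ 2 := Finset.sum_nonneg fun _ _ => sq_nonneg _
        have h3 := GaussL2_g_diff m (w := r ^ 2 / 4 + r ^ 2 / 4 + ∑ j, (p.1 j - p.2 j) ^ 2)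
          (h := 3 / 4 * r ^ 2) (by positivity) (by positivity)
        refine le_trans ?_ (add_le_add le_rfl (ENNReal.le_tsum i))
        rw [indicator_of_mem (show p ∈ {p : Vc n × Vc n | dist p.2 p.1 ≤ 2 ^ i * r} from h1),
          ← ENNReal.ofReal_add (by unfold GaussL2_g; positivity) (by positivity)]
        refine ENNReal.ofReal_le_ofReal (h3.trans (add_le_add (le_of_eq ?_) ?_))
        · congr 1; ring
        · exact mul_le_mul (by linarith only [Nat.cast_nonneg (α := ℝ) m, sq_nonneg r, mul_nonneg_of_nonpos_of_nonpos (Mathlib.Tactic.Linarith.sub_nonpos_of_le (sq_nonneg r)) (Mathlib.Tactic.Linarith.sub_nonpos_of_le (Mathlib.Tactic.Linarith.natCast_nonneg ℝ m))]) h2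
            (by positivity) (by positivity)
    _ ≤ _ := by
        rw [lintegral_add_right _ (Measurable.tsum fun i =>
          measurable_const.indicator (hm i)), lintegral_tsum fun i =>
          (measurable_const.indicator (hm i)).aemeasurable]
        refine add_le_add le_rfl (ENNReal.tsum_le_tsum fun i => ?_)
        rw [lintegral_indicator_const (hm i), Measure.prod_apply (hm i), ← lintegral_const]
        exact mul_le_mul_right (lintegral_mono fun x => hC x _ (by positivity)) _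

lemma GaussL2_T_ne (m : ℕ) {w : ℝ} (hw : 0 < w) : GaussL2_T μ m w ≠ ∞ := by
  refine ne_top_of_le_ne_top ?_ (lintegral_mono (g := fun _ => ENNReal.ofReal (GaussL2_g m w))
    fun p => ENNReal.ofReal_le_ofReal (GaussL2_g_anti m hw
      (le_add_of_nonneg_right (Finset.sum_nonneg fun _ _ => sq_nonneg _))))
  rw [lintegral_const]
  exact ENNReal.mul_ne_top ENNReal.ofReal_ne_top (measure_ne_top _ _)

lemma GaussL2_polar {X Y : Type} [MeasureSpace X] [MeasureSpace Y] [SFinite (volume : Measure Y)]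
    {W : X → ℝ≥0∞} (hW : Measurable W) {f g : X → Y → ℝ}
    (hf : Measurable fun p : X × Y => f p.1 p.2) (hg : Measurable fun p : X × Y => g p.1 p.2)
    (f0 : ∀ x y, 0 ≤ f x y) (g0 : ∀ x y, 0 ≤ g x y) :
    (∫⁻ x, W x * ∫⁻ y, ENNReal.ofReal ((f x y - g x y) ^ 2)) +
      (∫⁻ x, W x * ∫⁻ y, ENNReal.ofReal (f x y * g x y)) +
      (∫⁻ x, W x * ∫⁻ y, ENNReal.ofReal (f x y * g x y)) =
      (∫⁻ x, W x * ∫⁻ y, ENNReal.ofReal (f x y * f x y)) +
      ∫⁻ x, W x * ∫⁻ y, ENNReal.ofReal (g x y * g x y) := by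
  have h1 : Measurable fun p : X × Y => ENNReal.ofReal (f p.1 p.2 * g p.1 p.2) :=
    (hf.mul hg).ennreal_ofReal
  have h2 : Measurable fun p : X × Y => ENNReal.ofReal (g p.1 p.2 * g p.1 p.2) :=
    (hg.mul hg).ennreal_ofReal
  have h3 : Measurable fun x => W x * ∫⁻ y, ENNReal.ofReal (f x y * g x y) :=
    hW.mul h1.lintegral_prod_right'
  have h4 : Measurable fun x => W x * ∫⁻ y, ENNReal.ofReal (g x y * g x y) :=
    hW.mul h2.lintegral_prod_right'
  rw [← lintegral_add_right _ h3, ← lintegral_add_right _ h3, ← lintegral_add_right _ h4]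
  refine lintegral_congr fun x => ?_
  have h5 : Measurable fun y => ENNReal.ofReal (f x y * g x y) := h1.comp measurable_prodMk_left
  have h6 : Measurable fun y => ENNReal.ofReal (g x y * g x y) := h2.comp measurable_prodMk_left
  rw [← mul_add, ← mul_add, ← mul_add, ← lintegral_add_right _ h5, ← lintegral_add_right _ h5,
    ← lintegral_add_right _ h6]
  congr 1
  refine lintegral_congr fun y => ?_
  have a := f0 x y
  have b := g0 x y
  rw [← ENNReal.ofReal_add (by positivity) (by positivity),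
    ← ENNReal.ofReal_add (by positivity) (by positivity),
    ← ENNReal.ofReal_add (by positivity) (by positivity)]
  congr 1; ring

lemma GaussL2_step {s : ℝ} {C : ℝ≥0}
    (hC : ∀ (x : Vc n) (r : ℝ), 0 < r → μ (closedBall x r) ≤ C * ENNReal.ofReal (r ^ s)) {r : ℝ}
    (hr : 0 < r) : ∫⁻ A : ι → Vc n, ENNReal.ofReal (GaussL2_W A) *
      ∫⁻ u, ENNReal.ofReal ((GaussL2_S μ (r ^ 2) A u - GaussL2_S μ (r ^ 2 / 4) A u) ^ 2) ≤
      ∑' i : ℕ, ENNReal.ofReal (Fintype.card ι * r ^ 2 * (2 / (2 ^ i * r)) ^ (Fintype.card ι + 2)) *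
        (C * ENNReal.ofReal ((2 ^ i * r) ^ s) * μ univ) := by
  have h1 : 0 < r ^ 2 := by positivity
  have h2 : 0 < r ^ 2 / 4 := by positivity
  have hS := GaussL2_S_meas (ι := ι) μ
  have key := GaussL2_polar (GaussL2_W_cont (ι := ι) (n := n)).measurable.ennreal_ofReal
    (hS (r ^ 2)) (hS (r ^ 2 / 4)) (GaussL2_S_nonneg μ _) (GaussL2_S_nonneg μ _)
  rw [GaussL2_energy μ h2 h1, GaussL2_energy μ h1 h1, GaussL2_energy μ h2 h2] at key
  have h3 : GaussL2_T μ (Fintype.card ι) (r ^ 2 + r ^ 2) ≤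
      GaussL2_T μ (Fintype.card ι) (r ^ 2 / 4 + r ^ 2) := by
    refine lintegral_mono fun p => ?_
    exact ENNReal.ofReal_le_ofReal (GaussL2_g_anti _ (add_pos_of_pos_of_nonneg (by positivity)
      (Finset.sum_nonneg fun _ _ => sq_nonneg _)) (by linarith only [h1]))
  have h4 := GaussL2_T_le μ (Fintype.card ι) hC hr
  have h5 := GaussL2_T_ne μ (Fintype.card ι) (add_pos h2 h1)
  have h6 := key.trans_le (add_le_add h3 h4)
  generalize GaussL2_T μ (Fintype.card ι) (r ^ 2 / 4 + r ^ 2) = T at h5 h6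
  rw [add_comm T, ENNReal.add_le_add_iff_right h5, add_comm T,
    ENNReal.add_le_add_iff_right h5] at h6
  exact h6

lemma GaussL2_term (m i j : ℕ) (s q : ℝ) :
    (q ^ j)⁻¹ * (m * ((2 : ℝ) ^ j)⁻¹ ^ 2 * (2 / (2 ^ i * (2 ^ j)⁻¹)) ^ (m + 2)) *
      (2 ^ i * ((2 : ℝ) ^ j)⁻¹) ^ s =
      m * 2 ^ (m + 2) * ((2 : ℝ) ^ (s - m - 2)) ^ i * ((2 : ℝ) ^ (m - s) / q) ^ j := by
  have h2 : (0 : ℝ) ≤ 2 := by norm_num
  have e1 : (2 ^ i * ((2 : ℝ) ^ j)⁻¹) ^ s = (2 ^ s) ^ i / (2 ^ s) ^ j := by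
    rw [Real.mul_rpow (by positivity) (by positivity), Real.inv_rpow (by positivity),
      Real.rpow_pow_comm h2, Real.rpow_pow_comm h2, div_eq_mul_inv]
  have e2 : (2 : ℝ) ^ (s - m - 2) = 2 ^ s / 2 ^ (m + 2) := by
    rw [sub_sub, Real.rpow_sub two_pos, ← Real.rpow_natCast 2 (m + 2)]; push_cast; rfl
  have e3 : (2 : ℝ) ^ (m - s) = 2 ^ m / 2 ^ s := by rw [Real.rpow_sub two_pos, Real.rpow_natCast]
  have h3 : (0 : ℝ) < 2 ^ s := by positivity
  rw [e1, e2, e3]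
  simp only [div_pow, mul_pow, inv_pow, ← pow_mul]
  field_simp
  ring

theorem gauss_l2 {ι : Type} [Fintype ι] {n : ℕ} (μ : Measure (Vc n)) [IsFiniteMeasure μ] {s q : ℝ}
    (hF : Frost μ s) (h1 : (Fintype.card ι : ℝ) < s) (h2 : s < Fintype.card ι + 2)
    (hq : (2 : ℝ) ^ (Fintype.card ι - s) < q) :
    ∀ᵐ A : ι → Vc n, ∫⁻ u, ∑' j : ℕ,
      ENNReal.ofReal ((q ^ j)⁻¹ * (sm μ A j u - sm μ A (j + 1) u) ^ 2) < ∞ := by
  obtain ⟨C, hC⟩ := hF
  set m := Fintype.card ι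
  have hq0 : 0 < q := lt_trans (by positivity) hq
  have hS := GaussL2_S_meas (ι := ι) μ
  have hW := (GaussL2_W_cont (ι := ι) (n := n)).measurable.ennreal_ofReal
  have e1 : ∀ j : ℕ, ((4 : ℝ) ^ j)⁻¹ = ((2 : ℝ) ^ j)⁻¹ ^ 2 := fun j => by
    rw [inv_pow, ← pow_mul, mul_comm, pow_mul]; norm_num
  have e2 : ∀ j : ℕ, ((4 : ℝ) ^ (j + 1))⁻¹ = ((2 : ℝ) ^ j)⁻¹ ^ 2 / 4 := fun j => by
    rw [← e1, pow_succ, mul_inv, div_eq_mul_inv]
  let D : ℕ → (ι → Vc n) × (ι → ℝ) → ℝ≥0∞ := fun j p => ENNReal.ofReal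
    ((GaussL2_S μ (((2 : ℝ) ^ j)⁻¹ ^ 2) p.1 p.2 - GaussL2_S μ (((2 : ℝ) ^ j)⁻¹ ^ 2 / 4) p.1 p.2) ^ 2)
  have hD : ∀ j, Measurable (D j) := fun j => (((hS _).sub (hS _)).pow_const 2).ennreal_ofReal
  have e3 : ∀ A : ι → Vc n, ∫⁻ u, ∑' j : ℕ,
      ENNReal.ofReal ((q ^ j)⁻¹ * (sm μ A j u - sm μ A (j + 1) u) ^ 2) =
      ∑' j : ℕ, ENNReal.ofReal (q ^ j)⁻¹ * ∫⁻ u, D j (A, u) := by
    intro A
    have : ∀ j u, ENNReal.ofReal ((q ^ j)⁻¹ * (sm μ A j u - sm μ A (j + 1) u) ^ 2) =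
        ENNReal.ofReal (q ^ j)⁻¹ * D j (A, u) := fun j u => by
      rw [ENNReal.ofReal_mul (by positivity), sm, sm, e1 j, e2 j]; rfl
    simp only [this]
    have hm : ∀ j, Measurable fun u => ENNReal.ofReal (q ^ j)⁻¹ * D j (A, u) := fun j =>
      ((hD j).comp measurable_prodMk_left).const_mul _
    rw [lintegral_tsum fun j => (hm j).aemeasurable]
    exact tsum_congr fun j => lintegral_const_mul' _ _ ENNReal.ofReal_ne_top
  have hM : ∀ j, Measurable fun A : ι → Vc n => ENNReal.ofReal (q ^ j)⁻¹ *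
      (ENNReal.ofReal (GaussL2_W A) * ∫⁻ u, D j (A, u)) := fun j =>
    (hW.mul (hD j).lintegral_prod_right').const_mul _
  have ha : (2 : ℝ) ^ (s - m - 2) < 1 := Real.rpow_lt_one_of_one_lt_of_neg one_lt_two (by linarith)
  have hb : (2 : ℝ) ^ (m - s) / q < 1 := (div_lt_one hq0).2 hq
  have hfin : ∫⁻ A : ι → Vc n, ∑' j : ℕ, ENNReal.ofReal (q ^ j)⁻¹ *
      (ENNReal.ofReal (GaussL2_W A) * ∫⁻ u, D j (A, u)) ≠ ∞ := by
    rw [lintegral_tsum fun j => (hM j).aemeasurable]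
    refine ne_top_of_le_ne_top ?_ (ENNReal.tsum_le_tsum (g := fun j =>
      (ENNReal.ofReal (m * 2 ^ (m + 2)) * (C * μ univ) *
        ∑' i, ENNReal.ofReal ((2 : ℝ) ^ (s - m - 2)) ^ i) *
          ENNReal.ofReal ((2 : ℝ) ^ (m - s) / q) ^ j) fun j => ?_)
    · rw [ENNReal.tsum_mul_left]
      refine ENNReal.mul_ne_top (ENNReal.mul_ne_top (ENNReal.mul_ne_top ENNReal.ofReal_ne_top
        (ENNReal.mul_ne_top ENNReal.coe_ne_top (measure_ne_top _ _))) ?_) ?_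
      · exact (tsum_geometric_lt_top.2 (ENNReal.ofReal_lt_one.2 ha)).ne
      · exact (tsum_geometric_lt_top.2 (ENNReal.ofReal_lt_one.2 hb)).ne
    · rw [lintegral_const_mul' _ _ ENNReal.ofReal_ne_top]
      refine (mul_le_mul_right (GaussL2_step μ hC (r := ((2 : ℝ) ^ j)⁻¹) (by positivity)) _).trans
        (le_of_eq ?_)
      rw [← ENNReal.tsum_mul_left, ← ENNReal.tsum_mul_left, ← ENNReal.tsum_mul_right]
      refine tsum_congr fun i => ?_
      have := congrArg ENNReal.ofReal (GaussL2_term m i j s q)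
      rw [ENNReal.ofReal_mul (by positivity), ENNReal.ofReal_mul (by positivity),
        ENNReal.ofReal_mul (q := (_ / q) ^ j) (by positivity), ENNReal.ofReal_mul (q := _ ^ i)
          (by positivity), ENNReal.ofReal_pow (by positivity) i, ENNReal.ofReal_pow (by positivity) j]
        at this
      calc _ = ENNReal.ofReal (q ^ j)⁻¹ * ENNReal.ofReal (m * ((2 : ℝ) ^ j)⁻¹ ^ 2 *
            (2 / (2 ^ i * (2 ^ j)⁻¹)) ^ (m + 2)) * ENNReal.ofReal ((2 ^ i * ((2 : ℝ) ^ j)⁻¹) ^ s) *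
            (C * μ univ) := by ring
        _ = _ := by rw [this]; ring
  filter_upwards [ae_lt_top (Measurable.tsum hM) hfin] with A hA
  rw [e3]
  simp only [mul_left_comm _ (ENNReal.ofReal (GaussL2_W A)), ENNReal.tsum_mul_left] at hA
  exact ENNReal.lt_top_of_mul_ne_top_right hA.ne (ENNReal.ofReal_pos.2 (GaussL2_W_pos A)).ne'

end Pool.Agent.Work.MP_2a522c_an
end

-- merged part: Pool.Agent.Work.MP_2a522c_an.GaussPt
section
/-! # Regularity data from smoothed projections -/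

open MeasureTheory Metric Set Filter Topology
open scoped ENNReal NNReal Real

namespace Pool.Agent.Work.MP_2a522c_an

section GaussPt

variable {ι : Type} [Fintype ι] {n : ℕ}

theorem GaussPt_Gk_eq (j : ℕ) (w : ι → ℝ) : Gk ((4 : ℝ) ^ j)⁻¹ w =
    ((2 : ℝ) ^ j) ^ Fintype.card ι * Real.exp (-π * (4 ^ j * ∑ i, w i ^ 2)) := by
  have h1 : √((4 : ℝ) ^ j)⁻¹ = ((2 : ℝ) ^ j)⁻¹ := by
    rw [Real.sqrt_eq_iff_mul_self_eq (by positivity) (by positivity), ← mul_inv, ← mul_pow]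
    norm_num
  have h2 : ∀ t : ℝ, gk ((4 : ℝ) ^ j)⁻¹ t = 2 ^ j * Real.exp (-π * (4 ^ j * t ^ 2)) := fun t => by
    rw [gk, h1, div_inv_eq_mul, div_inv_eq_mul, mul_comm]
    congr 2
    ring
  simp only [Gk, h2]
  rw [Finset.prod_mul_distrib, Finset.prod_const, Finset.card_univ, ← Real.exp_sum,
    Finset.mul_sum, Finset.mul_sum]

theorem GaussPt_Gk_nonneg (j : ℕ) (w : ι → ℝ) : 0 ≤ Gk ((4 : ℝ) ^ j)⁻¹ w := by
  rw [GaussPt_Gk_eq]; positivity

theorem GaussPt_Gk_le (j : ℕ) (w : ι → ℝ) :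
    Gk ((4 : ℝ) ^ j)⁻¹ w ≤ ((2 : ℝ) ^ j) ^ Fintype.card ι := by
  rw [GaussPt_Gk_eq]
  refine mul_le_of_le_one_right (by positivity) (Real.exp_le_one_iff.2 ?_)
  have : 0 ≤ π * (4 ^ j * ∑ i, w i ^ 2) := by positivity
  linarith

theorem GaussPt_Gk_cont (j : ℕ) : Continuous fun w : ι → ℝ => Gk ((4 : ℝ) ^ j)⁻¹ w := by
  simp only [GaussPt_Gk_eq]
  fun_prop

omit [Fintype ι] in
theorem GaussPt_mv_cont (A : ι → Vc n) : Continuous (mv A) := by
  unfold mv
  fun_prop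

theorem GaussPt_joint (A : ι → Vc n) (j : ℕ) :
    Continuous fun p : (ι → ℝ) × Vc n => Gk ((4 : ℝ) ^ j)⁻¹ (p.1 - mv A p.2) :=
  (GaussPt_Gk_cont j).comp (continuous_fst.sub ((GaussPt_mv_cont A).comp continuous_snd))

theorem GaussPt_integrable (μ : Measure (Vc n)) [IsFiniteMeasure μ] (A : ι → Vc n) (j : ℕ)
    (u : ι → ℝ) : Integrable (fun x => Gk ((4 : ℝ) ^ j)⁻¹ (u - mv A x)) μ := by
  refine Integrable.of_bound (C := ((2 : ℝ) ^ j) ^ Fintype.card ι) ?_ (ae_of_all _ fun x => ?_)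
  · exact ((GaussPt_Gk_cont j).comp
      (continuous_const.sub (GaussPt_mv_cont A))).aestronglyMeasurable
  · rw [Real.norm_of_nonneg (GaussPt_Gk_nonneg _ _)]
    exact GaussPt_Gk_le _ _

theorem GaussPt_sm_meas (μ : Measure (Vc n)) [IsFiniteMeasure μ] (A : ι → Vc n) (j : ℕ) :
    Measurable (sm μ A j) :=
  ((GaussPt_joint A j).measurable.stronglyMeasurable.integral_prod_right' (ν := μ)).measurable

theorem GaussPt_sm_nonneg (μ : Measure (Vc n)) (A : ι → Vc n) (j : ℕ) (u : ι → ℝ) :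
    0 ≤ sm μ A j u :=
  integral_nonneg fun _ => GaussPt_Gk_nonneg _ _

theorem GaussPt_sm_le (μ : Measure (Vc n)) [IsFiniteMeasure μ] (A : ι → Vc n) (j : ℕ)
    (u : ι → ℝ) {b : ℝ} (hb : ∀ᵐ x ∂μ, Gk ((4 : ℝ) ^ j)⁻¹ (u - mv A x) ≤ b) :
    sm μ A j u ≤ μ.real univ * b := by
  have := integral_mono_ae (GaussPt_integrable μ A j u) (integrable_const b) hb
  rwa [integral_const, smul_eq_mul] at this

theorem GaussPt_sum_sq_le (h : ι → ℝ) : ∑ i, h i ^ 2 ≤ Fintype.card ι * ‖h‖ ^ 2 := by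
  have : ∀ i ∈ (Finset.univ : Finset ι), h i ^ 2 ≤ ‖h‖ ^ 2 := fun i _ => by
    rw [← sq_abs]
    exact pow_le_pow_left₀ (abs_nonneg _) (norm_le_pi_norm h i) 2
  have h2 := Finset.sum_le_card_nsmul _ _ _ this
  rwa [Finset.card_univ, nsmul_eq_mul] at h2

theorem GaussPt_norm_sq_le (w : ι → ℝ) : ‖w‖ ^ 2 ≤ ∑ i, w i ^ 2 := by
  have h0 : 0 ≤ ∑ i, w i ^ 2 := by positivity
  have : ‖w‖ ≤ √(∑ i, w i ^ 2) := by
    refine (pi_norm_le_iff_of_nonneg (Real.sqrt_nonneg _)).2 fun i => ?_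
    exact Real.abs_le_sqrt (Finset.single_le_sum (f := fun i => w i ^ 2)
      (fun _ _ => sq_nonneg _) (Finset.mem_univ i))
  calc ‖w‖ ^ 2 ≤ √(∑ i, w i ^ 2) ^ 2 := pow_le_pow_left₀ (norm_nonneg _) this 2
    _ = _ := Real.sq_sqrt h0

theorem GaussPt_shift (w h : ι → ℝ) {ε : ℝ} (hε : 0 < ε) :
    (1 - ε) * ∑ i, w i ^ 2 - (∑ i, h i ^ 2) / ε ≤ ∑ i, (w + h) i ^ 2 := by
  rw [Finset.mul_sum, Finset.sum_div, ← Finset.sum_sub_distrib]
  refine Finset.sum_le_sum fun i _ => ?_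
  have e : (w + h) i ^ 2 - ((1 - ε) * w i ^ 2 - h i ^ 2 / ε) =
      (ε * w i + h i) ^ 2 / ε + h i ^ 2 := by
    simp only [Pi.add_apply]
    field_simp
    ring
  have : 0 ≤ (ε * w i + h i) ^ 2 / ε + h i ^ 2 := by positivity
  linarith only [e, this]

theorem GaussPt_exp_le {t : ℝ} (h0 : 0 ≤ t) (h1 : t ≤ 1) :
    Real.exp (π * t) ≤ 1 + π * Real.exp π * t := by
  have a1 := Real.add_one_le_exp (-(π * t))
  have a2 : Real.exp (π * t) ≤ Real.exp π :=
    Real.exp_le_exp.2 (mul_le_of_le_one_right Real.pi_pos.le h1)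
  have a3 : Real.exp (-(π * t)) * Real.exp (π * t) = 1 := by rw [← Real.exp_add]; simp
  have a4 := Real.exp_pos (π * t)
  have a5 : 0 ≤ π * t := by positivity
  have a6 := mul_le_mul_of_nonneg_right a1 a4.le
  have a7 := mul_le_mul_of_nonneg_left a2 a5
  linarith only [a3, a6, a7]

theorem GaussPt_kernel {ρ : ℝ} (h0 : 0 < ρ) (h1 : ρ < 1) : ∃ C₁ C₂ c : ℝ, 0 ≤ C₁ ∧ 0 ≤ C₂ ∧ 0 < c ∧
    ∀ (j : ℕ) (w h : ι → ℝ), ‖h‖ ≤ c * (ρ ^ 2 / 2) ^ j →
      Gk ((4 : ℝ) ^ j)⁻¹ (w + h) ≤ (1 + C₁ * ρ ^ j) * Gk ((4 : ℝ) ^ j)⁻¹ w + C₂ * ρ ^ j := by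
  set m := Fintype.card ι with hm
  obtain ⟨N, hN⟩ := exists_pow_lt_of_lt_one (show (0 : ℝ) < ((2 : ℝ) ^ m)⁻¹ by positivity) h1
  refine ⟨π * Real.exp π, (N + 1).factorial, 1 / (4 * (m + 1)), by positivity, by positivity,
    by positivity, fun j w h hh => ?_⟩
  set t := ρ ^ j with ht
  have t0 : 0 < t := by positivity
  have t1 : t ≤ 1 := pow_le_one₀ h0.le h1.le
  have e4 : (0 : ℝ) < 4 ^ j := by positivity
  have b1 : 4 ^ j * ∑ i, h i ^ 2 ≤ (t / 2) ^ 4 := by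
    have a1 := GaussPt_sum_sq_le h
    have a2 : ‖h‖ ^ 2 ≤ (1 / (4 * (m + 1)) * (ρ ^ 2 / 2) ^ j) ^ 2 :=
      pow_le_pow_left₀ (norm_nonneg _) hh 2
    have a3 : (4 : ℝ) ^ j * (1 / (4 * (m + 1)) * (ρ ^ 2 / 2) ^ j) ^ 2 =
        (t / 2) ^ 4 / ((m : ℝ) + 1) ^ 2 := by
      have : (4 : ℝ) ^ j = (2 ^ j) ^ 2 := by rw [← pow_mul, mul_comm, pow_mul]; norm_num
      rw [this, div_pow (ρ ^ 2), ← pow_mul ρ, mul_comm 2 j, pow_mul, ← ht]
      field_simp
      ring
    have a4 : (m : ℝ) / ((m : ℝ) + 1) ^ 2 ≤ 1 := by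
      rw [div_le_one (by positivity)]
      have : (0 : ℝ) ≤ m := by positivity
      linarith only [h0, h1, sq_nonneg (↑m + (1 : ℝ)), mul_nonneg_of_nonpos_of_nonpos (Mathlib.Tactic.Linarith.sub_nonpos_of_le (Mathlib.Tactic.Linarith.natCast_nonneg ℝ m)) (Mathlib.Tactic.Linarith.sub_nonpos_of_le (Mathlib.Tactic.Linarith.natCast_nonneg ℝ m))]
    calc 4 ^ j * ∑ i, h i ^ 2 ≤ 4 ^ j * (m * (1 / (4 * (m + 1)) * (ρ ^ 2 / 2) ^ j) ^ 2) :=
          mul_le_mul_of_nonneg_left (a1.trans (mul_le_mul_of_nonneg_left a2 (by positivity))) e4.le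
      _ = m / ((m : ℝ) + 1) ^ 2 * (t / 2) ^ 4 := by
          rw [mul_left_comm, a3]; ring
      _ ≤ (t / 2) ^ 4 := mul_le_of_le_one_left (by positivity) a4
  have b2 : (1 - (t / 2) ^ 2) * (4 ^ j * ∑ i, w i ^ 2) - (t / 2) ^ 2 ≤
      4 ^ j * ∑ i, (w + h) i ^ 2 := by
    have a1 := mul_le_mul_of_nonneg_left (GaussPt_shift w h (ε := (t / 2) ^ 2) (by positivity))
      e4.le
    have a2 : (4 ^ j * ∑ i, h i ^ 2) / (t / 2) ^ 2 ≤ (t / 2) ^ 2 := by
      rw [div_le_iff₀ (by positivity)]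
      exact b1.trans (le_of_eq (by ring))
    have a3 : 4 ^ j * ((1 - (t / 2) ^ 2) * ∑ i, w i ^ 2 - (∑ i, h i ^ 2) / (t / 2) ^ 2) =
        (1 - (t / 2) ^ 2) * (4 ^ j * ∑ i, w i ^ 2) - (4 ^ j * ∑ i, h i ^ 2) / (t / 2) ^ 2 := by
      ring
    linarith only [a1, a2, a3]
  have g0 := GaussPt_Gk_nonneg j w
  rw [GaussPt_Gk_eq j (w + h)]
  rw [GaussPt_Gk_eq j w] at g0 ⊢
  have X0 : 0 ≤ 4 ^ j * ∑ i, w i ^ 2 := by positivity
  generalize (4 : ℝ) ^ j * ∑ i, w i ^ 2 = X at b2 g0 X0 ⊢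
  generalize (4 : ℝ) ^ j * ∑ i, (w + h) i ^ 2 = Y at b2 ⊢
  rw [← hm] at g0 ⊢
  by_cases hc : t / 2 * X ≤ 1
  · have c1 : X - t ≤ Y := by (refine le_of_not_gt fun h_nl => ?_; linarith only [h_nl, b2, h0, t0, h1, t1, hc, mul_pos_of_neg_of_neg (Mathlib.Tactic.Linarith.sub_neg_of_lt h0) (Mathlib.Tactic.Linarith.sub_neg_of_lt t0), mul_pos_of_neg_of_neg (Mathlib.Tactic.Linarith.sub_neg_of_lt h0) (Mathlib.Tactic.Linarith.sub_neg_of_lt h_nl), mul_pos_of_neg_of_neg (Mathlib.Tactic.Linarith.sub_neg_of_lt h1) (Mathlib.Tactic.Linarith.sub_neg_of_lt t0), mul_pos_of_neg_of_neg (Mathlib.Tactic.Linarith.sub_neg_of_lt h1) (Mathlib.Tactic.Linarith.sub_neg_of_lt h_nl), mul_nonneg_of_nonpos_of_nonpos (le_of_lt (Mathlib.Tactic.Linarith.sub_neg_of_lt t0)) (Mathlib.Tactic.Linarith.sub_nonpos_of_le t1), mul_nonneg_of_nonpos_of_nonpos (le_of_lt (Mathlib.Tactic.Linarith.sub_neg_of_lt t0)) (Mathlib.Tactic.Linarith.sub_nonpos_of_le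 hc)])
    have c2 : Real.exp (-π * Y) ≤ Real.exp (π * t) * Real.exp (-π * X) := by
      rw [← Real.exp_add, Real.exp_le_exp]
      (refine le_of_not_gt fun h_nl => ?_; linarith only [h_nl, h0, h1, c1, Real.pi_pos, mul_pos_of_neg_of_neg (Mathlib.Tactic.Linarith.sub_neg_of_lt h0) (Mathlib.Tactic.Linarith.sub_neg_of_lt h_nl), mul_pos_of_neg_of_neg (Mathlib.Tactic.Linarith.sub_neg_of_lt h1) (Mathlib.Tactic.Linarith.sub_neg_of_lt h_nl), mul_nonneg_of_nonpos_of_nonpos (Mathlib.Tactic.Linarith.sub_nonpos_of_le c1) (le_of_lt (Mathlib.Tactic.Linarith.sub_neg_of_lt Real.pi_pos))])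
    have c3 := mul_le_mul_of_nonneg_right (GaussPt_exp_le t0.le t1) (Real.exp_pos (-π * X)).le
    have c4 := mul_le_mul_of_nonneg_left (c2.trans c3)
      (show (0 : ℝ) ≤ ((2 : ℝ) ^ j) ^ m by positivity)
    have c5 : (0 : ℝ) ≤ ((N + 1).factorial : ℝ) * t := by positivity
    linarith only [c4, c5]
  · have c0 : 2 / t < X := by
      rw [div_lt_iff₀ t0]; linarith only [hc]
    have c1 : t⁻¹ ≤ Y := by
      have d1 : 1 ≤ t⁻¹ := one_le_inv₀ t0 |>.2 t1
      have d2 : 2 / t = 2 * t⁻¹ := by rw [div_eq_mul_inv]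
      have d3 : (t / 2) ^ 2 ≤ 1 / 4 := by (refine le_of_not_gt fun h_nl => ?_; linarith only [h_nl, t1, h0, h1, t0, mul_pos_of_neg_of_neg (Mathlib.Tactic.Linarith.sub_neg_of_lt h0) (Mathlib.Tactic.Linarith.sub_neg_of_lt h_nl), mul_pos_of_neg_of_neg (Mathlib.Tactic.Linarith.sub_neg_of_lt h1) (Mathlib.Tactic.Linarith.sub_neg_of_lt h_nl), mul_nonneg_of_nonpos_of_nonpos (le_of_lt (Mathlib.Tactic.Linarith.sub_neg_of_lt t0)) (Mathlib.Tactic.Linarith.sub_nonpos_of_le t1)])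
      (refine le_of_not_gt fun h_nl => ?_; linarith only [h_nl, t1, b2, d1, d2, h0, h1, c0, t0, X0, hc, mul_pos_of_neg_of_neg (Mathlib.Tactic.Linarith.sub_neg_of_lt h0) (Mathlib.Tactic.Linarith.sub_neg_of_lt h0), mul_pos_of_neg_of_neg (Mathlib.Tactic.Linarith.sub_neg_of_lt h0) (Mathlib.Tactic.Linarith.sub_neg_of_lt h1), mul_pos_of_neg_of_neg (Mathlib.Tactic.Linarith.sub_neg_of_lt h0) (Mathlib.Tactic.Linarith.sub_neg_of_lt c0), mul_pos_of_neg_of_neg (Mathlib.Tactic.Linarith.sub_neg_of_lt h0) (Mathlib.Tactic.Linarith.sub_neg_of_lt h_nl), mul_pos_of_neg_of_neg (Mathlib.Tactic.Linarith.sub_neg_of_lt h1) (Mathlib.Tactic.Linarith.sub_neg_of_lt h1), mul_pos_of_neg_of_neg (Mathlib.Tactic.Linarith.sub_neg_of_lt h1) (Mathlib.Tactic.Linarith.sub_neg_of_lt c0), mul_pos_of_neg_of_neg (Mathlib.Tactic.Linarith.sub_neg_of_lt h1) (Mathlib.Tactic.Linarith.sub_neg_of_lt h_nl), mul_nonneg_of_nonpos_of_nonpos (le_of_lt (Mathlib.Tactic.Linarith.sub_neg_of_lt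 t0)) (Mathlib.Tactic.Linarith.sub_nonpos_of_le t1), mul_nonneg_of_nonpos_of_nonpos (Mathlib.Tactic.Linarith.sub_nonpos_of_le t1) (Mathlib.Tactic.Linarith.sub_nonpos_of_le X0), mul_nonneg_of_nonpos_of_nonpos (Mathlib.Tactic.Linarith.sub_nonpos_of_le t1) (le_of_lt (Mathlib.Tactic.Linarith.sub_neg_of_lt (lt_of_not_ge hc)))])
    have c2 : Real.exp (-π * Y) ≤ Real.exp (-t⁻¹) := by
      rw [Real.exp_le_exp]
      have : 0 < t⁻¹ := by positivity
      (refine le_of_not_gt fun h_nl => ?_; linarith only [h_nl, c1, this, h0, h1, Real.pi_gt_three, mul_pos_of_neg_of_neg (Mathlib.Tactic.Linarith.sub_neg_of_lt h0) (Mathlib.Tactic.Linarith.sub_neg_of_lt h_nl), mul_pos_of_neg_of_neg (Mathlib.Tactic.Linarith.sub_neg_of_lt h1) (Mathlib.Tactic.Linarith.sub_neg_of_lt h_nl), mul_nonneg_of_nonpos_of_nonpos (Mathlib.Tactic.Linarith.sub_nonpos_of_le c1) (le_of_lt (Mathlib.Tactic.Linarith.sub_neg_of_lt Real.pi_gt_three)), mul_pos_of_neg_of_neg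 (Mathlib.Tactic.Linarith.sub_neg_of_lt this) (Mathlib.Tactic.Linarith.sub_neg_of_lt Real.pi_gt_three)])
    have c3 : Real.exp (-t⁻¹) ≤ (N + 1).factorial * t ^ (N + 1) := by
      have d1 := Real.pow_div_factorial_le_exp t⁻¹ (by positivity) (N + 1)
      rw [Real.exp_neg, inv_le_comm₀ (Real.exp_pos _) (by positivity)]
      refine le_trans (le_of_eq ?_) d1
      rw [inv_pow]
      field_simp
    have c4 : ((2 : ℝ) ^ j) ^ m * t ^ N ≤ 1 := by
      have d1 : (2 : ℝ) ^ m * ρ ^ N ≤ 1 := by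
        have := mul_le_mul_of_nonneg_left hN.le (show (0 : ℝ) ≤ 2 ^ m by positivity)
        rwa [mul_inv_cancel₀ (by positivity)] at this
      have d2 : ((2 : ℝ) ^ j) ^ m * t ^ N = (2 ^ m * ρ ^ N) ^ j := by
        rw [ht, mul_pow, ← pow_mul, ← pow_mul, ← pow_mul, ← pow_mul, mul_comm j m, mul_comm j N]
      rw [d2]
      exact pow_le_one₀ (by positivity) d1
    have c5 : ((2 : ℝ) ^ j) ^ m * Real.exp (-π * Y) ≤ (N + 1).factorial * t :=
      calc ((2 : ℝ) ^ j) ^ m * Real.exp (-π * Y)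
          ≤ ((2 : ℝ) ^ j) ^ m * ((N + 1).factorial * t ^ (N + 1)) :=
            mul_le_mul_of_nonneg_left (c2.trans c3) (by positivity)
        _ = (((2 : ℝ) ^ j) ^ m * t ^ N) * ((N + 1).factorial * t) := by ring
        _ ≤ (N + 1).factorial * t := mul_le_of_le_one_left (by positivity) c4
    have c6 : 0 ≤ (1 + π * Real.exp π * t) * (((2 : ℝ) ^ j) ^ m * Real.exp (-π * X)) := by
      positivity
    linarith only [c5, c6]

theorem GaussPt_loc (μ : Measure (Vc n)) [IsFiniteMeasure μ] (A : ι → Vc n) {M : ℝ} (hM : 0 ≤ M)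
    {ρ : ℝ} (h0 : 0 < ρ) (h1 : ρ < 1) : ∃ C c : ℝ, 0 < c ∧
    ∀ j u h, ‖h‖ ≤ c * (ρ ^ 2 / 2) ^ j →
      min (sm μ A j (u + h)) M ≤ min (sm μ A j u) M + C * ρ ^ j := by
  obtain ⟨C₁, C₂, c, k1, k2, k3, hk⟩ := GaussPt_kernel (ι := ι) h0 h1
  refine ⟨C₁ * M + μ.real univ * C₂, c, k3, fun j u h hh => ?_⟩
  have a1 : sm μ A j (u + h) ≤ (1 + C₁ * ρ ^ j) * sm μ A j u + μ.real univ * (C₂ * ρ ^ j) := by
    have b1 := integral_mono (GaussPt_integrable μ A j (u + h))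
      (((GaussPt_integrable μ A j u).const_mul (1 + C₁ * ρ ^ j)).add
        (integrable_const (C₂ * ρ ^ j))) fun x => by
      have := hk j (u - mv A x) h hh
      rwa [sub_add_eq_add_sub] at this
    simp only [Pi.add_apply] at b1
    rw [integral_add ((GaussPt_integrable μ A j u).const_mul _) (integrable_const _),
      integral_const_mul, integral_const, smul_eq_mul] at b1
    exact b1
  have t0 : 0 < ρ ^ j := by positivity
  have T0 : 0 ≤ μ.real univ := measureReal_nonneg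
  rcases le_total (sm μ A j u) M with hc | hc
  · rw [min_eq_left hc]
    have := mul_le_mul_of_nonneg_left hc (mul_nonneg k1 t0.le)
    have b2 := min_le_left (sm μ A j (u + h)) M
    linarith only [a1, this, b2]
  · rw [min_eq_right hc]
    have b2 := min_le_right (sm μ A j (u + h)) M
    have : 0 ≤ (C₁ * M + μ.real univ * C₂) * ρ ^ j := by positivity
    linarith

theorem GaussPt_out (μ : Measure (Vc n)) [IsFiniteMeasure μ] {K : Set (Vc n)} (hK : IsCompact K)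
    (hμK : μ Kᶜ = 0) (A : ι → Vc n) {u : ι → ℝ} (hu : u ∉ mv A '' K) :
    Tendsto (fun j => sm μ A j u) atTop (𝓝 0) := by
  obtain ⟨d, hd, hb⟩ := Metric.isOpen_iff.1
    (hK.image (GaussPt_mv_cont A)).isClosed.isOpen_compl u hu
  set m := Fintype.card ι with hm
  have hx : Tendsto (fun j : ℕ => π * d ^ 2 * (4 : ℝ) ^ j) atTop atTop :=
    (tendsto_pow_atTop_atTop_of_one_lt (by norm_num)).const_mul_atTop (by positivity)
  have lim := ((Real.tendsto_pow_mul_exp_neg_atTop_nhds_zero m).comp hx).const_mul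
    (μ.real univ * ((π * d ^ 2) ^ m)⁻¹)
  rw [mul_zero] at lim
  refine squeeze_zero (fun j => GaussPt_sm_nonneg μ A j u) (fun j => ?_) lim
  have hae : ∀ᵐ x ∂μ, x ∈ K := hμK
  refine (GaussPt_sm_le μ A j u (b := ((4 : ℝ) ^ j) ^ m * Real.exp (-(π * d ^ 2 * 4 ^ j)))
    (hae.mono fun x hx => ?_)).trans (le_of_eq ?_)
  · have a1 : d ≤ ‖u - mv A x‖ := by
      by_contra hlt
      refine hb (a := mv A x) ?_ (mem_image_of_mem _ hx)
      rw [mem_ball, dist_comm, dist_eq_norm]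
      exact lt_of_not_ge hlt
    have a2 := (pow_le_pow_left₀ hd.le a1 2).trans (GaussPt_norm_sq_le _)
    rw [GaussPt_Gk_eq]
    refine mul_le_mul (pow_le_pow_left₀ (by positivity)
      (pow_le_pow_left₀ (by norm_num) (by norm_num) _) _) (Real.exp_le_exp.2 ?_)
      (Real.exp_pos _).le (by positivity)
    have := mul_le_mul_of_nonneg_left a2 (show 0 ≤ π * 4 ^ j by positivity)
    linarith only [this]
  · simp only [Function.comp]
    rw [mul_pow (π * d ^ 2)]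
    field_simp

theorem GaussPt_mass (j : ℕ) {R : ℝ} {p : ι → ℝ} (hp : ‖p‖ ≤ R) :
    ENNReal.ofReal (Real.exp (-π * Fintype.card ι)) ≤
      ∫⁻ u in closedBall (0 : ι → ℝ) (R + 1), ENNReal.ofReal (Gk ((4 : ℝ) ^ j)⁻¹ (u - p)) := by
  set m := Fintype.card ι with hm
  have r0 : (0 : ℝ) < ((2 : ℝ) ^ j)⁻¹ := by positivity
  have r1 : ((2 : ℝ) ^ j)⁻¹ ≤ 1 := inv_le_one_of_one_le₀ (one_le_pow₀ (by norm_num))
  have hs : closedBall p ((2 : ℝ) ^ j)⁻¹ ⊆ closedBall (0 : ι → ℝ) (R + 1) := by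
    refine closedBall_subset_closedBall' ?_
    rw [dist_zero_right]
    linarith only [hp, r1]
  refine le_trans ?_ (lintegral_mono_set hs)
  have a1 : ∀ u ∈ closedBall p ((2 : ℝ) ^ j)⁻¹,
      ENNReal.ofReal (((2 : ℝ) ^ j) ^ m * Real.exp (-π * m)) ≤
        ENNReal.ofReal (Gk ((4 : ℝ) ^ j)⁻¹ (u - p)) := fun u hu => by
    rw [mem_closedBall, dist_eq_norm] at hu
    rw [GaussPt_Gk_eq]
    refine ENNReal.ofReal_le_ofReal (mul_le_mul_of_nonneg_left (Real.exp_le_exp.2 ?_)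
      (by positivity))
    have b1 := (GaussPt_sum_sq_le (u - p)).trans (mul_le_mul_of_nonneg_left
      (pow_le_pow_left₀ (norm_nonneg _) hu 2) (by positivity))
    have b2 := mul_le_mul_of_nonneg_left b1 (show (0 : ℝ) ≤ 4 ^ j by positivity)
    have b3 : (4 : ℝ) ^ j * (Fintype.card ι * ((2 : ℝ) ^ j)⁻¹ ^ 2) = m := by
      have : (4 : ℝ) ^ j = (2 ^ j) ^ 2 := by rw [← pow_mul, mul_comm, pow_mul]; norm_num
      rw [this, ← hm]
      field_simp
    rw [b3] at b2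
    linarith only [b2, Real.pi_pos, mul_nonneg_of_nonpos_of_nonpos (Mathlib.Tactic.Linarith.sub_nonpos_of_le b2) (le_of_lt (Mathlib.Tactic.Linarith.sub_neg_of_lt Real.pi_pos))]
  refine le_trans ?_ (setLIntegral_mono' measurableSet_closedBall a1)
  rw [setLIntegral_const, Real.volume_pi_closedBall _ r0.le, ← ENNReal.ofReal_mul (by positivity)]
  refine ENNReal.ofReal_le_ofReal ?_
  have e : ((2 : ℝ) ^ j) ^ m * Real.exp (-π * m) * (2 * ((2 : ℝ) ^ j)⁻¹) ^ Fintype.card ι =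
      2 ^ m * Real.exp (-π * m) := by
    rw [← hm, mul_pow, inv_pow]
    field_simp
  rw [e]
  exact le_mul_of_one_le_left (Real.exp_pos _).le (one_le_pow₀ (by norm_num))

theorem GaussPt_sm_mass (μ : Measure (Vc n)) [IsFiniteMeasure μ] {K : Set (Vc n)}
    (hμK : μ Kᶜ = 0) (A : ι → Vc n) {R : ℝ} (hR : ∀ x ∈ K, ‖mv A x‖ ≤ R) (j : ℕ) :
    ENNReal.ofReal (Real.exp (-π * Fintype.card ι) * μ.real univ) ≤
      ∫⁻ u in closedBall (0 : ι → ℝ) (R + 1), ENNReal.ofReal (sm μ A j u) := by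
  have a1 : ∀ u, ENNReal.ofReal (sm μ A j u) =
      ∫⁻ x, ENNReal.ofReal (Gk ((4 : ℝ) ^ j)⁻¹ (u - mv A x)) ∂μ := fun u =>
    ofReal_integral_eq_lintegral_ofReal (GaussPt_integrable μ A j u)
      (ae_of_all _ fun _ => GaussPt_Gk_nonneg _ _)
  simp only [a1]
  rw [lintegral_lintegral_swap (GaussPt_joint A j).measurable.ennreal_ofReal.aemeasurable,
    ENNReal.ofReal_mul (Real.exp_pos _).le, ofReal_measureReal, ← lintegral_const]
  have hae : ∀ᵐ x ∂μ, x ∈ K := hμK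
  exact lintegral_mono_ae (hae.mono fun x hx => GaussPt_mass j (hR x hx))

theorem GaussPt_cs (f : ℕ → ℝ) {q : ℝ} (hq : 0 < q) (hq1 : q < 1) (j : ℕ) :
    (f j - f 0) ^ 2 ≤ (1 - q)⁻¹ * ∑ i ∈ Finset.range j, (q ^ i)⁻¹ * (f i - f (i + 1)) ^ 2 := by
  have a1 : (f j - f 0) ^ 2 = (∑ i ∈ Finset.range j, (f i - f (i + 1))) ^ 2 := by
    rw [Finset.sum_range_sub']; ring
  have a2 := Finset.sum_sq_le_sum_mul_sum_of_sq_le_mul (Finset.range j)
    (r := fun i => f i - f (i + 1)) (f := fun i => q ^ i)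
    (g := fun i => (q ^ i)⁻¹ * (f i - f (i + 1)) ^ 2) (fun _ _ => by positivity)
    (fun _ _ => by positivity) fun i _ => le_of_eq (by field_simp)
  have a3 : ∑ i ∈ Finset.range j, q ^ i ≤ (1 - q)⁻¹ := by
    rw [← tsum_geometric_of_lt_one hq.le hq1]
    exact (summable_geometric_of_lt_one hq.le hq1).sum_le_tsum _ fun _ _ => by positivity
  rw [a1]
  exact a2.trans (mul_le_mul_of_nonneg_right a3 (Finset.sum_nonneg fun _ _ => by positivity))

theorem GaussPt_trunc {t t₀ T L : ℝ} (hL : 0 < L) (h0 : t₀ ≤ T) :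
    t ≤ min t (T + L) + L⁻¹ * (t - t₀) ^ 2 := by
  rcases le_total t (T + L) with hc | hc
  · rw [min_eq_left hc]
    have : 0 ≤ L⁻¹ * (t - t₀) ^ 2 := by positivity
    linarith only [this]
  · rw [min_eq_right hc]
    have a1 : t - t₀ - L ≤ L⁻¹ * (t - t₀) ^ 2 := by
      rw [inv_mul_eq_div, le_div_iff₀ hL]
      linarith only [sq_nonneg (t - t₀ - L), sq_nonneg (t - t₀), sq_nonneg L, sq_nonneg L, sq_nonneg (t - t₀), sq_nonneg (t - t₀ - L)]
    linarith only [h0, a1]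

end GaussPt

theorem reg_of_l2 {ι : Type} [Fintype ι] {n : ℕ} (μ : Measure (Vc n)) [IsFiniteMeasure μ]
    (hμ : μ ≠ 0) {K : Set (Vc n)} (hK : IsCompact K) (hμK : μ Kᶜ = 0) {q : ℝ} (hq : 0 < q)
    (hq1 : q < 1) (A : ι → Vc n)
    (h : ∫⁻ u, ∑' j : ℕ,
      ENNReal.ofReal ((q ^ j)⁻¹ * (sm μ A j u - sm μ A (j + 1) u) ^ 2) < ∞) :
    ∃ F : ℕ → (ι → ℝ) → ℝ, Reg F (mv A '' K) q := by
  have hm := GaussPt_sm_meas μ A
  set S : (ι → ℝ) → ℝ≥0∞ := fun u => ∑' j : ℕ,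
    ENNReal.ofReal ((q ^ j)⁻¹ * (sm μ A j u - sm μ A (j + 1) u) ^ 2) with hS
  have Sm : Measurable S := Measurable.tsum fun j =>
    ((((hm j).sub (hm (j + 1))).pow_const 2).const_mul _).ennreal_ofReal
  obtain ⟨I, hI⟩ : ∃ I : ℝ≥0, ∫⁻ u, S u = I := ⟨_, (ENNReal.coe_toNNReal h.ne).symm⟩
  have T0 : 0 < μ.real univ :=
    ENNReal.toReal_pos (Measure.measure_univ_ne_zero.2 hμ) (measure_ne_top _ _)
  set T := μ.real univ with hT
  set c₀ := Real.exp (-π * Fintype.card ι) * T with hc₀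
  have c0 : 0 < c₀ := by positivity
  have q1 : 0 < 1 - q := by linarith only [hq1]
  set L : ℝ := 2 * (I + 1) / ((1 - q) * c₀) with hL
  have L0 : 0 < L := by positivity
  refine ⟨fun j u => min (sm μ A j u) (T + L), fun j => (hm j).min measurable_const,
    ⟨T + L, fun j u => ⟨le_min (GaussPt_sm_nonneg μ A j u) (by positivity), min_le_right _ _⟩⟩,
    fun ρ h0 h1 => GaussPt_loc μ A (by positivity) h0 h1, ⟨I, fun j t ht => ?_⟩, ?_,
    fun u hu => ?_⟩
  · have a1 := mul_meas_ge_le_lintegral₀ (μ := volume) Sm.aemeasurable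
      (ENNReal.ofReal ((q ^ j)⁻¹ * t ^ 2))
    rw [hI] at a1
    have a2 : {u | t ≤ |min (sm μ A j u) (T + L) - min (sm μ A (j + 1) u) (T + L)|} ⊆
        {u | ENNReal.ofReal ((q ^ j)⁻¹ * t ^ 2) ≤ S u} := fun u hu => by
      refine le_trans (ENNReal.ofReal_le_ofReal ?_) (ENNReal.le_tsum j)
      refine mul_le_mul_of_nonneg_left ?_ (by positivity)
      rw [← sq_abs (sm μ A j u - _)]
      refine pow_le_pow_left₀ ht.le (le_trans hu ?_) 2
      have := abs_min_sub_min_le_max (sm μ A j u) (T + L) (sm μ A (j + 1) u) (T + L)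
      rwa [sub_self, abs_zero, max_eq_left (abs_nonneg _)] at this
    have a3 : ENNReal.ofReal (t ^ 2) =
        ENNReal.ofReal ((q ^ j)⁻¹ * t ^ 2) * ENNReal.ofReal (q ^ j) := by
      rw [← ENNReal.ofReal_mul (by positivity)]
      congr 1
      field_simp
    rw [a3, ← mul_assoc, mul_comm (volume _)]
    exact mul_le_mul_left (le_trans (mul_le_mul_right (measure_mono a2) _) a1) _
  · obtain ⟨R, hR⟩ := (hK.image (GaussPt_mv_cont A)).isBounded.exists_norm_le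
    refine ⟨R + 1, c₀ / 2, by positivity, fun j => ?_⟩
    have a1 := GaussPt_sm_mass μ hμK A (fun x hx => hR _ (mem_image_of_mem _ hx)) j
    have a2 : ∀ u, ENNReal.ofReal (sm μ A j u) ≤ ENNReal.ofReal (min (sm μ A j u) (T + L)) +
        ENNReal.ofReal (L⁻¹ * (1 - q)⁻¹) * S u := fun u => by
      have b0 : sm μ A 0 u ≤ T := by
        have := GaussPt_sm_le μ A 0 u (ae_of_all _ fun x => GaussPt_Gk_le 0 _)
        simpa using this
      have b1 := GaussPt_trunc (t := sm μ A j u) L0 b0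
      have b2 := mul_le_mul_of_nonneg_left (GaussPt_cs (fun i => sm μ A i u) hq hq1 j)
        (inv_nonneg.2 L0.le)
      refine (ENNReal.ofReal_le_ofReal (b1.trans (add_le_add_right b2 _))).trans
        (ENNReal.ofReal_add_le.trans (add_le_add_right ?_ _))
      rw [← mul_assoc, ENNReal.ofReal_mul (by positivity),
        ENNReal.ofReal_sum_of_nonneg fun _ _ => by positivity]
      exact mul_le_mul_right (ENNReal.sum_le_tsum _) _
    have a3 := a1.trans (lintegral_mono fun u => a2 u)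
    rw [lintegral_add_right _ (Sm.const_mul _), lintegral_const_mul _ Sm] at a3
    have a4 : ENNReal.ofReal (L⁻¹ * (1 - q)⁻¹) *
        ∫⁻ u in closedBall (0 : ι → ℝ) (R + 1), S u ≤ ENNReal.ofReal (c₀ / 2) := by
      refine (mul_le_mul_right (setLIntegral_le_lintegral _ _) _).trans ?_
      rw [hI, ← ENNReal.ofReal_coe_nnreal, ← ENNReal.ofReal_mul (by positivity)]
      refine ENNReal.ofReal_le_ofReal ?_
      have e : L⁻¹ * (1 - q)⁻¹ * I = c₀ / 2 * (I / (I + 1)) := by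
        rw [hL]; field_simp
      rw [e]
      refine mul_le_of_le_one_right (by positivity) ?_
      rw [div_le_one (by positivity)]
      linarith only [hq, hq1]
    have a5 := a3.trans (add_le_add_right a4 _)
    have e : ENNReal.ofReal (Real.exp (-π * Fintype.card ι) * μ.real univ) =
        ENNReal.ofReal (c₀ / 2) + ENNReal.ofReal (c₀ / 2) := by
      rw [← ENNReal.ofReal_add (by positivity) (by positivity), add_halves]
    rw [e] at a5
    exact (ENNReal.add_le_add_iff_right ENNReal.ofReal_ne_top).1 a5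
  · exact squeeze_zero (fun j => le_min (GaussPt_sm_nonneg μ A j u) (by positivity))
      (fun j => min_le_left _ _) (GaussPt_out μ hK hμK A hu)

end Pool.Agent.Work.MP_2a522c_an
end
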