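import Pool.Agent.Work.MP_2a522c_an.GaussPt
import Mathlib
import Pool.Agent.Work.MP_2a522c_an.Abs

-- merged part: Pool.Agent.Work.MP_2a522c_an.Cap
section
/-! Compact subsets of positive content -/

open MeasureTheory Metric Set Filter Topology
open scoped ENNReal NNReal Real

namespace Pool.Agent.Work.MP_2a522c_an

section aux
variable {n : ℕ}

/-- The weight of a cell. -/
noncomputable def Cap_wt (s : ℝ) (c : ℕ × (Fin n → ℤ)) : ℝ≥0∞ :=
  ENNReal.ofReal (((2 : ℝ) ^ c.1)⁻¹ ^ s)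

theorem Cap_le {s : ℝ} {A : Set (Vc n)} {U : Set (ℕ × (Fin n → ℤ))} (h : A ⊆ ⋃ c ∈ U, cell c) :
    cont s A ≤ ∑' c : U, Cap_wt s c.1 := iInf₂_le U h

theorem Cap_ex {s : ℝ} {A : Set (Vc n)} {c : ℝ≥0∞} (h : cont s A < c) :
    ∃ U : Set (ℕ × (Fin n → ℤ)), (A ⊆ ⋃ c ∈ U, cell c) ∧ ∑' c : U, Cap_wt s c.1 < c := by
  simpa only [cont, iInf_lt_iff, exists_prop, Cap_wt] using h

theorem Cap_wt_anti {s s' : ℝ} (h : s ≤ s') (c : ℕ × (Fin n → ℤ)) : Cap_wt s' c ≤ Cap_wt s c :=
  ENNReal.ofReal_le_ofReal (Real.rpow_le_rpow_of_exponent_ge (by positivity)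
    (inv_le_one_of_one_le₀ (one_le_pow₀ one_le_two)) h)

theorem Cap_wt_deep {s s' : ℝ} (h : s ≤ s') {j : ℕ} {c : ℕ × (Fin n → ℤ)} (hj : j ≤ c.1) :
    Cap_wt s' c ≤ ENNReal.ofReal ((2⁻¹ : ℝ) ^ (s' - s)) ^ j * Cap_wt s c := by
  rw [Cap_wt, Cap_wt, ← ENNReal.ofReal_pow (by positivity), ← ENNReal.ofReal_mul (by positivity)]
  refine ENNReal.ofReal_le_ofReal ?_
  have e : ((2 : ℝ) ^ c.1)⁻¹ ^ s' = ((2 : ℝ) ^ c.1)⁻¹ ^ (s' - s) * ((2 : ℝ) ^ c.1)⁻¹ ^ s := by
    rw [← Real.rpow_add (by positivity), sub_add_cancel]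
  rw [e, Real.rpow_pow_comm (by positivity), inv_pow]
  have := sub_nonneg.2 h
  gcongr
  exact one_le_two

theorem Cap_fin (R j : ℕ) :
    {c : ℕ × (Fin n → ℤ) | c.1 ≤ j ∧ ∃ x ∈ closedBall (0 : Vc n) R, x ∈ cell c}.Finite := by
  refine ((finite_Iic j).prod (finite_Icc (fun _ : Fin n => -(((R : ℤ) + 2) * 2 ^ j))
    fun _ => ((R : ℤ) + 2) * 2 ^ j)).subset ?_
  rintro ⟨k, z⟩ ⟨hk, x, hx, hc⟩
  have key : ∀ i, |z i| ≤ ((R : ℤ) + 2) * 2 ^ j := fun i => by
    have a : |x i| ≤ R := (norm_le_pi_norm x i).trans (mem_closedBall_zero_iff.1 hx)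
    have b : |x i - (z i : ℝ) / 2 ^ k| < 2 / 2 ^ k := (dist_le_pi_dist x _ i).trans_lt hc
    have p : (1 : ℝ) ≤ 2 ^ k := one_le_pow₀ one_le_two
    have q : (2 : ℝ) ^ k ≤ 2 ^ j := pow_le_pow_right₀ one_le_two hk
    have c : (2 : ℝ) / 2 ^ k ≤ 2 := div_le_self two_pos.le p
    have d : |(z i : ℝ) / 2 ^ k| ≤ R + 2 := by
      rw [abs_le] at a ⊢
      rw [abs_lt] at b
      constructor <;> linarith [a.1, a.2, b.1, b.2]
    rw [abs_div, abs_of_pos (by positivity : (0 : ℝ) < 2 ^ k), div_le_iff₀ (by positivity)] at d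
    have : |(z i : ℝ)| ≤ (R + 2) * 2 ^ j := d.trans (by gcongr)
    exact_mod_cast this
  exact ⟨hk, fun i => (abs_le.1 (key i)).1, fun i => (abs_le.1 (key i)).2⟩

/-- Increasing sets lemma, with a loss in the exponent. -/
theorem Cap_inc {A : ℕ → Set (Vc n)} (hA : Monotone A) {R : ℕ} (hR : ∀ i, A i ⊆ closedBall 0 R)
    {s s' : ℝ} (hs : s < s') {c : ℝ≥0∞} (hc : c ≠ ⊤) (h : ∀ i, cont s (A i) < c) :
    cont s' (⋃ i, A i) ≤ c := by
  choose U hU hS using fun i => Cap_ex (h i)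
  set W : Set (ℕ × (Fin n → ℤ)) := {x | ∀ᶠ i in (hyperfilter ℕ : Filter ℕ), x ∈ U i} with hW
  have a : ∑' x : W, Cap_wt s' x.1 ≤ c := by
    rw [ENNReal.tsum_eq_iSup_sum]
    refine iSup_le fun F => ?_
    obtain ⟨i, hi⟩ := ((eventually_all_finset F).2 fun x _ => x.2).exists
    rw [← Finset.tsum_subtype F fun x : W => Cap_wt s' x.1]
    refine le_trans ?_ (hS i).le
    exact (ENNReal.tsum_le_tsum fun x => Cap_wt_anti hs.le _).trans
      (ENNReal.tsum_comp_le_tsum_of_injective (f := fun x : F => (⟨x.1.1, hi x.1 x.2⟩ : U i))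
        (fun x y e => Subtype.ext (Subtype.ext (Subtype.mk.inj e))) fun x => Cap_wt s x.1)
  have b : ∀ i₀, ∀ η : ℝ≥0∞, 0 < η → ∃ T : Set (ℕ × (Fin n → ℤ)),
      (A i₀ ⊆ ⋃ x ∈ W ∪ T, cell x) ∧ ∑' x : T, Cap_wt s' x.1 ≤ η := fun i₀ η hη => by
    have t : Tendsto (fun j : ℕ => ENNReal.ofReal ((2⁻¹ : ℝ) ^ (s' - s)) ^ j * c) atTop (𝓝 0) := by
      simpa using ENNReal.Tendsto.mul_const (ENNReal.tendsto_pow_atTop_nhds_zero_of_lt_one
        (ENNReal.ofReal_lt_one.2 (Real.rpow_lt_one (by norm_num) (by norm_num) (sub_pos.2 hs))))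
        (.inr hc)
    obtain ⟨j, hj⟩ := (t.eventually (ge_mem_nhds hη)).exists
    have e : ∀ᶠ i in (hyperfilter ℕ : Filter ℕ), ∀ x ∈ {c : ℕ × (Fin n → ℤ) |
        c.1 ≤ j ∧ ∃ x ∈ closedBall (0 : Vc n) R, x ∈ cell c}, x ∈ U i → x ∈ W :=
      (eventually_all_finite (Cap_fin R j)).2 fun x _ => by
        by_cases k : x ∈ W
        · exact Eventually.of_forall fun _ _ => k
        · exact (Ultrafilter.eventually_not.2 k).mono fun i l m => (l m).elim
    obtain ⟨i, hi, hi'⟩ := (e.and (Nat.hyperfilter_le_atTop (eventually_ge_atTop i₀))).exists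
    refine ⟨{x | x ∈ U i ∧ j ≤ x.1}, fun y hy => ?_, le_trans ?_ hj⟩
    · obtain ⟨x, p, q⟩ := mem_iUnion₂.1 (hU i (hA hi' hy))
      refine mem_biUnion (x := x) ?_ q
      rcases le_total x.1 j with l | l
      exacts [.inl (hi x ⟨l, y, hR _ hy, q⟩ p), .inr ⟨p, l⟩]
    · refine (ENNReal.tsum_le_tsum fun x => Cap_wt_deep hs.le x.2.2).trans ?_
      rw [ENNReal.tsum_mul_left]
      exact mul_le_mul_right
        ((ENNReal.tsum_mono_subtype (Cap_wt s) fun x hx => hx.1).trans (hS i).le) _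
  refine ENNReal.le_of_forall_pos_le_add fun ε hε _ => ?_
  obtain ⟨η, h0, h1⟩ := ENNReal.exists_pos_sum_of_countable' (ENNReal.coe_pos.2 hε).ne' ℕ
  choose T hT hT' using fun i => b i (η i) (h0 i)
  refine (Cap_le (U := W ∪ ⋃ i, T i) (iUnion_subset fun i => (hT i).trans
    (biUnion_subset_biUnion_left (union_subset_union_right _ (subset_iUnion T i))))).trans ?_
  exact (ENNReal.tsum_union_le (Cap_wt s') _ _).trans (add_le_add a
    ((ENNReal.tsum_iUnion_le_tsum (Cap_wt s') T).trans ((ENNReal.tsum_le_tsum hT').trans h1.le)))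

theorem Cap_pos {E : Set (Vc n)} {s : ℝ≥0} (hs : 0 < s) (h : (s : ℝ≥0∞) < dimH E) :
    0 < cont s E := by
  rw [pos_iff_ne_zero]
  intro h0
  have hs' : (0 : ℝ) < s := hs
  have p : ∀ k : ℕ, (0 : ℝ) < 1 / ((k : ℝ) + 1) := fun k => by positivity
  choose U hU hS using fun k : ℕ => Cap_ex (s := s) (A := E)
    (c := ENNReal.ofReal ((1 / ((k : ℝ) + 1)) ^ (s : ℝ)))
    (h0 ▸ ENNReal.ofReal_pos.2 (Real.rpow_pos_of_pos (p k) _))
  have d : ∀ c : ℕ × (Fin n → ℤ), ediam (cell c) ≤ ENNReal.ofReal (4 * ((2 : ℝ) ^ c.1)⁻¹) :=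
    fun c => ediam_le_of_forall_dist_le fun x hx y hy => by
      have := dist_triangle_right x y fun i => (c.2 i : ℝ) / 2 ^ c.1
      have a : dist x _ < 2 / 2 ^ c.1 := hx
      have b : dist y _ < 2 / 2 ^ c.1 := hy
      rw [div_eq_mul_inv] at a b
      linarith
  have := Measure.hausdorffMeasure_le_liminf_tsum (s : ℝ) E (l := atTop)
    (fun k : ℕ => ENNReal.ofReal (4 * (1 / ((k : ℝ) + 1))))
    (by simpa using ENNReal.tendsto_ofReal (tendsto_one_div_add_atTop_nhds_zero_nat.const_mul 4))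
    (fun k (c : U k) => cell c.1) (Eventually.of_forall fun k c => (d _).trans (by
      have := ((ENNReal.ofReal_lt_ofReal_iff (Real.rpow_pos_of_pos (p k) _)).1
        ((ENNReal.le_tsum c).trans_lt (hS k))).le
      rw [Real.rpow_le_rpow_iff (by positivity) (p k).le hs'] at this
      gcongr))
    (Eventually.of_forall fun k => (hU k).trans_eq (biUnion_eq_iUnion _ _))
  rw [hausdorffMeasure_of_lt_dimH h] at this
  refine (this.trans_lt (lt_of_le_of_lt (liminf_le_of_frequently_le' (Frequently.of_forall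
    fun k => ?_)) (ENNReal.ofReal_lt_top (r := 4 ^ (s : ℝ))))).false
  calc ∑' c : U k, ediam (cell c.1) ^ (s : ℝ)
      ≤ ∑' c : U k, ENNReal.ofReal (4 ^ (s : ℝ)) * Cap_wt s c.1 := ENNReal.tsum_le_tsum fun c => by
        rw [Cap_wt, ← ENNReal.ofReal_mul (by positivity),
          ← Real.mul_rpow (by positivity) (by positivity),
          ← ENNReal.ofReal_rpow_of_nonneg (by positivity) hs'.le]
        exact ENNReal.rpow_le_rpow (d _) hs'.le
    _ ≤ ENNReal.ofReal (4 ^ (s : ℝ)) := by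
        rw [ENNReal.tsum_mul_left]
        refine mul_le_of_le_one_right' ((hS k).le.trans (ENNReal.ofReal_le_one.2 ?_))
        refine Real.rpow_le_one (p k).le ?_ hs'.le
        rw [div_le_one (by positivity)]
        linarith [Nat.cast_nonneg (α := ℝ) k]

/-- An open set containing a product of finite intervals contains a cylinder over it. -/
theorem Cap_open (ν : ℕ → ℕ) {O : Set (ℕ → ℕ)} (hO : IsOpen O)
    (h : (univ.pi fun j => Iic (ν j)) ⊆ O) : ∃ i, {x | ∀ j < i, x j ≤ ν j} ⊆ O := by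
  by_contra hc
  push Not at hc
  choose x hx hx' using fun i => not_subset.1 (hc i)
  obtain ⟨y, hy, φ, hφ, t⟩ := (isCompact_univ_pi fun j => (finite_Iic (ν j)).isCompact).tendsto_subseq
    (x := fun i j => min (x i j) (ν j)) fun i j _ => mem_Iic.2 (min_le_right _ _)
  have t' : Tendsto (fun i => x (φ i)) atTop (𝓝 y) := tendsto_pi_nhds.2 fun j =>
    (tendsto_pi_nhds.1 t j).congr' ((eventually_gt_atTop j).mono fun i hi =>
      min_eq_left (hx _ j (hi.trans_le (hφ.id_le i))))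
  obtain ⟨i, hi⟩ := (t'.eventually (hO.mem_nhds (h hy))).exists
  exact hx' _ hi

theorem Cap_range {f : (ℕ → ℕ) → Vc n} (hf : Continuous f) {R : ℕ}
    (hR : range f ⊆ closedBall 0 R) {s s₀ : ℝ} (hs : s < s₀) {c : ℝ≥0∞}
    (h : c < cont s₀ (range f)) : ∃ K ⊆ range f, IsCompact K ∧ c ≤ cont s K := by
  let e : ℕ → ℝ := fun i => s + (s₀ - s) / (i + 1)
  have e0 : e 0 = s₀ := by simp [e]
  have e1 : ∀ i, s ≤ e i := fun i => le_add_of_nonneg_right (by
    have := sub_pos.2 hs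
    positivity)
  have e2 : ∀ i, e (i + 1) < e i := fun i => add_lt_add_right
    (div_lt_div_of_pos_left (sub_pos.2 hs) (by positivity) (by push_cast; linarith)) _
  have step : ∀ (i : ℕ) (T : Set (ℕ → ℕ)), ∃ m, c < cont (e i) (f '' T) →
      c < cont (e (i + 1)) (f '' (T ∩ {x | x i ≤ m})) := fun i T => by
    by_contra hc
    push Not at hc
    obtain ⟨c', a, b⟩ := exists_between (hc 0).1
    have := Cap_inc (A := fun m => f '' (T ∩ {x | x i ≤ m}))
      (fun m m' l => image_mono (inter_subset_inter_right _ fun x hx => le_trans hx l))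
      (fun m => (image_subset_range _ _).trans hR) (e2 i) (ne_top_of_lt b)
      fun m => (hc m).2.trans_lt a
    rw [← image_iUnion, ← inter_iUnion, eq_univ_of_forall (s := ⋃ m, {x : ℕ → ℕ | x i ≤ m})
      fun x => mem_iUnion.2 ⟨x i, le_refl (x i)⟩, inter_univ] at this
    exact b.not_ge this
  choose g hg using step
  let T : ℕ → Set (ℕ → ℕ) := fun i => Nat.rec univ (fun i T => T ∩ {x | x i ≤ g i T}) i
  have a : ∀ i, c < cont (e i) (f '' T i) := fun i => by
    induction i with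
    | zero => rwa [e0, show T 0 = univ from rfl, image_univ]
    | succ i ih => exact hg i _ ih
  have b : ∀ i, {x | ∀ j < i, x j ≤ g j (T j)} = T i := fun i => by
    induction i with
    | zero => exact eq_univ_of_forall fun x j hj => (Nat.not_lt_zero j hj).elim
    | succ i ih =>
      rw [show T (i + 1) = T i ∩ {x | x i ≤ g i (T i)} from rfl]
      conv_rhs => lhs; rw [← ih]
      ext x
      exact Nat.forall_lt_succ_right
  refine ⟨f '' univ.pi fun j => Iic (g j (T j)), image_subset_range _ _,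
    (isCompact_univ_pi fun j => (finite_Iic _).isCompact).image hf, le_iInf₂ fun U hU => ?_⟩
  obtain ⟨i, hi⟩ := Cap_open (fun j => g j (T j))
    ((isOpen_biUnion fun c _ => (isOpen_ball : IsOpen (cell c))).preimage hf)
    (image_subset_iff.1 hU)
  rw [b, ← image_subset_iff] at hi
  exact (a i).le.trans ((Cap_le hi).trans (ENNReal.tsum_le_tsum fun x => Cap_wt_anti (e1 i) _))

end aux

theorem exists_compact_cont {n : ℕ} {E : Set (Vc n)} (hE : MeasurableSet E) {s : ℝ} (hs : 0 < s)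
    (h : ENNReal.ofReal s < dimH E) : ∃ K ⊆ E, IsCompact K ∧ 0 < cont s K := by
  rw [← iUnion_inter_closedBall_nat E 0, dimH_iUnion, lt_iSup_iff] at h
  obtain ⟨R, h⟩ := h
  obtain ⟨s₀, a, b⟩ := ENNReal.lt_iff_exists_nnreal_btwn.1 h
  have a' : s < s₀ := (ENNReal.ofReal_lt_coe_iff hs.le).1 a
  obtain ⟨c, c0, c1⟩ := exists_between (Cap_pos (NNReal.coe_pos.1 (hs.trans a')) b)
  have := (hE.inter (measurableSet_closedBall (x := 0) (ε := R))).analyticSet
  rw [AnalyticSet] at this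
  rcases this with e | ⟨f, hf, e⟩
  · rw [e, dimH_empty] at h
    exact (not_lt_bot h).elim
  · rw [← e] at c1
    obtain ⟨K, p, q, r⟩ := Cap_range hf (e ▸ inter_subset_right) a' c1
    exact ⟨K, (p.trans e.subset).trans inter_subset_left, q, c0.trans_le r⟩

end Pool.Agent.Work.MP_2a522c_an
end

-- merged part: Pool.Agent.Work.MP_2a522c_an.Grass
section
/-! # The Grassmannian and its invariant measure -/

open MeasureTheory Metric Set Filter Topology
open scoped ENNReal NNReal InnerProductSpace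

namespace Pool.Agent.Work.MP_2a522c_an

/-- Euclidean space. -/
abbrev Eu (n : ℕ) := EuclideanSpace ℝ (Fin n)

/-- The Grassmannian of `l`-dimensional linear subspaces of `ℝⁿ`. -/
def Gr (n l : ℕ) := {V : Submodule ℝ (Eu n) // Module.finrank ℝ V = l}

/-- The usual topology: `V` is identified with the orthogonal projection onto `V`. -/
noncomputable instance (n l : ℕ) : TopologicalSpace (Gr n l) :=
  TopologicalSpace.induced (fun V => (V.1.starProjection : Eu n →L[ℝ] Eu n)) inferInstance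

/-- The Borel σ-algebra. -/
noncomputable instance (n l : ℕ) : MeasurableSpace (Gr n l) := borel _

/-- The action of the orthogonal group. -/
noncomputable def Gr.act {n l : ℕ} (g : Eu n ≃ₗᵢ[ℝ] Eu n) (V : Gr n l) : Gr n l :=
  ⟨V.1.map g.toLinearEquiv.toLinearMap, (LinearEquiv.finrank_map_eq _ _).trans V.2⟩

/-- A measurable form of the condition that the projection of `K` has interior points. -/
def GrassGood {n : ℕ} (K : Set (Eu n)) (P : Eu n →L[ℝ] Eu n) : Prop :=
  ∃ U ∈ TopologicalSpace.countableBasis (Eu n), ∀ w ∈ U, ∃ x ∈ K, P w = P x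

theorem grass_meas {n : ℕ} {K : Set (Eu n)} (hK : IsCompact K) {X : Type*} [TopologicalSpace X]
    [MeasurableSpace X] [OpensMeasurableSpace X] {f : X → Eu n →L[ℝ] Eu n} (hf : Continuous f) :
    MeasurableSet {x | GrassGood K (f x)} := by
  have e : {x | GrassGood K (f x)} = ⋃ U ∈ TopologicalSpace.countableBasis (Eu n),
      ⋂ w ∈ U, {x | ∃ y ∈ K, f x w = f x y} := by
    ext x
    simp [GrassGood]
  rw [e]
  refine MeasurableSet.biUnion (TopologicalSpace.countable_countableBasis _) fun U _ =>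
    (isClosed_biInter fun w _ => ?_).measurableSet
  have := isCompact_iff_compactSpace.1 hK
  have h := isClosedMap_fst_of_compactSpace {p : X × K | f p.1 w = f p.1 p.2}
    (isClosed_eq (by fun_prop) (by fun_prop))
  convert h using 1
  ext x
  simp

theorem grass_of_span {n l : ℕ} {K : Set (Eu n)} {v : Fin l → Eu n}
    (h : (interior ((fun x i => ⟪v i, x⟫_ℝ) '' K)).Nonempty) :
    GrassGood K (Submodule.span ℝ (range v)).starProjection := by
  obtain ⟨y, hy⟩ := h
  obtain ⟨x₀, -, rfl⟩ := interior_subset hy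
  have hc : Continuous fun (x : Eu n) i => ⟪v i, x⟫_ℝ := by fun_prop
  obtain ⟨U, hU, -, hs⟩ := (TopologicalSpace.isBasis_countableBasis (Eu n)).exists_subset_of_mem_open
    (a := x₀) (u := (fun x i => ⟪v i, x⟫_ℝ) ⁻¹' interior ((fun x i => ⟪v i, x⟫_ℝ) '' K)) hy
    (isOpen_interior.preimage hc)
  refine ⟨U, hU, fun w hw => ?_⟩
  obtain ⟨x, hx, e⟩ := interior_subset (hs hw)
  refine ⟨x, hx, ?_⟩
  rw [← sub_eq_zero, ← map_sub, Submodule.starProjection_apply_eq_zero_iff,
    Submodule.mem_orthogonal]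
  intro u hu
  induction hu using Submodule.span_induction with
  | mem u hu =>
    obtain ⟨i, rfl⟩ := hu
    rw [inner_sub_right, sub_eq_zero]
    exact (congrFun e i).symm
  | zero => exact inner_zero_left _
  | add a b _ _ ha hb => rw [inner_add_left, ha, hb, add_zero]
  | smul c a _ ha => rw [real_inner_smul_left, ha, mul_zero]

theorem grass_int {n : ℕ} {K : Set (Eu n)} {V : Submodule ℝ (Eu n)}
    (h : GrassGood K V.starProjection) : (interior (V.orthogonalProjectionOnto '' K)).Nonempty := by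
  obtain ⟨U, hU, h⟩ := h
  have ho : IsOpenMap V.orthogonalProjectionOnto := V.orthogonalProjectionOnto.isOpenMap fun u =>
    ⟨u, V.orthogonalProjectionOnto_mem_subspace_eq_self u⟩
  refine ((TopologicalSpace.nonempty_of_mem_countableBasis hU).image _).mono
    (interior_maximal ?_ (ho U (TopologicalSpace.isOpen_of_mem_countableBasis hU)))
  rintro _ ⟨w, hw, rfl⟩
  obtain ⟨x, hx, e⟩ := h w hw
  exact ⟨x, hx, Subtype.ext e.symm⟩

theorem grass_trans {n : ℕ} {V W : Submodule ℝ (Eu n)}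
    (h : Module.finrank ℝ V = Module.finrank ℝ W) :
    ∃ g : Eu n ≃ₗᵢ[ℝ] Eu n, V.map g.toLinearEquiv.toLinearMap = W := by
  let e : V ≃ₗᵢ[ℝ] W := (stdOrthonormalBasis ℝ V).repr.trans
    ((stdOrthonormalBasis ℝ W).reindex (finCongr h.symm)).repr.symm
  let L : V →ₗᵢ[ℝ] Eu n := W.subtypeₗᵢ.comp e.toLinearIsometry
  refine ⟨L.extend.toLinearIsometryEquiv rfl, le_antisymm ?_ fun w hw => ?_⟩
  · rintro _ ⟨x, hx, rfl⟩
    have h1 : L.extend x = e ⟨x, hx⟩ := L.extend_apply ⟨x, hx⟩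
    change L.extend x ∈ W
    rw [h1]
    exact (e ⟨x, hx⟩).2
  · refine ⟨e.symm ⟨w, hw⟩, (e.symm ⟨w, hw⟩).2, ?_⟩
    have h1 : L.extend (e.symm ⟨w, hw⟩) = e (e.symm ⟨w, hw⟩) := L.extend_apply _
    rw [e.apply_symm_apply] at h1
    exact h1

theorem grass_proj {n l : ℕ} (g : unitary (Eu n →L[ℝ] Eu n)) (V : Gr n l) :
    (Gr.act (Unitary.linearIsometryEquiv g) V).1.starProjection =
      g.1 * V.1.starProjection * star g.1 :=
  ContinuousLinearMap.ext fun x =>
    Submodule.starProjection_map_apply (Unitary.linearIsometryEquiv g) V.1 x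

theorem grass_ae {n l : ℕ} (γ : Measure (Gr n l)) [IsProbabilityMeasure γ]
    (hγ : ∀ (g : Eu n ≃ₗᵢ[ℝ] Eu n) (S : Set (Gr n l)), MeasurableSet S → γ (Gr.act g ⁻¹' S) = γ S)
    {K : Set (Eu n)} (hK : IsCompact K)
    (h : ∀ᵐ v : Fin l → Eu n, (interior ((fun x i => ⟪v i, x⟫_ℝ) '' K)).Nonempty) :
    ∀ᵐ V ∂γ, (interior (V.1.orthogonalProjectionOnto '' K)).Nonempty := by
  have : BorelSpace (Gr n l) := ⟨rfl⟩
  have : ContinuousStar (Eu n →L[ℝ] Eu n) :=
    ⟨(ContinuousLinearMap.adjoint : (Eu n →L[ℝ] Eu n) ≃ₗᵢ⋆[ℝ] (Eu n →L[ℝ] Eu n)).continuous⟩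
  let G := unitary (Eu n →L[ℝ] Eu n)
  let : MeasurableSpace G := borel G
  have : BorelSpace G := ⟨rfl⟩
  have : LocallyCompactSpace G :=
    isClosed_unitary.isClosedEmbedding_subtypeVal.locallyCompactSpace
  let θ : Measure G := Measure.haar.inv
  obtain ⟨N, hN, hNm, hN0⟩ := exists_measurable_superset_of_null h
  have h1 : ∀ g : G, ∀ᵐ v : Fin l → Eu n, (fun i => g.1 (v i)) ∉ N := fun g =>
    (volume_preserving_pi fun _ : Fin l =>
      (Unitary.linearIsometryEquiv g).measurePreserving).quasiMeasurePreserving.ae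
      (measure_eq_zero_iff_ae_notMem.1 hN0)
  have h2 : ∀ᵐ v : Fin l → Eu n, ∀ᵐ g ∂θ, (fun i => g.1 (v i)) ∉ N := by
    refine (Measure.ae_ae_comm ?_).1 (ae_of_all _ h1)
    have hc : Continuous fun (p : G × (Fin l → Eu n)) i => p.1.1 (p.2 i) := by fun_prop
    exact hc.measurable hNm.compl
  have h3 : ∀ V : Gr n l, ∀ᵐ g ∂θ,
      GrassGood K (Gr.act (Unitary.linearIsometryEquiv g) V).1.starProjection := by
    intro V
    obtain ⟨v, hv, hv'⟩ := (Measure.dense_of_ae h2).inter_open_nonempty _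
      (isOpen_setOfPred_linearIndependent (𝕜 := ℝ))
      ⟨fun i => (Module.finBasisOfFinrankEq ℝ V.1 V.2 i : Eu n),
        (Module.finBasisOfFinrankEq ℝ V.1 V.2).linearIndependent.map' V.1.subtype
          V.1.ker_subtype⟩
    obtain ⟨g₀, hg₀⟩ := grass_trans (V := Submodule.span ℝ (range v)) (W := V.1)
      (by rw [finrank_span_eq_card hv, Fintype.card_fin, V.2])
    filter_upwards [(measurePreserving_mul_right θ
      (Unitary.linearIsometryEquiv.symm g₀)).quasiMeasurePreserving.ae hv'] with g hg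
    have e : (Gr.act (Unitary.linearIsometryEquiv g) V).1 = Submodule.span ℝ
        (range fun i => (g * Unitary.linearIsometryEquiv.symm g₀).1 (v i)) := by
      change V.1.map _ = _
      rw [← hg₀, Submodule.map_span, Submodule.map_span, ← range_comp, ← range_comp]
      rfl
    simp only [e]
    exact grass_of_span (not_not.1 fun hn => hg (hN hn))
  have hP : Continuous fun V : Gr n l => (V.1.starProjection : Eu n →L[ℝ] Eu n) :=
    continuous_induced_dom
  have h4 : ∀ᵐ g ∂θ, ∀ᵐ V : Gr n l ∂γ,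
      GrassGood K (Gr.act (Unitary.linearIsometryEquiv g) V).1.starProjection := by
    refine (Measure.ae_ae_comm ?_).2 (ae_of_all _ h3)
    simp only [grass_proj]
    have hc : Continuous fun p : G × Gr n l => p.1.1 := continuous_subtype_val.comp continuous_fst
    exact grass_meas hK ((hc.mul (hP.comp continuous_snd)).mul hc.star)
  obtain ⟨g, hg⟩ := h4.exists
  have h5 : ∀ᵐ V : Gr n l ∂γ, GrassGood K V.1.starProjection :=
    (hγ _ _ (grass_meas hK hP).compl).symm.trans hg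
  exact h5.mono fun V hV => grass_int hV

end Pool.Agent.Work.MP_2a522c_an
end

-- merged part: Pool.Agent.Work.MP_2a522c_an.Main
section
/-! # Assembly -/

open MeasureTheory Metric Set Filter Topology
open scoped ENNReal NNReal Real InnerProductSpace

namespace Pool.Agent.Work.MP_2a522c_an

theorem kak_all {l : ℕ} (hl : 2 ≤ l) (k : ℕ) (hk : 1 ≤ k) : ∃ K, Kak k l K := by
  induction k, hk using Nat.le_induction with
  | base => exact kak_one hl
  | succ k _ ih => exact ih.elim fun _ h => kak_succ h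

theorem good_k (l : ℕ) : ∀ (N k : ℕ), l ≤ k + N → ∃ k', k ≤ k' ∧ ((l : ℝ) - 1) / 2 ^ k' < 2 ∧
    (k' : ℝ) + (l - 1) / 2 ^ k' ≤ k + (l - 1) / 2 ^ k := by
  intro N
  induction N with
  | zero =>
    intro k hk
    refine ⟨k, le_rfl, ?_, le_rfl⟩
    rw [div_lt_iff₀ (by positivity)]
    have h1 : (l : ℝ) ≤ k := by exact_mod_cast hk
    have h2 : (k : ℝ) < 2 ^ k := by exact_mod_cast Nat.lt_two_pow_self
    linarith [show (0 : ℝ) < 2 ^ k by positivity]
  | succ N ih =>
    intro k hk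
    by_cases h : ((l : ℝ) - 1) / 2 ^ k < 2
    · exact ⟨k, le_rfl, h, le_rfl⟩
    · obtain ⟨k', h1, h2, h3⟩ := ih (k + 1) (by omega)
      refine ⟨k', by omega, h2, h3.trans ?_⟩
      rw [pow_succ, ← div_div]
      push_cast
      linarith

theorem reg_sum {k l : ℕ} {F : ℕ → (Fin k ⊕ Fin l → ℝ) → ℝ} {K : Set (Fin k ⊕ Fin l → ℝ)} {q : ℝ}
    (h : Reg F K q) : Reg (X := Vc k × Vc l) (fun j p => F j (Sum.elim p.1 p.2))
      {p | Sum.elim p.1 p.2 ∈ K} q := by
  have e := volume_measurePreserving_sumPiEquivProdPi_symm (fun _ : Fin k ⊕ Fin l => ℝ)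
  have e1 : ∀ p : Vc k × Vc l, (MeasurableEquiv.sumPiEquivProdPi
      (fun _ : Fin k ⊕ Fin l => ℝ)).symm p = Sum.elim p.1 p.2 := fun p => by
    funext i
    rcases i with i | i <;> rfl
  have e2 : MeasurePreserving (fun p : Vc k × Vc l => Sum.elim p.1 p.2) volume volume := by
    simpa only [← e1] using e
  have n1 : ∀ p : Vc k × Vc l, ‖Sum.elim p.1 p.2‖ = ‖p‖ := fun p => by
    refine le_antisymm ((pi_norm_le_iff_of_nonneg (norm_nonneg _)).2 ?_) (max_le ?_ ?_)
    · rintro (i | i)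
      · exact (norm_le_pi_norm p.1 i).trans (norm_fst_le p)
      · exact (norm_le_pi_norm p.2 i).trans (norm_snd_le p)
    · exact (pi_norm_le_iff_of_nonneg (norm_nonneg _)).2 fun i =>
        norm_le_pi_norm (Sum.elim p.1 p.2) (Sum.inl i)
    · exact (pi_norm_le_iff_of_nonneg (norm_nonneg _)).2 fun i =>
        norm_le_pi_norm (Sum.elim p.1 p.2) (Sum.inr i)
  refine ⟨fun j => (h.meas j).comp e2.measurable, ?_, fun ρ h0 h1 => ?_, ?_, ?_,
    fun u hu => h.out _ hu⟩
  · obtain ⟨M, hM⟩ := h.bdd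
    exact ⟨M, fun j u => hM j _⟩
  · obtain ⟨C, c, c0, hc⟩ := h.loc ρ h0 h1
    refine ⟨C, c, c0, fun j u w hw => ?_⟩
    have : Sum.elim (u + w).1 (u + w).2 = Sum.elim u.1 u.2 + Sum.elim w.1 w.2 := by
      funext i
      rcases i with i | i <;> rfl
    rw [this]
    exact hc j _ _ (by rwa [n1])
  · obtain ⟨C, hC⟩ := h.sq
    refine ⟨C, fun j t ht => le_of_eq_of_le ?_ (hC j t ht)⟩
    congr 1
    exact e2.measure_preimage (s := {u | t ≤ |F j u - F (j + 1) u|}) (measurableSet_le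
      measurable_const (by have := h.meas j; have := h.meas (j + 1); fun_prop)).nullMeasurableSet
  · obtain ⟨R, c, c0, hc⟩ := h.low
    refine ⟨R, c, c0, fun j => (hc j).trans (le_of_eq ?_)⟩
    rw [← e2.setLIntegral_comp_preimage measurableSet_closedBall (h.meas j).ennreal_ofReal]
    congr 2
    ext p
    simp [n1]

theorem meas_good {n l : ℕ} {K : Set (Vc n)} (hK : IsCompact K) :
    MeasurableSet {A : Fin l → Vc n | (interior (mv A '' K)).Nonempty} := by
  obtain ⟨T, T0, T1⟩ := TopologicalSpace.exists_countable_dense (Vc l)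
  have e : {A : Fin l → Vc n | (interior (mv A '' K)).Nonempty} =
      ⋃ c ∈ T, ⋃ m : ℕ, ⋂ w ∈ ball c (1 / ((m : ℝ) + 1)), {A | w ∈ mv A '' K} := by
    ext A
    simp only [mem_ofPred_eq, mem_iUnion, mem_iInter]
    constructor
    · intro h
      obtain ⟨c, h1, h2⟩ := T1.inter_open_nonempty _ isOpen_interior h
      obtain ⟨ε, ε0, hε⟩ := Metric.isOpen_iff.1 isOpen_interior c h1
      obtain ⟨m, hm⟩ := exists_nat_one_div_lt ε0
      exact ⟨c, h2, m, fun w hw => interior_subset (hε (ball_subset_ball hm.le hw))⟩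
    · rintro ⟨c, -, m, h⟩
      exact ⟨c, interior_maximal h isOpen_ball (mem_ball_self (by positivity))⟩
  rw [e]
  refine MeasurableSet.biUnion T0 fun c _ => MeasurableSet.iUnion fun m =>
    (isClosed_biInter fun w _ => ?_).measurableSet
  have := isCompact_iff_compactSpace.1 hK
  have h1 : IsClosed {z : (Fin l → Vc n) × K | mv z.1 z.2 = w} :=
    isClosed_eq (continuous_pi fun i => continuous_finsetSum _ fun j _ =>
      ((continuous_apply j).comp ((continuous_apply i).comp continuous_fst)).mul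
        ((continuous_apply j).comp (continuous_subtype_val.comp continuous_snd))) continuous_const
  convert isClosedMap_fst_of_compactSpace _ h1 using 1
  ext A
  simp

theorem ae_matrix {n l k : ℕ} (hl : 2 ≤ l) (hk : 1 ≤ k) {E : Set (Vc n)} (hE : MeasurableSet E)
    (h : ENNReal.ofReal (l + k + (l - 1) / 2 ^ k) < dimH E) :
    ∃ K ⊆ E, IsCompact K ∧ ∀ᵐ A : Fin l → Vc n, (interior (mv A '' K)).Nonempty := by
  obtain ⟨k', k1, k2, k3⟩ := good_k l l k (by omega)
  obtain ⟨a, ha⟩ : ∃ a : ℝ, a = ((l : ℝ) - 1) / 2 ^ k' := ⟨_, rfl⟩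
  have l2 : (2 : ℝ) ≤ l := by exact_mod_cast hl
  have a0 : 0 < a := by rw [ha]; exact div_pos (by linarith) (by positivity)
  rw [← ha] at k2 k3
  have h1 : ENNReal.ofReal (l + k' + a) < min (dimH E) (ENNReal.ofReal (l + k' + 2)) :=
    lt_min ((ENNReal.ofReal_le_ofReal (by linarith)).trans_lt h)
      ((ENNReal.ofReal_lt_ofReal_iff (by positivity)).2 (by linarith))
  obtain ⟨s, s0, s1, s2⟩ := ENNReal.lt_iff_exists_real_btwn.1 h1
  rw [ENNReal.ofReal_lt_ofReal_iff_of_nonneg (by positivity)] at s1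
  obtain ⟨s2, s3⟩ := lt_min_iff.1 s2
  rw [ENNReal.ofReal_lt_ofReal_iff (by positivity)] at s3
  have s4 : 0 < s := lt_trans (by positivity) s1
  obtain ⟨K, K1, K2, K3⟩ := exists_compact_cont hE s4 s2
  obtain ⟨μ, μ1, μ2, μ3, μ4⟩ := frostman K2 s4 K3
  refine ⟨K, K1, K2, ?_⟩
  obtain ⟨K₀, hK₀⟩ := kak_all hl k' (by omega)
  have card : (Fintype.card (Fin k' ⊕ Fin l) : ℝ) = l + k' := by simp [add_comm]
  obtain ⟨q, q1, q2⟩ := exists_between (show (2 : ℝ) ^ ((l + k' : ℝ) - s) < 2 ^ (-a) from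
    Real.rpow_lt_rpow_of_exponent_lt one_lt_two (by linarith))
  have q0 : 0 < q := lt_trans (by positivity) q1
  have q3 : q < 1 := q2.trans (Real.rpow_lt_one_of_one_lt_of_neg one_lt_two (by linarith))
  have q4 : q ^ 2 ^ k' * 2 ^ (l - 1) < 1 := by
    have e : ((2 : ℝ) ^ (-a)) ^ 2 ^ k' * 2 ^ (l - 1) = 1 := by
      rw [← Real.rpow_natCast, ← Real.rpow_mul zero_le_two, ← Real.rpow_natCast,
        ← Real.rpow_add two_pos, ha, Nat.cast_sub (by omega)]
      push_cast
      rw [neg_mul, div_mul_cancel₀ _ (by positivity), neg_add_cancel, Real.rpow_zero]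
    rw [← e]
    gcongr
  have H := gauss_l2 (ι := Fin k' ⊕ Fin l) μ μ4 (by rw [card]; linarith) (by rw [card]; linarith)
    (q := q) (by rwa [card])
  have e := volume_measurePreserving_sumPiEquivProdPi_symm (fun _ : Fin k' ⊕ Fin l => Vc n)
  obtain ⟨G, hG⟩ : ∃ G, G = {A : Fin l → Vc n | (interior (mv A '' K)).Nonempty} := ⟨_, rfl⟩
  have mG : MeasurableSet G := hG ▸ meas_good K2
  obtain ⟨φ, hφ⟩ : ∃ φ : (Fin k' → Vc n) → (Fin k' → Vc l) → Fin l → Vc n,
    φ = fun A B i => ∑ i', B i' i • A i' := ⟨_, rfl⟩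
  have H2 : ∀ᵐ z : (Fin k' → Vc n) × (Fin l → Vc n), ∀ᵐ B : Fin k' → Vc l, z.2 - φ z.1 B ∈ G := by
    filter_upwards [e.quasiMeasurePreserving.ae H] with z hz
    obtain ⟨F, hF⟩ := reg_of_l2 μ μ2 K2 μ3 q0 q3 _ hz
    filter_upwards [abs_main hK₀ (reg_sum hF) q0 q4] with B hB
    rw [hG]
    refine hB.mono (interior_mono ?_)
    rintro x ⟨p, ⟨y, hy, hp⟩, rfl⟩
    refine ⟨y, hy, funext fun i => ?_⟩
    have h2 : p.2 i = ∑ j, z.2 i j * y j := (congrFun hp (Sum.inr i)).symm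
    have h3 : ∀ i', p.1 i' = ∑ j, z.1 i' j * y j := fun i' => (congrFun hp (Sum.inl i')).symm
    simp only [mv, hφ, Pi.sub_apply, Finset.sum_apply, Pi.smul_apply, smul_eq_mul, h2, h3, sub_mul,
      Finset.sum_sub_distrib, Finset.sum_mul]
    rw [Finset.sum_comm]
    congr 1
    exact Finset.sum_congr rfl fun _ _ => Finset.sum_congr rfl fun _ _ => by ring
  obtain ⟨A, hA⟩ := (Measure.ae_ae_of_ae_prod H2).exists
  have mφ : Measurable fun z : (Fin l → Vc n) × (Fin k' → Vc l) => z.1 - φ A z.2 := by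
    rw [hφ]
    fun_prop
  obtain ⟨B, hB⟩ := ((Measure.ae_ae_comm (p := fun A' B => A' - φ A B ∈ G) (mφ mG)).1 hA).exists
  have := (measurePreserving_add_right volume (φ A B)).quasiMeasurePreserving.ae hB
  simpa [hG] using this

theorem main {n l k : ℕ} (hl : 2 ≤ l) (hk : 1 ≤ k) (γ : Measure (Gr n l)) [IsProbabilityMeasure γ]
    (hγ : ∀ (g : Eu n ≃ₗᵢ[ℝ] Eu n) (S : Set (Gr n l)), MeasurableSet S → γ (Gr.act g ⁻¹' S) = γ S)
    {E : Set (Eu n)} (hE : MeasurableSet E)
    (h : ENNReal.ofReal (l + k + (l - 1) / 2 ^ k) < dimH E) :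
    ∀ᵐ V ∂γ, (interior (V.1.orthogonalProjectionOnto '' E)).Nonempty := by
  let e : Eu n ≃L[ℝ] Vc n := PiLp.continuousLinearEquiv 2 ℝ _
  obtain ⟨K, K1, K2, K3⟩ := ae_matrix hl hk (E := e '' E)
    (e.toHomeomorph.measurableEmbedding.measurableSet_image.2 hE) (by rwa [e.dimH_image])
  have m := measurePreserving_pi (fun _ : Fin l => (volume : Measure (Eu n)))
    (fun _ => (volume : Measure (Vc n))) fun _ => PiLp.volume_preserving_ofLp (Fin n)
  filter_upwards [grass_ae γ hγ (K2.image e.symm.continuous) (by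
    filter_upwards [m.quasiMeasurePreserving.ae K3] with v hv
    refine hv.mono (interior_mono ?_)
    rintro _ ⟨x, hx, rfl⟩
    refine ⟨_, ⟨x, hx, rfl⟩, funext fun i => ?_⟩
    simp [mv, e, PiLp.inner_apply, mul_comm])] with V hV
  refine hV.mono (interior_mono (image_mono ?_))
  rintro _ ⟨x, hx, rfl⟩
  obtain ⟨y, hy, rfl⟩ := K1 hx
  simpa using hy

end Pool.Agent.Work.MP_2a522c_an
end
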